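import Mathlib

/-! Basic definitions for MP_1e901d_co : numbers of non-negative `k`-subset sums
of sets of `n` distinct reals with sum zero. -/

namespace Pool.Agent.Lib.MP1e901d

open Finset
open scoped Classical

/-- the family of `k`-element subsets of `A` with non-negative sum -/
noncomputable def nonnegSets (k : ℕ) (A : Finset ℝ) : Finset (Finset ℝ) :=
  (A.powersetCard k).filter (fun B => 0 ≤ ∑ b ∈ B, b)

/-- the number of `k`-element subsets of `A` with non-negative sum -/
noncomputable def mu (k : ℕ) (A : Finset ℝ) : ℕ := (nonnegSets k A).card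

/-- `A` is a set of `n` distinct reals with sum zero -/
def Admissible (n : ℕ) (A : Finset ℝ) : Prop := A.card = n ∧ ∑ a ∈ A, a = 0

/-- `A` is an extremal example for the minimum of `mu k` -/
def IsMinExtremal (k n : ℕ) (A : Finset ℝ) : Prop :=
  Admissible n A ∧ ∀ A', Admissible n A' → mu k A ≤ mu k A'

/-- `A` is an extremal example for the maximum of `mu k` -/
def IsMaxExtremal (k n : ℕ) (A : Finset ℝ) : Prop :=
  Admissible n A ∧ ∀ A', Admissible n A' → mu k A' ≤ mu k A

theorem exists_min {n : ℕ} (k : ℕ) {A₀ : Finset ℝ} (h : Admissible n A₀) :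
    ∃ A, IsMinExtremal k n A := by
  classical
  let S : Set ℕ := {t | ∃ A, Admissible n A ∧ mu k A = t}
  have hS : S.Nonempty := ⟨_, A₀, h, rfl⟩
  obtain ⟨A, hA, hAe⟩ := Nat.sInf_mem hS
  refine ⟨A, hA, fun A' hA' => ?_⟩
  rw [hAe]
  exact Nat.sInf_le ⟨A', hA', rfl⟩

theorem mu_le_choose {n : ℕ} (k : ℕ) {A : Finset ℝ} (h : Admissible n A) :
    mu k A ≤ n.choose k := by
  unfold mu nonnegSets
  refine (Finset.card_filter_le _ _).trans ?_
  rw [Finset.card_powersetCard, h.1]

theorem exists_max {n : ℕ} (k : ℕ) {A₀ : Finset ℝ} (h : Admissible n A₀) :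
    ∃ A, IsMaxExtremal k n A := by
  classical
  let S : Set ℕ := {t | ∃ A, Admissible n A ∧ mu k A = t}
  have hS : S.Nonempty := ⟨_, A₀, h, rfl⟩
  have hb : BddAbove S := by
    refine ⟨n.choose k, ?_⟩
    rintro t ⟨A, hA, rfl⟩
    exact mu_le_choose k hA
  obtain ⟨A, hA, hAe⟩ := Nat.sSup_mem hS hb
  refine ⟨A, hA, fun A' hA' => ?_⟩
  rw [hAe]
  exact le_csSup hb ⟨A', hA', rfl⟩

/-- a bridge : `0 ≤ sum of a k-subset` in terms of its complement -/
theorem sum_compl {A B : Finset ℝ} (hA : ∑ a ∈ A, a = 0) (hB : B ⊆ A) :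
    ∑ b ∈ B, b = - ∑ b ∈ A \ B, b := by
  have := Finset.sum_sdiff (f := fun x : ℝ => x) hB
  linarith

/-- number of `k`-subsets of `A` containing a given element -/
theorem card_star {A : Finset ℝ} {x : ℝ} (hx : x ∈ A) {k : ℕ} (hk : 1 ≤ k) :
    ((A.powersetCard k).filter (fun B => x ∈ B)).card = (A.card - 1).choose (k - 1) := by
  classical
  have h1 : ((A.powersetCard k).filter (fun B => x ∈ B))
      = ((A.erase x).powersetCard (k - 1)).image (insert x) := by
    ext B
    simp only [Finset.mem_filter, Finset.mem_powersetCard, Finset.mem_image]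
    constructor
    · rintro ⟨⟨hBA, hBk⟩, hxB⟩
      refine ⟨B.erase x, ⟨Finset.erase_subset_erase _ hBA, ?_⟩, Finset.insert_erase hxB⟩
      rw [Finset.card_erase_of_mem hxB, hBk]
    · rintro ⟨C, ⟨hCA, hCk⟩, rfl⟩
      have hxC : x ∉ C := fun h => by
        have := hCA h
        simp at this
      refine ⟨⟨?_, ?_⟩, Finset.mem_insert_self _ _⟩
      · refine Finset.insert_subset hx (hCA.trans (Finset.erase_subset _ _))
      · rw [Finset.card_insert_of_notMem hxC, hCk]; omega
  rw [h1, Finset.card_image_of_injOn, Finset.card_powersetCard, Finset.card_erase_of_mem hx]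
  intro C hC D hD hCD
  have hxC : x ∉ C := fun h => by
    have := (Finset.mem_powersetCard.1 (Finset.mem_coe.1 hC)).1 h
    simp at this
  have hxD : x ∉ D := fun h => by
    have := (Finset.mem_powersetCard.1 (Finset.mem_coe.1 hD)).1 h
    simp at this
  have := congrArg (fun S => Finset.erase S x) hCD
  simpa [Finset.erase_insert hxC, Finset.erase_insert hxD] using this

/-- number of `k`-subsets of `A` avoiding a given element -/
theorem card_costar {A : Finset ℝ} {x : ℝ} (hx : x ∈ A) (k : ℕ) :
    ((A.powersetCard k).filter (fun B => x ∉ B)).card = (A.card - 1).choose k := by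
  classical
  have h1 : ((A.powersetCard k).filter (fun B => x ∉ B)) = (A.erase x).powersetCard k := by
    ext B
    simp only [Finset.mem_filter, Finset.mem_powersetCard]
    constructor
    · rintro ⟨⟨hBA, hBk⟩, hxB⟩
      exact ⟨fun b hb => Finset.mem_erase.2 ⟨fun h => hxB (h ▸ hb), hBA hb⟩, hBk⟩
    · rintro ⟨hBA, hBk⟩
      refine ⟨⟨hBA.trans (Finset.erase_subset _ _), hBk⟩, fun h => ?_⟩
      have := hBA h
      simp at this
  rw [h1, Finset.card_powersetCard, Finset.card_erase_of_mem hx]

end Pool.Agent.Lib.MP1e901d
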