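import Pool.Agent.Lib.MP_1e901d_co.Check

/-! MP_1e901d_co : certificates and their soundness. -/

namespace Pool.Agent.Lib.MP1e901d

open Finset
open scoped Classical

/-- certificates: a case tree whose leaves are a count of negative sums or a combination of
non-negative sums that contradicts the sum zero -/
inductive Cert
  | cnt : Cert
  | far : ℕ → List (List ℕ × ℕ) → Cert
  | split : List ℕ → Cert → Cert → Cert

/-- weighted number of entries at most `j` -/
def pc (j : ℕ) : List (List ℕ × ℕ) → ℕ
  | [] => 0
  | p :: ps => p.2 * (p.1.countP (fun i => Nat.ble i j)) + pc j ps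

/-- the checker -/
def check (k n target : ℕ) : List (List ℕ) → List (List ℕ) → Cert → Bool
  | NG, _, .cnt => Nat.ble target (cntG n k 0 NG)
  | _, NN, .far d ws =>
      (ws.all (fun p => NN.contains p.1 && p.1.all (fun i => Nat.ble (i + 1) n))) &&
      (Nat.beq (pc (n - 1) ws) (d * n)) &&
      ((List.range n).all (fun j => Nat.ble (d * (j + 1)) (pc j ws))) &&
      ((List.range (n - 1)).any (fun j => Nat.ble (d * (j + 1) + 1) (pc j ws)))
  | NG, NN, .split T c₁ c₂ =>
      (Nat.beq T.length k) && check k n target (T :: NG) NN c₁ && check k n target NG (T :: NN) c₂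

/-- Abel summation -/
theorem abel (V a : ℕ → ℝ) (m : ℕ) :
    ∑ i ∈ Finset.range (m + 1), V i * a i = (∑ i ∈ Finset.range (m + 1), V i) * a m
      - ∑ j ∈ Finset.range m, (∑ i ∈ Finset.range (j + 1), V i) * (a (j + 1) - a j) := by
  induction m with
  | zero => simp
  | succ m ih =>
    have e1 := Finset.sum_range_succ V (m + 1)
    have e2 := Finset.sum_range_succ
      (fun j => (∑ i ∈ Finset.range (j + 1), V i) * (a (j + 1) - a j)) m
    have e3 := Finset.sum_range_succ (fun i => V i * a i) (m + 1)
    rw [e3, ih, e1, e2]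
    ring

theorem countP_sum (T : List ℕ) (j : ℕ) :
    ((T.countP (fun i => Nat.ble i j) : ℕ) : ℝ) = ∑ i ∈ Finset.range (j + 1), (T.count i : ℝ) := by
  induction T with
  | nil => simp
  | cons t T ih =>
    rw [List.countP_cons]
    push_cast
    rw [ih]
    have : ∀ i, ((t :: T).count i : ℝ) = (T.count i : ℝ) + if t = i then 1 else 0 := by
      intro i
      rw [List.count_cons]
      by_cases h : t = i
      · simp [h]
      · simp [h]
    simp only [this]
    rw [Finset.sum_add_distrib]
    congr 1
    rw [Finset.sum_ite_eq]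
    by_cases h : t ≤ j
    · have e1 : Nat.ble t j = true := Nat.ble_eq_true_of_le h
      have e2 : t ∈ Finset.range (j + 1) := Finset.mem_range.2 (by omega)
      rw [if_pos e1, if_pos e2]
    · have e1 : ¬ (Nat.ble t j = true) := fun h' => h (Nat.le_of_ble_eq_true h')
      have e2 : ¬ (t ∈ Finset.range (j + 1)) := fun h' => h (by
        have := Finset.mem_range.1 h'; omega)
      rw [if_neg e1, if_neg e2]

theorem lsum_count (a : ℕ → ℝ) {n : ℕ} (T : List ℕ) (hT : ∀ i ∈ T, i < n) :
    lsum a T = ∑ i ∈ Finset.range n, (T.count i : ℝ) * a i := by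
  induction T with
  | nil => simp [lsum]
  | cons t T ih =>
    have h1 : lsum a (t :: T) = a t + lsum a T := by simp [lsum]
    rw [h1, ih (fun i hi => hT i (List.mem_cons_of_mem _ hi))]
    have : ∀ i, ((t :: T).count i : ℝ) = (T.count i : ℝ) + if t = i then 1 else 0 := by
      intro i
      rw [List.count_cons]
      by_cases h : t = i
      · simp [h]
      · simp [h]
    simp only [this, add_mul, ite_mul, one_mul, zero_mul]
    rw [Finset.sum_add_distrib, Finset.sum_ite_eq,
      if_pos (Finset.mem_range.2 (hT t List.mem_cons_self))]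
    ring

/-- the weight vector of a list -/
noncomputable def wt (ws : List (List ℕ × ℕ)) (i : ℕ) : ℝ :=
  (ws.map (fun p => (p.2 : ℝ) * (p.1.count i : ℝ))).sum

theorem pc_wt (ws : List (List ℕ × ℕ)) (j : ℕ) :
    (pc j ws : ℝ) = ∑ i ∈ Finset.range (j + 1), wt ws i := by
  induction ws with
  | nil => simp [pc, wt]
  | cons p ps ih =>
    have h1 : ∀ i, wt (p :: ps) i = (p.2 : ℝ) * (p.1.count i : ℝ) + wt ps i := by
      intro i; simp [wt]
    simp only [h1]
    rw [Finset.sum_add_distrib, ← ih, ← Finset.mul_sum, ← countP_sum]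
    rw [pc]
    push_cast
    ring

theorem wt_sum (a : ℕ → ℝ) {n : ℕ} (ws : List (List ℕ × ℕ))
    (h : ∀ p ∈ ws, ∀ i ∈ p.1, i < n) :
    (ws.map (fun p => (p.2 : ℝ) * lsum a p.1)).sum = ∑ i ∈ Finset.range n, wt ws i * a i := by
  induction ws with
  | nil => simp [wt]
  | cons p ps ih =>
    have h1 : ∀ i, wt (p :: ps) i = (p.2 : ℝ) * (p.1.count i : ℝ) + wt ps i := by
      intro i; simp [wt]
    simp only [h1, List.map_cons, List.sum_cons, add_mul]
    rw [Finset.sum_add_distrib, ← ih (fun q hq => h q (List.mem_cons_of_mem _ hq)),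
      lsum_count a p.1 (h p List.mem_cons_self), Finset.mul_sum]
    congr 1
    apply Finset.sum_congr rfl
    intro i _; ring

/-- soundness of the combination leaf -/
theorem far_sound {a : ℕ → ℝ} (ha : StrictMono a) {n : ℕ} (hn : 1 ≤ n)
    (h0 : ∑ i ∈ Finset.range n, a i = 0) {d : ℕ} {ws : List (List ℕ × ℕ)}
    (h1 : ∀ p ∈ ws, 0 ≤ lsum a p.1) (h2 : ∀ p ∈ ws, ∀ i ∈ p.1, i < n)
    (h3 : pc (n - 1) ws = d * n) (h4 : ∀ j < n, d * (j + 1) ≤ pc j ws)
    (h5 : ∃ j < n - 1, d * (j + 1) + 1 ≤ pc j ws) : False := by
  obtain ⟨m, rfl⟩ : ∃ m, n = m + 1 := ⟨n - 1, by omega⟩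
  have hm : m + 1 - 1 = m := by omega
  rw [hm] at h3 h5
  have hP : ∀ j, ∑ i ∈ Finset.range (j + 1), (wt ws i - d) = (pc j ws : ℝ) - d * (j + 1) := by
    intro j
    rw [Finset.sum_sub_distrib, ← pc_wt]
    simp
    ring
  have hA := abel (fun i => wt ws i - d) a m
  rw [hP m] at hA
  simp only [hP] at hA
  have h3' : (pc m ws : ℝ) - d * (m + 1) = 0 := by
    rw [h3]; push_cast; ring
  rw [h3', zero_mul, zero_sub] at hA
  have hL : ∑ i ∈ Finset.range (m + 1), (wt ws i - d) * a i
      = (ws.map (fun p => (p.2 : ℝ) * lsum a p.1)).sum := by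
    rw [wt_sum a ws h2]
    simp only [sub_mul]
    rw [Finset.sum_sub_distrib, ← Finset.mul_sum, h0, mul_zero, sub_zero]
  have hpos : 0 ≤ (ws.map (fun p => (p.2 : ℝ) * lsum a p.1)).sum := by
    apply List.sum_nonneg
    intro x hx
    obtain ⟨p, hp, rfl⟩ := List.mem_map.1 hx
    exact mul_nonneg (Nat.cast_nonneg _) (h1 p hp)
  have hs : 0 < ∑ j ∈ Finset.range m, ((pc j ws : ℝ) - d * (j + 1)) * (a (j + 1) - a j) := by
    apply Finset.sum_pos'
    · intro j hj
      have hj' := Finset.mem_range.1 hj
      have e1 : (d : ℝ) * (j + 1) ≤ pc j ws := by exact_mod_cast h4 j (by omega)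
      have e2 : a j < a (j + 1) := ha (Nat.lt_succ_self j)
      exact mul_nonneg (by linarith) (by linarith)
    · obtain ⟨j, hj, hj2⟩ := h5
      refine ⟨j, Finset.mem_range.2 hj, ?_⟩
      have e1 : (d : ℝ) * (j + 1) + 1 ≤ pc j ws := by exact_mod_cast hj2
      have e2 : a j < a (j + 1) := ha (Nat.lt_succ_self j)
      exact mul_pos (by linarith) (by linarith)
  rw [hL] at hA
  linarith

/-- soundness of the checker -/
theorem check_sound {a : ℕ → ℝ} (ha : StrictMono a) {k n target : ℕ} (hn : 1 ≤ n)
    (h0 : ∑ i ∈ Finset.range n, a i = 0) :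
    ∀ (c : Cert) (NG NN : List (List ℕ)), check k n target NG NN c = true →
      (∀ g ∈ NG, g.length = k ∧ lsum a g < 0) → (∀ g ∈ NN, 0 ≤ lsum a g) →
      target ≤ cntR (fun s => s < 0) k ((Finset.range n).image a) := by
  intro c
  induction c with
  | cnt =>
    intro NG NN hc hNG _
    simp only [check] at hc
    have hc' := (Nat.le_of_ble_eq_true hc).trans (cntG_le n k 0 NG)
    refine hc'.trans ?_
    obtain ⟨hnd, hsp⟩ := enumG_spec n k 0 NG
    rw [← List.toFinset_card_of_nodup hnd]
    unfold cntR
    apply Finset.card_le_card_of_injOn (setOf' a)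
    · intro L hL
      rw [Finset.mem_coe, List.mem_toFinset] at hL
      obtain ⟨h1, h2, h3, g, hg, h4⟩ := hsp L hL
      rw [Finset.mem_coe, Finset.mem_filter, Finset.mem_powersetCard]
      refine ⟨⟨?_, by rw [card_setOf' ha h2, h1]⟩, ?_⟩
      · unfold setOf'
        apply Finset.image_subset_image
        intro x hx
        exact Finset.mem_range.2 (h3 x (List.mem_toFinset.1 hx)).2
      · show (∑ b ∈ setOf' a L, b) < 0
        rw [sum_setOf' ha h2]
        have h5 := lsum_mono ha.monotone h4
        have h6 := (hNG g hg)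
        rw [← h6.1, List.take_length] at h5
        linarith [h6.2]
    · intro L hL M hM hLM
      rw [Finset.mem_coe, List.mem_toFinset] at hL hM
      exact setOf'_inj ha (hsp L hL).2.1 (hsp M hM).2.1 hLM
  | far d ws =>
    intro NG NN hc _ hNN
    simp only [check, Bool.and_eq_true, List.all_eq_true, List.any_eq_true, List.mem_range] at hc
    obtain ⟨⟨⟨h1, h2⟩, h3⟩, h4⟩ := hc
    exfalso
    apply far_sound ha hn h0 (d := d) (ws := ws)
    · intro p hp
      have := (h1 p hp).1
      rw [List.contains_iff_mem] at this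
      exact hNN _ this
    · intro p hp i hi
      have := Nat.le_of_ble_eq_true ((h1 p hp).2 i hi)
      omega
    · exact Nat.eq_of_beq_eq_true h2
    · intro j hj
      exact Nat.le_of_ble_eq_true (h3 j hj)
    · obtain ⟨j, hj, hj2⟩ := h4
      exact ⟨j, hj, Nat.le_of_ble_eq_true hj2⟩
  | split T c₁ c₂ ih₁ ih₂ =>
    intro NG NN hc hNG hNN
    simp only [check, Bool.and_eq_true] at hc
    obtain ⟨⟨h1, h2⟩, h3⟩ := hc
    have hT : T.length = k := Nat.eq_of_beq_eq_true h1
    rcases lt_or_ge (lsum a T) 0 with h | h
    · apply ih₁ _ _ h2 _ hNN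
      intro g hg
      rcases List.mem_cons.1 hg with rfl | hg
      · exact ⟨hT, h⟩
      · exact hNG g hg
    · apply ih₂ _ _ h3 hNG
      intro g hg
      rcases List.mem_cons.1 hg with rfl | hg
      · exact h
      · exact hNN g hg

/-- an increasing list with entries below `m + k` lies below `m, m+1, ...` -/
theorem below_top : ∀ (k m : ℕ) (L : List ℕ), L.Pairwise (· < ·) → (∀ x ∈ L, x < m + k) →
    L.length = k → List.Forall₂ (· ≤ ·) L (List.range' m k) := by
  intro k
  induction k with
  | zero =>
    intro m L _ _ hk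
    rw [List.length_eq_zero_iff] at hk
    subst hk
    simp
  | succ k ih =>
    intro m L hL hb hk
    cases L with
    | nil => simp at hk
    | cons x L =>
      rw [List.pairwise_cons] at hL
      have h1 := ih (m + 1) L hL.2 (fun y hy => by
        have := hb y (List.mem_cons_of_mem _ hy); omega) (by simpa using hk)
      rw [List.range'_succ]
      refine List.Forall₂.cons ?_ h1
      cases L with
      | nil =>
        have hk0 : k = 0 := by simpa using hk.symm
        subst hk0
        have := hb x List.mem_cons_self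
        omega
      | cons y L =>
        cases k with
        | zero => simp at hk
        | succ k =>
          rw [List.range'_succ] at h1
          cases h1 with
          | cons h2 _ =>
            have := hL.1 y List.mem_cons_self
            omega

/-- a certificate settles the pair `(k, n)` -/
theorem starMin_of_check {k n t : ℕ} (hk : 1 ≤ k) (hkn : k < n) (c : Cert)
    (ht : t = (n - 1).choose (k - 1) + 1)
    (hc : check k n t [] [0 :: List.range' (n - (k - 1)) (k - 1)] c = true) :
    StarMin (fun s => s < 0) k n := by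
  classical
  subst ht
  intro A hA
  obtain ⟨a, ha, rfl⟩ := exists_enum hA.1
  have h0 : ∑ i ∈ Finset.range n, a i = 0 := by
    have := hA.2
    rwa [Finset.sum_image (fun _ _ _ _ h => ha.injective h)] at this
  set T := 0 :: List.range' (n - (k - 1)) (k - 1) with hT
  rcases lt_or_ge (lsum a T) 0 with h | h
  · -- all sets through the smallest element are negative
    have hx : a 0 ∈ (Finset.range n).image a :=
      Finset.mem_image.2 ⟨0, Finset.mem_range.2 (by omega), rfl⟩
    have hstar : ∀ B ⊆ (Finset.range n).image a, B.card = k → a 0 ∈ B → ∑ b ∈ B, b < 0 := by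
      intro B hB hBk hxB
      let I := (Finset.range n).filter (fun i => a i ∈ B.erase (a 0))
      let L := I.sort (· ≤ ·)
      have hLp : L.Pairwise (· < ·) := Finset.sortedLT_sort I |>.pairwise
      have hI : I.image a = B.erase (a 0) := by
        ext x
        simp only [I, Finset.mem_image, Finset.mem_filter]
        constructor
        · rintro ⟨i, hi, rfl⟩; exact hi.2
        · intro hx'
          obtain ⟨i, hi, rfl⟩ := Finset.mem_image.1 (hB (Finset.mem_of_mem_erase hx'))
          exact ⟨i, ⟨hi, hx'⟩, rfl⟩
      have hLt : L.toFinset = I := Finset.sort_toFinset I (r := (· ≤ ·))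
      have hset : setOf' a L = B.erase (a 0) := by
        unfold setOf'; rw [hLt, hI]
      have hLl : L.length = k - 1 := by
        rw [← card_setOf' ha hLp, hset, Finset.card_erase_of_mem hxB, hBk]
      have hdom := below_top (k - 1) (n - (k - 1)) L hLp (fun x hx => by
        have : x ∈ I := by rw [← hLt]; exact List.mem_toFinset.2 hx
        have := Finset.mem_range.1 (Finset.mem_filter.1 this).1
        omega) hLl
      have h1 := lsum_mono ha.monotone hdom
      rw [← sum_setOf' ha hLp, hset] at h1
      have h2 : lsum a T = a 0 + lsum a (List.range' (n - (k - 1)) (k - 1)) := by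
        rw [hT]; simp [lsum]
      rw [← Finset.add_sum_erase B (fun x => x) hxB]
      linarith
    have hsub : (((Finset.range n).image a).powersetCard k).filter (fun B => a 0 ∈ B) ⊆
        (((Finset.range n).image a).powersetCard k).filter (fun B => (∑ b ∈ B, b) < 0) := by
      intro B hB
      rw [Finset.mem_filter, Finset.mem_powersetCard] at hB
      rw [Finset.mem_filter, Finset.mem_powersetCard]
      exact ⟨hB.1, hstar B hB.1.1 hB.1.2 hB.2⟩
    have hcs := card_star hx hk
    rw [hA.1] at hcs
    constructor
    · rw [← hcs]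
      exact Finset.card_le_card hsub
    · intro heq
      have he := Finset.eq_of_subset_of_card_le hsub (by
        rw [hcs, ← heq]; exact le_rfl)
      refine ⟨a 0, hx, fun B hB hBk => ⟨fun hr => ?_, fun hxB => hstar B hB hBk hxB⟩⟩
      have : B ∈ (((Finset.range n).image a).powersetCard k).filter
          (fun B => (∑ b ∈ B, b) < 0) := by
        rw [Finset.mem_filter, Finset.mem_powersetCard]; exact ⟨⟨hB, hBk⟩, hr⟩
      rw [← he, Finset.mem_filter] at this
      exact this.2
  · have := check_sound ha (by omega : 1 ≤ n) h0 c [] [T] hc (by simp) (by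
      intro g hg
      rw [List.mem_singleton] at hg
      subst hg
      exact h)
    exact ⟨by omega, fun heq => absurd heq (by omega)⟩

end Pool.Agent.Lib.MP1e901d
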