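import Pool.Agent.Lib.MP_1e901d_co.Step

/-! MP_1e901d_co : a checker for single pairs `(k, n)`. -/

namespace Pool.Agent.Lib.MP1e901d

open Finset
open scoped Classical

/-- tails of the members whose head is at least `x` -/
def tails (x : ℕ) : List (List ℕ) → List (List ℕ)
  | [] => []
  | [] :: gs => tails x gs
  | (h :: t) :: gs => if Nat.ble x h = true then t :: tails x gs else tails x gs

/-- increasing lists of length `k` with entries in `[lo, n)` that lie below a member of `gs` -/
def enumG (n : ℕ) : ℕ → ℕ → List (List ℕ) → List (List ℕ)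
  | 0, _, [] => []
  | 0, _, _ :: _ => [[]]
  | k + 1, lo, gs => match gs with
    | [] => []
    | g :: gs' => (List.range' lo (n - lo)).flatMap
        (fun x => (enumG n k (x + 1) (tails x (g :: gs'))).map (List.cons x))

theorem mem_tails {x : ℕ} {t : List ℕ} : ∀ {gs : List (List ℕ)}, t ∈ tails x gs →
    ∃ h, x ≤ h ∧ (h :: t) ∈ gs
  | [], h => by simp [tails] at h
  | [] :: gs, h => by
    rw [tails] at h
    obtain ⟨a, ha, hb⟩ := mem_tails h
    exact ⟨a, ha, List.mem_cons_of_mem _ hb⟩
  | (a :: u) :: gs, h => by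
    rw [tails] at h
    split at h
    · rename_i hx
      rcases List.mem_cons.1 h with rfl | h
      · exact ⟨a, Nat.le_of_ble_eq_true hx, List.mem_cons_self⟩
      · obtain ⟨b, hb, hc⟩ := mem_tails h
        exact ⟨b, hb, List.mem_cons_of_mem _ hc⟩
    · obtain ⟨b, hb, hc⟩ := mem_tails h
      exact ⟨b, hb, List.mem_cons_of_mem _ hc⟩

theorem enumG_spec (n : ℕ) : ∀ (k lo : ℕ) (gs : List (List ℕ)),
    (enumG n k lo gs).Nodup ∧ ∀ L ∈ enumG n k lo gs,
      L.length = k ∧ L.Pairwise (· < ·) ∧ (∀ x ∈ L, lo ≤ x ∧ x < n) ∧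
        ∃ g ∈ gs, List.Forall₂ (· ≤ ·) L (g.take k) := by
  intro k
  induction k with
  | zero =>
    intro lo gs
    cases gs with
    | nil => simp [enumG]
    | cons g gs => simp [enumG]
  | succ k ih =>
    intro lo gs
    cases gs with
    | nil => simp [enumG]
    | cons g gs =>
      rw [enumG]
      constructor
      · rw [List.nodup_flatMap]
        constructor
        · intro x _
          exact (ih _ _).1.map (List.cons_injective)
        · apply List.Pairwise.imp _ (List.nodup_range' (s := lo) (n := n - lo))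
          intro x y hxy
          rw [Function.onFun, List.disjoint_left]
          intro L hL hL'
          rw [List.mem_map] at hL hL'
          obtain ⟨L1, _, rfl⟩ := hL
          obtain ⟨L2, _, h2⟩ := hL'
          rw [List.cons.injEq] at h2
          exact hxy h2.1.symm
      · intro L hL
        rw [List.mem_flatMap] at hL
        obtain ⟨x, hx, hL⟩ := hL
        rw [List.mem_map] at hL
        obtain ⟨L1, hL1, rfl⟩ := hL
        obtain ⟨h1, h2, h3, g1, hg1, h4⟩ := (ih _ _).2 L1 hL1
        rw [List.mem_range'] at hx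
        obtain ⟨i, hi, hxi⟩ := hx
        obtain ⟨a, ha, hb⟩ := mem_tails hg1
        refine ⟨by simp [h1], ?_, ?_, ?_⟩
        · rw [List.pairwise_cons]
          exact ⟨fun y hy => by have := (h3 y hy).1; omega, h2⟩
        · intro y hy
          rcases List.mem_cons.1 hy with rfl | hy
          · omega
          · have := h3 y hy; omega
        · refine ⟨_, hb, ?_⟩
          rw [List.take_succ_cons]
          exact List.Forall₂.cons ha h4

/-- sum of `f` over `lo, lo + 1, ...` (`m` terms) -/
def sumTo (f : ℕ → ℕ) : ℕ → ℕ → ℕ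
  | _, 0 => 0
  | lo, m + 1 => f lo + sumTo f (lo + 1) m

/-- the largest head, plus one -/
def mx : List (List ℕ) → ℕ
  | [] => 0
  | [] :: gs => mx gs
  | (h :: _) :: gs => max (h + 1) (mx gs)

/-- the number of lists in `enumG` (a lower bound is all that is needed) -/
def cntG (n : ℕ) : ℕ → ℕ → List (List ℕ) → ℕ
  | 0, _, [] => 0
  | 0, _, _ :: _ => 1
  | 1, lo, gs => min n (mx gs) - lo
  | k + 2, lo, gs => match gs with
    | [] => 0
    | g :: gs' => sumTo (fun x => cntG n (k + 1) (x + 1) (tails x (g :: gs'))) lo (n - lo)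

theorem sumTo_le {f g : ℕ → ℕ} (h : ∀ x, f x ≤ g x) : ∀ (m lo : ℕ),
    sumTo f lo m ≤ ((List.range' lo m).map g).sum
  | 0, lo => by simp [sumTo]
  | m + 1, lo => by
    rw [sumTo, List.range'_succ, List.map_cons, List.sum_cons]
    exact Nat.add_le_add (h lo) (sumTo_le h m (lo + 1))

theorem min_le_sum {f : ℕ → ℕ} {M : ℕ} (h : ∀ x, x < M → 1 ≤ f x) : ∀ (m lo : ℕ),
    min (lo + m) M - lo ≤ ((List.range' lo m).map f).sum
  | 0, lo => by simp
  | m + 1, lo => by
    rw [List.range'_succ, List.map_cons, List.sum_cons]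
    have ih := min_le_sum h m (lo + 1)
    rcases Nat.lt_or_ge lo M with hlo | hlo
    · have := h lo hlo
      omega
    · omega

theorem tails_ne_nil {x : ℕ} : ∀ {gs : List (List ℕ)}, x < mx gs → tails x gs ≠ []
  | [], h => by simp [mx] at h
  | [] :: gs, h => by
    rw [mx] at h
    rw [tails]
    exact tails_ne_nil h
  | (a :: u) :: gs, h => by
    rw [mx] at h
    rw [tails]
    split
    · simp
    · rename_i hx
      apply tails_ne_nil
      have hxa : ¬ x ≤ a := fun h' => hx (Nat.ble_eq_true_of_le h')
      omega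

theorem length_enumG (n k lo : ℕ) (gs : List (List ℕ)) :
    (enumG n (k + 1) lo gs).length = ((List.range' lo (n - lo)).map
      (fun x => (enumG n k (x + 1) (tails x gs)).length)).sum := by
  cases gs with
  | nil =>
    rw [enumG]
    symm
    rw [List.length_nil]
    apply List.sum_eq_zero
    intro y hy
    rw [List.mem_map] at hy
    obtain ⟨x, _, rfl⟩ := hy
    rw [tails]
    cases k <;> simp [enumG]
  | cons g gs =>
    rw [enumG, List.length_flatMap]
    congr 1
    apply List.map_congr_left
    intro x _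
    simp

theorem cntG_le (n : ℕ) : ∀ (k lo : ℕ) (gs : List (List ℕ)),
    cntG n k lo gs ≤ (enumG n k lo gs).length
  | 0, lo, [] => by simp [cntG]
  | 0, lo, _ :: _ => by simp [cntG, enumG]
  | 1, lo, gs => by
    rw [length_enumG, cntG]
    refine le_trans ?_ (min_le_sum (M := mx gs) ?_ (n - lo) lo)
    · omega
    · intro x hx
      have h := tails_ne_nil hx
      obtain ⟨t, ts, hts⟩ := List.exists_cons_of_ne_nil h
      rw [hts]
      simp [enumG]
  | k + 2, lo, [] => by simp [cntG]
  | k + 2, lo, g :: gs' => by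
    rw [length_enumG, cntG]
    exact sumTo_le (fun x => cntG_le n (k + 1) (x + 1) _) _ _

/-- the sum of `a` over a list of indices -/
noncomputable def lsum (a : ℕ → ℝ) (L : List ℕ) : ℝ := (L.map a).sum

theorem lsum_mono {a : ℕ → ℝ} (ha : Monotone a) {L M : List ℕ} (h : List.Forall₂ (· ≤ ·) L M) :
    lsum a L ≤ lsum a M := by
  unfold lsum
  induction h with
  | nil => simp
  | cons hxy _ ih =>
    simp only [List.map_cons, List.sum_cons]
    have := ha hxy
    linarith

/-- the subset with the given indices -/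
noncomputable def setOf' (a : ℕ → ℝ) (L : List ℕ) : Finset ℝ := L.toFinset.image a

theorem sum_setOf' {a : ℕ → ℝ} (ha : StrictMono a) {L : List ℕ} (hL : L.Pairwise (· < ·)) :
    ∑ b ∈ setOf' a L, b = lsum a L := by
  have hnd : L.Nodup := hL.imp (fun h => h.ne)
  unfold setOf' lsum
  rw [Finset.sum_image (fun _ _ _ _ h => ha.injective h), List.sum_toFinset _ hnd]

theorem card_setOf' {a : ℕ → ℝ} (ha : StrictMono a) {L : List ℕ} (hL : L.Pairwise (· < ·)) :
    (setOf' a L).card = L.length := by
  have hnd : L.Nodup := hL.imp (fun h => h.ne)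
  unfold setOf'
  rw [Finset.card_image_of_injective _ ha.injective, List.toFinset_card_of_nodup hnd]

theorem setOf'_inj {a : ℕ → ℝ} (ha : StrictMono a) {L M : List ℕ} (hL : L.Pairwise (· < ·))
    (hM : M.Pairwise (· < ·)) (h : setOf' a L = setOf' a M) : L = M := by
  unfold setOf' at h
  have h1 := Finset.image_injective ha.injective h
  have hLn : L.Nodup := hL.imp (fun h => h.ne)
  have hMn : M.Nodup := hM.imp (fun h => h.ne)
  have hp : L.Perm M := by
    rw [List.perm_ext_iff_of_nodup hLn hMn]
    intro x
    rw [← List.mem_toFinset, h1, List.mem_toFinset]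
  exact hp.eq_of_pairwise (fun x y _ _ h1 h2 => absurd h1 (not_lt.2 h2.le)) hL hM

/-- sets of reals as images of initial segments -/
theorem exists_enum {n : ℕ} {A : Finset ℝ} (hA : A.card = n) :
    ∃ a : ℕ → ℝ, StrictMono a ∧ A = (Finset.range n).image a := by
  classical
  let M : ℝ := ∑ x ∈ A, |x|
  have hM : ∀ x ∈ A, x ≤ M := fun x hx =>
    (le_abs_self x).trans (Finset.single_le_sum (f := fun x : ℝ => |x|)
      (fun _ _ => abs_nonneg _) hx)
  let e := A.orderEmbOfFin hA
  let a : ℕ → ℝ := fun i => if h : i < n then e ⟨i, h⟩ else M + (i + 1)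
  refine ⟨a, ?_, ?_⟩
  · intro i j hij
    simp only [a]
    by_cases hj : j < n
    · have hi : i < n := hij.trans hj
      rw [dif_pos hi, dif_pos hj]
      exact e.strictMono hij
    · rw [dif_neg hj]
      by_cases hi : i < n
      · rw [dif_pos hi]
        have h1 := hM _ (Finset.orderEmbOfFin_mem A hA ⟨i, hi⟩)
        have h2 : (0 : ℝ) ≤ j := Nat.cast_nonneg j
        show e ⟨i, hi⟩ < _
        have h3 : e ⟨i, hi⟩ ≤ M := h1
        linarith
      · rw [dif_neg hi]
        have : (i : ℝ) < j := by exact_mod_cast hij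
        linarith
  · ext x
    rw [Finset.mem_image]
    constructor
    · intro hx
      have : x ∈ Set.range e := by
        rw [Finset.range_orderEmbOfFin]; exact hx
      obtain ⟨i, rfl⟩ := this
      refine ⟨i, Finset.mem_range.2 i.2, ?_⟩
      simp only [a]
      rw [dif_pos i.2]
    · rintro ⟨i, hi, rfl⟩
      have hi' := Finset.mem_range.1 hi
      simp only [a]
      rw [dif_pos hi']
      exact Finset.orderEmbOfFin_mem A hA _

end Pool.Agent.Lib.MP1e901d
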