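import Pool.Agent.Lib.MP_1e901d_co.Basic

/-! Explicit sets of reals for MP_1e901d_co. -/

namespace Pool.Agent.Lib.MP1e901d

open Finset
open scoped Classical

theorem sum_arith (p : ℕ) : ∑ i ∈ Finset.range p, (2 * (i : ℝ) + 1 - p) = 0 := by
  have h : ∀ m : ℕ, ∑ i ∈ Finset.range m, (2 * (i : ℝ) + 1 - p) = (m : ℝ) * m - m * p := by
    intro m
    induction m with
    | zero => simp
    | succ m ih => rw [Finset.sum_range_succ, ih]; push_cast; ring
  rw [h p]; ring

/-- the two-level sets : `p` elements close to `q` and `q` elements close to `-p`. -/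
theorem twoLevel (p q : ℕ) (hp : 1 ≤ p) (hq : 1 ≤ q) :
    ∃ A P : Finset ℝ, Admissible (p + q) A ∧ P ⊆ A ∧ P.card = p ∧ (∀ x ∈ P, 0 < x) ∧
      (∀ x ∈ A, x ∉ P → x < 0) ∧
      ∀ B : Finset ℝ, B ⊆ A →
        (B.card * p < (B ∩ P).card * (p + q) → 0 < ∑ b ∈ B, b) ∧
        ((B ∩ P).card * (p + q) < B.card * p → ∑ b ∈ B, b < 0) := by
  classical
  set n : ℕ := p + q with hn
  set η : ℝ := 1 / ((n : ℝ) * n + 1) with hη
  have hnR : (n : ℝ) = p + q := by rw [hn]; push_cast; ring
  have hpR : (1 : ℝ) ≤ p := by exact_mod_cast hp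
  have hqR : (1 : ℝ) ≤ q := by exact_mod_cast hq
  have hnpos : (0 : ℝ) < n := by rw [hnR]; linarith
  have hηpos : 0 < η := by rw [hη]; positivity
  have hηn : η * (n * n) < 1 := by
    rw [hη, one_div, inv_mul_lt_one₀ (by positivity)]; linarith
  have hηn1 : η * n < 1 := by
    have : η * n ≤ η * (n * n) := by
      apply mul_le_mul_of_nonneg_left _ hηpos.le
      nlinarith [hnR]
    linarith
  let f : ℕ → ℝ := fun i => (q : ℝ) + η * (2 * (i : ℝ) + 1 - p)
  let g : ℕ → ℝ := fun i => -(p : ℝ) + η * (2 * (i : ℝ) + 1 - q)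
  have hfinj : Function.Injective f := by
    intro i j hij
    have h1 : η * (2 * (i : ℝ) + 1 - p) = η * (2 * (j : ℝ) + 1 - p) := by
      simpa [f] using hij
    have h2 := mul_left_cancel₀ hηpos.ne' h1
    have h3 : (i : ℝ) = j := by linarith
    exact_mod_cast h3
  have hginj : Function.Injective g := by
    intro i j hij
    have h1 : η * (2 * (i : ℝ) + 1 - q) = η * (2 * (j : ℝ) + 1 - q) := by
      simpa [g] using hij
    have h2 := mul_left_cancel₀ hηpos.ne' h1
    have h3 : (i : ℝ) = j := by linarith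
    exact_mod_cast h3
  set P : Finset ℝ := (Finset.range p).image f with hP
  set Q : Finset ℝ := (Finset.range q).image g with hQ
  have hPest : ∀ x ∈ P, |x - q| ≤ η * n := by
    intro x hx
    obtain ⟨i, hi, rfl⟩ := Finset.mem_image.1 hx
    have hi' : (i : ℝ) + 1 ≤ p := by exact_mod_cast Finset.mem_range.1 hi
    have hi0 : (0 : ℝ) ≤ i := Nat.cast_nonneg i
    have : f i - q = η * (2 * (i : ℝ) + 1 - p) := by simp [f]
    rw [this, abs_mul, abs_of_pos hηpos]
    apply mul_le_mul_of_nonneg_left _ hηpos.le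
    rw [abs_le]; constructor <;> linarith
  have hQest : ∀ x ∈ Q, |x + p| ≤ η * n := by
    intro x hx
    obtain ⟨i, hi, rfl⟩ := Finset.mem_image.1 hx
    have hi' : (i : ℝ) + 1 ≤ q := by exact_mod_cast Finset.mem_range.1 hi
    have hi0 : (0 : ℝ) ≤ i := Nat.cast_nonneg i
    have : g i + p = η * (2 * (i : ℝ) + 1 - q) := by simp [g]
    rw [this, abs_mul, abs_of_pos hηpos]
    apply mul_le_mul_of_nonneg_left _ hηpos.le
    rw [abs_le]; constructor <;> linarith
  have hPpos : ∀ x ∈ P, 0 < x := by
    intro x hx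
    have := (abs_le.1 (hPest x hx)).1
    linarith
  have hQneg : ∀ x ∈ Q, x < 0 := by
    intro x hx
    have := (abs_le.1 (hQest x hx)).2
    linarith
  have hdisj : Disjoint P Q := by
    rw [Finset.disjoint_left]
    intro x hx hx'
    exact absurd (hPpos x hx) (not_lt.2 (hQneg x hx').le)
  have hcP : P.card = p := by
    rw [hP, Finset.card_image_of_injective _ hfinj, Finset.card_range]
  have hcQ : Q.card = q := by
    rw [hQ, Finset.card_image_of_injective _ hginj, Finset.card_range]
  refine ⟨P ∪ Q, P, ⟨?_, ?_⟩, Finset.subset_union_left, hcP, hPpos, ?_, ?_⟩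
  · rw [Finset.card_union_of_disjoint hdisj, hcP, hcQ]
  · rw [Finset.sum_union hdisj, hP, hQ, Finset.sum_image (fun _ _ _ _ h => hfinj h),
      Finset.sum_image (fun _ _ _ _ h => hginj h)]
    simp only [f, g]
    rw [Finset.sum_add_distrib, Finset.sum_add_distrib, ← Finset.mul_sum, ← Finset.mul_sum,
      sum_arith, sum_arith]
    simp
    ring
  · intro x hx hxP
    rcases Finset.mem_union.1 hx with h | h
    · exact absurd h hxP
    · exact hQneg x h
  · intro B hB
    have hsplit : ∑ b ∈ B, b = ∑ b ∈ B ∩ P, b + ∑ b ∈ B \ P, b := by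
      rw [← Finset.sum_inter_add_sum_sdiff B P (fun x => x)]
    have hBQ : ∀ x ∈ B \ P, x ∈ Q := by
      intro x hx
      rw [Finset.mem_sdiff] at hx
      rcases Finset.mem_union.1 (hB hx.1) with h | h
      · exact absurd h hx.2
      · exact h
    have e1 : |∑ b ∈ B ∩ P, b - (B ∩ P).card * (q : ℝ)| ≤ (B ∩ P).card * (η * n) := by
      have : ∑ b ∈ B ∩ P, b - (B ∩ P).card * (q : ℝ) = ∑ b ∈ B ∩ P, (b - q) := by
        rw [Finset.sum_sub_distrib]; simp
      rw [this]
      refine (Finset.abs_sum_le_sum_abs _ _).trans ?_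
      calc ∑ i ∈ B ∩ P, |i - (q : ℝ)| ≤ ∑ i ∈ B ∩ P, (η * n) :=
            Finset.sum_le_sum (fun i hi => hPest i (Finset.mem_inter.1 hi).2)
        _ = (B ∩ P).card * (η * n) := by simp
    have e2 : |∑ b ∈ B \ P, b + (B \ P).card * (p : ℝ)| ≤ (B \ P).card * (η * n) := by
      have : ∑ b ∈ B \ P, b + (B \ P).card * (p : ℝ) = ∑ b ∈ B \ P, (b + p) := by
        rw [Finset.sum_add_distrib]; simp
      rw [this]
      refine (Finset.abs_sum_le_sum_abs _ _).trans ?_
      calc ∑ i ∈ B \ P, |i + (p : ℝ)| ≤ ∑ i ∈ B \ P, (η * n) :=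
            Finset.sum_le_sum (fun i hi => hQest i (hBQ i hi))
        _ = (B \ P).card * (η * n) := by simp
    have hcard : ((B \ P).card : ℝ) = B.card - (B ∩ P).card := by
      have := Finset.card_inter_add_card_sdiff B P
      have h2 : ((B ∩ P).card : ℝ) + (B \ P).card = B.card := by exact_mod_cast this
      linarith
    have hBn : (B.card : ℝ) ≤ n := by
      have h1 : B.card ≤ (P ∪ Q).card := Finset.card_le_card hB
      rw [Finset.card_union_of_disjoint hdisj, hcP, hcQ] at h1
      rw [hnR]; exact_mod_cast h1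
    have herr : (B.card : ℝ) * (η * n) < 1 := by
      have : (B.card : ℝ) * (η * n) ≤ n * (η * n) := by
        apply mul_le_mul_of_nonneg_right hBn; positivity
      nlinarith
    have hmain : |∑ b ∈ B, b - ((B ∩ P).card * (n : ℝ) - B.card * p)| < 1 := by
      have h3 : ∑ b ∈ B, b - ((B ∩ P).card * (n : ℝ) - B.card * p)
          = (∑ b ∈ B ∩ P, b - (B ∩ P).card * (q : ℝ))
            + (∑ b ∈ B \ P, b + (B \ P).card * (p : ℝ)) := by
        rw [hsplit, hcard, hnR]; ring
      rw [h3]
      refine lt_of_le_of_lt (abs_add_le _ _) ?_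
      have : ((B ∩ P).card : ℝ) * (η * n) + (B \ P).card * (η * n) = B.card * (η * n) := by
        rw [hcard]; ring
      linarith
    rw [abs_lt] at hmain
    constructor
    · intro h
      have h' : (B.card : ℝ) * p + 1 ≤ (B ∩ P).card * n := by
        rw [hn]; exact_mod_cast h
      linarith
    · intro h
      have h' : ((B ∩ P).card : ℝ) * n + 1 ≤ B.card * p := by
        rw [hn]; exact_mod_cast h
      linarith

/-- a set with two positive elements in which every set of size at least two avoiding the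
largest one has negative sum -/
theorem litSet (n : ℕ) (hn : 3 ≤ n) :
    ∃ (A : Finset ℝ) (x y : ℝ), Admissible n A ∧ x ∈ A ∧ y ∈ A ∧ x ≠ y ∧ 0 < x ∧ 0 < y ∧
      ∀ B : Finset ℝ, B ⊆ A → x ∉ B → 2 ≤ B.card → ∑ b ∈ B, b < 0 := by
  classical
  let g : ℕ → ℝ := fun i => -((i : ℝ) + 2)
  have hginj : Function.Injective g := by
    intro i j hij
    have h3 : (i : ℝ) = j := by
      have : -((i : ℝ) + 2) = -((j : ℝ) + 2) := hij
      linarith
    exact_mod_cast h3
  set N : Finset ℝ := (Finset.range (n - 2)).image g with hN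
  have hNle : ∀ z ∈ N, z ≤ -2 := by
    intro z hz
    obtain ⟨i, _, rfl⟩ := Finset.mem_image.1 hz
    have hi0 : (0 : ℝ) ≤ i := Nat.cast_nonneg i
    simp only [g]; linarith
  have hcN : N.card = n - 2 := by
    rw [hN, Finset.card_image_of_injective _ hginj, Finset.card_range]
  have hNne : N.Nonempty := by
    rw [← Finset.card_pos, hcN]; omega
  have hsumle : ∀ M : Finset ℝ, M ⊆ N → M.Nonempty → ∑ b ∈ M, b ≤ -2 := by
    intro M hM hMne
    obtain ⟨z, hz⟩ := hMne
    rw [← Finset.add_sum_erase M (fun x => x) hz]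
    have h1 : ∑ b ∈ M.erase z, b ≤ 0 := by
      apply Finset.sum_nonpos
      intro b hb
      have := hNle b (hM (Finset.mem_of_mem_erase hb))
      linarith
    have h2 := hNle z (hM hz)
    linarith
  set x : ℝ := -(∑ b ∈ N, b) - 1 / 2 with hx
  have hxge : 3 / 2 ≤ x := by
    have := hsumle N (Finset.Subset.refl _) hNne
    rw [hx]; linarith
  have hyN : (1 / 2 : ℝ) ∉ N := fun h => by have := hNle _ h; linarith
  have hxN : x ∉ insert (1 / 2 : ℝ) N := by
    intro h
    rcases Finset.mem_insert.1 h with h | h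
    · rw [h] at hxge; linarith
    · have := hNle _ h; linarith
  refine ⟨insert x (insert (1 / 2) N), x, 1 / 2, ⟨?_, ?_⟩, Finset.mem_insert_self _ _,
    Finset.mem_insert_of_mem (Finset.mem_insert_self _ _), ?_, by linarith, by norm_num, ?_⟩
  · rw [Finset.card_insert_of_notMem hxN, Finset.card_insert_of_notMem hyN, hcN]; omega
  · rw [Finset.sum_insert hxN, Finset.sum_insert hyN, hx]; ring
  · intro h; rw [h] at hxge; linarith
  · intro B hB hxB hB2
    have hB' : B ⊆ insert (1 / 2) N := fun b hb => by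
      rcases Finset.mem_insert.1 (hB hb) with h | h
      · exact absurd (h ▸ hb) hxB
      · exact h
    have hM : (B.erase (1 / 2)) ⊆ N := fun b hb => by
      rw [Finset.mem_erase] at hb
      rcases Finset.mem_insert.1 (hB' hb.2) with h | h
      · exact absurd h hb.1
      · exact h
    have hMne : (B.erase (1 / 2)).Nonempty := by
      rw [← Finset.card_pos]
      have := Finset.pred_card_le_card_erase (s := B) (a := (1 / 2 : ℝ))
      omega
    have h1 := hsumle _ hM hMne
    by_cases hy : (1 / 2 : ℝ) ∈ B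
    · rw [← Finset.add_sum_erase B (fun x => x) hy]
      linarith
    · rw [Finset.erase_eq_of_notMem hy] at h1
      linarith

end Pool.Agent.Lib.MP1e901d
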