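import Pool.Agent.Lib.MP_1e901d_co.Star

/-! Averaging over all arrangements of an `m * k`-element set into `m` blocks of size `k`. -/

namespace Pool.Agent.Lib.MP1e901d

open Finset
open scoped Classical

variable {V : Type*} [Fintype V] {m k : ℕ}

/-- the `i`-th block of an arrangement -/
noncomputable def block (e : (Fin m × Fin k) ≃ V) (i : Fin m) : Finset V :=
  Finset.univ.image (fun j : Fin k => e (i, j))

theorem block_card (e : (Fin m × Fin k) ≃ V) (i : Fin m) : (block e i).card = k := by
  classical
  unfold block
  rw [Finset.card_image_of_injective, Finset.card_univ, Fintype.card_fin]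
  intro a b hab
  have := e.injective hab
  simpa using this

theorem block_part (e : (Fin m × Fin k) ≃ V) : IsPart k (block e) := by
  classical
  refine ⟨fun i j hij => ?_, block_card e⟩
  rw [Finset.disjoint_left]
  intro a ha ha'
  obtain ⟨x, _, rfl⟩ := Finset.mem_image.1 ha
  obtain ⟨y, _, hy⟩ := Finset.mem_image.1 ha'
  have := e.injective hy
  rw [Prod.mk.injEq] at this
  exact hij this.1.symm

theorem sum_block (e : (Fin m × Fin k) ≃ V) (i : Fin m) (w : V → ℝ) :
    ∑ b ∈ block e i, w b = ∑ j : Fin k, w (e (i, j)) := by
  classical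
  unfold block
  rw [Finset.sum_image]
  intro a _ b _ hab
  have := e.injective hab
  simpa using this

/-- every partition into blocks of size `k` comes from an arrangement -/
theorem exists_arr (hcard : Fintype.card V = m * k) (D : Fin m → Finset V)
    (hD : IsPart k D) : ∃ e : (Fin m × Fin k) ≃ V, block e = D := by
  classical
  let g : (i : Fin m) → D i ≃ Fin k := fun i => (D i).equivFinOfCardEq (hD.2 i)
  let f : Fin m × Fin k → V := fun p => ((g p.1).symm p.2 : V)
  have hf : Function.Injective f := by
    rintro ⟨i, x⟩ ⟨j, y⟩ h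
    have hi : f (i, x) ∈ D i := ((g i).symm x).2
    have hj : f (j, y) ∈ D j := ((g j).symm y).2
    have hij : i = j := by
      by_contra hne
      rw [h] at hi
      exact Finset.disjoint_left.1 (hD.1 i j hne) hi hj
    subst hij
    have h2 : (g i).symm x = (g i).symm y := Subtype.ext h
    rw [(g i).symm.injective h2]
  have hb : Function.Bijective f := by
    rw [Fintype.bijective_iff_injective_and_card]
    refine ⟨hf, ?_⟩
    rw [hcard]; simp
  refine ⟨Equiv.ofBijective f hb, ?_⟩
  funext i
  apply Finset.eq_of_subset_of_card_le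
  · intro v hv
    unfold block at hv
    obtain ⟨j, _, rfl⟩ := Finset.mem_image.1 hv
    exact ((g i).symm j).2
  · rw [block_card, hD.2]

/-- number of arrangements with given `i`-th block is independent of the block -/
theorem card_fiber_eq (i : Fin m) {B B' : Finset V}
    (hBB : B.card = B'.card) :
    (Finset.univ.filter (fun e : (Fin m × Fin k) ≃ V => block e i = B)).card
      = (Finset.univ.filter (fun e : (Fin m × Fin k) ≃ V => block e i = B')).card := by
  classical
  have hle : ∀ B B' : Finset V, B.card = B'.card →
      (Finset.univ.filter (fun e : (Fin m × Fin k) ≃ V => block e i = B)).card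
      ≤ (Finset.univ.filter (fun e : (Fin m × Fin k) ≃ V => block e i = B')).card := by
    intro B B' hBB
    have hs : Fintype.card {v // v ∈ B} = Fintype.card {v // v ∈ B'} := by
      simpa using hBB
    let π : Equiv.Perm V := Equiv.extendSubtype (Fintype.equivOfCardEq hs)
    have hπ : ∀ v ∈ B, π v ∈ B' := fun v hv =>
      Equiv.extendSubtype_mem (Fintype.equivOfCardEq hs) v hv
    apply Finset.card_le_card_of_injOn (fun e => e.trans π)
    · intro e he
      simp only [Finset.coe_filter, Finset.mem_univ, true_and, Set.mem_ofPred_eq] at he ⊢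
      apply Finset.eq_of_subset_of_card_le
      · intro v hv
        unfold block at hv
        obtain ⟨j, _, rfl⟩ := Finset.mem_image.1 hv
        apply hπ
        rw [← he]
        unfold block
        exact Finset.mem_image_of_mem _ (Finset.mem_univ j)
      · rw [block_card, ← hBB, ← he, block_card]
    · intro e _ e' _ hee
      have : e.trans π = e'.trans π := hee
      ext x
      have h2 := congrArg (fun f : (Fin m × Fin k) ≃ V => f x) this
      simpa using h2
  exact le_antisymm (hle _ _ hBB) (hle _ _ hBB.symm)

/-- the number of blocks in `G` -/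
noncomputable def cnt (G : Finset (Finset V)) (e : (Fin m × Fin k) ≃ V) : ℕ :=
  (Finset.univ.filter (fun i : Fin m => block e i ∈ G)).card

theorem sum_cnt (hcard : Fintype.card V = m * k) (G : Finset (Finset V))
    (hG : ∀ B ∈ G, B.card = k) :
    (∑ e : (Fin m × Fin k) ≃ V, cnt G e) * (m * k).choose k
      = m * Fintype.card ((Fin m × Fin k) ≃ V) * G.card := by
  classical
  have hi : ∀ i : Fin m,
      (Finset.univ.filter (fun e : (Fin m × Fin k) ≃ V => block e i ∈ G)).card * (m * k).choose k
        = Fintype.card ((Fin m × Fin k) ≃ V) * G.card := by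
    intro i
    let c : Finset V → ℕ := fun B =>
      (Finset.univ.filter (fun e : (Fin m × Fin k) ≃ V => block e i = B)).card
    have h1 : ∀ H : Finset (Finset V),
        (Finset.univ.filter (fun e : (Fin m × Fin k) ≃ V => block e i ∈ H)).card
          = ∑ B ∈ H, c B := by
      intro H
      have := Finset.card_eq_sum_card_fiberwise
        (s := Finset.univ.filter (fun e : (Fin m × Fin k) ≃ V => block e i ∈ H)) (t := H)
        (f := fun e => block e i)
        (by intro e he; simpa using he)
      rw [this]
      apply Finset.sum_congr rfl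
      intro B hB
      simp only [c]
      congr 1
      ext e
      simp only [Finset.mem_filter, Finset.mem_univ, true_and]
      constructor
      · exact fun h => h.2
      · intro h; exact ⟨h ▸ hB, h⟩
    have h2 : ∑ B ∈ (Finset.univ : Finset V).powersetCard k, c B
        = Fintype.card ((Fin m × Fin k) ≃ V) := by
      rw [← h1]
      have : (Finset.univ.filter (fun e : (Fin m × Fin k) ≃ V =>
          block e i ∈ (Finset.univ : Finset V).powersetCard k)) = Finset.univ := by
        ext e
        simp [Finset.mem_powersetCard, block_card]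
      rw [this, Finset.card_univ]
    have h3 : ∀ B ∈ G, c B * (m * k).choose k = Fintype.card ((Fin m × Fin k) ≃ V) := by
      intro B hB
      rw [← h2]
      have : ∑ B' ∈ (Finset.univ : Finset V).powersetCard k, c B'
          = ∑ B' ∈ (Finset.univ : Finset V).powersetCard k, c B := by
        apply Finset.sum_congr rfl
        intro B' hB'
        exact card_fiber_eq i (by rw [(Finset.mem_powersetCard.1 hB').2, hG B hB])
      rw [this, Finset.sum_const, Finset.card_powersetCard, Finset.card_univ, hcard, smul_eq_mul,
        mul_comm]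
    rw [h1, Finset.sum_mul, Finset.sum_congr rfl h3, Finset.sum_const, smul_eq_mul, mul_comm]
  have hswap : ∑ e : (Fin m × Fin k) ≃ V, cnt G e
      = ∑ i : Fin m,
        (Finset.univ.filter (fun e : (Fin m × Fin k) ≃ V => block e i ∈ G)).card := by
    simp only [cnt, Finset.card_filter]
    exact Finset.sum_comm
  rw [hswap, Finset.sum_mul, Finset.sum_congr rfl (fun i _ => hi i), Finset.sum_const,
    Finset.card_univ, Fintype.card_fin, smul_eq_mul]
  ring

theorem choose_mul_block (hm : 1 ≤ m) (hk : 1 ≤ k) :
    (m * k).choose k = m * (m * k - 1).choose (k - 1) := by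
  have hmk : 1 ≤ m * k := Nat.mul_pos hm hk
  obtain ⟨a, ha⟩ : ∃ a, m * k = a + 1 := ⟨m * k - 1, by omega⟩
  obtain ⟨b, hb⟩ : ∃ b, k = b + 1 := ⟨k - 1, by omega⟩
  have h := Nat.add_one_mul_choose_eq a b
  have h1 : (m * k).choose k * k = m * (m * k - 1).choose (k - 1) * k := by
    have e1 : m * k - 1 = a := by omega
    have e2 : k - 1 = b := by omega
    rw [e1, e2]
    have e3 : (m * k).choose k = (a + 1).choose (b + 1) := by rw [ha]; rw [← hb]
    rw [e3]
    calc (a + 1).choose (b + 1) * k = (a + 1).choose (b + 1) * (b + 1) := by rw [← hb]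
      _ = (a + 1) * a.choose b := h.symm
      _ = (m * k) * a.choose b := by rw [ha]
      _ = m * a.choose b * k := by ring
  exact Nat.eq_of_mul_eq_mul_right hk h1

/-- the averaging inequality : if `∑ cnt ≥ #E + t` and `#G ≤ C(n-1,k-1)` then `t = 0` and
`∑ cnt = #E`. -/
theorem avg (hcard : Fintype.card V = m * k) (hm : 1 ≤ m) (hk : 1 ≤ k)
    (G : Finset (Finset V)) (hG : ∀ B ∈ G, B.card = k)
    (hGc : G.card ≤ (m * k - 1).choose (k - 1)) :
    ∑ e : (Fin m × Fin k) ≃ V, cnt G e ≤ Fintype.card ((Fin m × Fin k) ≃ V) := by
  have h := sum_cnt hcard G hG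
  rw [choose_mul_block hm hk] at h
  have hpos : 0 < m * (m * k - 1).choose (k - 1) := by
    apply Nat.mul_pos hm
    apply Nat.choose_pos
    have : k ≤ m * k := Nat.le_mul_of_pos_left k hm
    omega
  have h2 : m * Fintype.card ((Fin m × Fin k) ≃ V) * G.card
      ≤ Fintype.card ((Fin m × Fin k) ≃ V) * (m * (m * k - 1).choose (k - 1)) := by
    calc m * Fintype.card ((Fin m × Fin k) ≃ V) * G.card
        ≤ m * Fintype.card ((Fin m × Fin k) ≃ V) * (m * k - 1).choose (k - 1) :=
          Nat.mul_le_mul_left _ hGc
      _ = _ := by ring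
  rw [← h] at h2
  exact Nat.le_of_mul_le_mul_right h2 hpos

/-- exactness from the counting -/
theorem exact_of_cnt (hcard : Fintype.card V = m * k) (G : Finset (Finset V))
    (h1 : ∀ e : (Fin m × Fin k) ≃ V, cnt G e = 1) :
    ∀ D : Fin m → Finset V, IsPart k D → ∃! i, D i ∈ G := by
  classical
  intro D hD
  obtain ⟨e, rfl⟩ := exists_arr hcard D hD
  have := h1 e
  unfold cnt at this
  obtain ⟨i, hi⟩ := Finset.card_eq_one.1 this
  have hmem : ∀ j, j ∈ Finset.univ.filter (fun i : Fin m => block e i ∈ G) ↔ j = i := by
    intro j; rw [hi]; simp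
  refine ⟨i, (Finset.mem_filter.1 ((hmem i).2 rfl)).2, fun j hj => ?_⟩
  exact (hmem j).1 (Finset.mem_filter.2 ⟨Finset.mem_univ _, hj⟩)

/-- the blocks of an arrangement carry the whole sum -/
theorem sum_blocks (e : (Fin m × Fin k) ≃ V) (w : V → ℝ) :
    ∑ i : Fin m, ∑ b ∈ block e i, w b = ∑ v, w v := by
  simp only [sum_block]
  rw [← Equiv.sum_comp e w, Fintype.sum_prod_type]

end Pool.Agent.Lib.MP1e901d
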