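import Pool.Agent.Lib.MP_1e901d_co.Constr

/-! Elementary lemmas for MP_1e901d_co. -/

namespace Pool.Agent.Lib.MP1e901d

open Finset
open scoped Classical

/-- exactly one non-negative element -/
def IsPencil (A : Finset ℝ) : Prop := (A.filter (fun a => 0 ≤ a)).card = 1

/-- exactly one negative element -/
def IsAntiPencil (A : Finset ℝ) : Prop := (A.filter (fun a => a < 0)).card = 1

theorem mu_one (A : Finset ℝ) : mu 1 A = (A.filter (fun a => 0 ≤ a)).card := by
  classical
  unfold mu nonnegSets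
  rw [Finset.powersetCard_one, Finset.filter_map, Finset.card_map]
  congr 1
  ext a
  simp

theorem mu_full {n : ℕ} {A : Finset ℝ} (h : Admissible n A) : mu n A = 1 := by
  classical
  unfold mu nonnegSets
  rw [← h.1, Finset.powersetCard_self]
  have : ({A} : Finset (Finset ℝ)).filter (fun B => 0 ≤ ∑ b ∈ B, b) = {A} := by
    rw [Finset.filter_singleton, if_pos (by rw [h.2])]
  rw [this, Finset.card_singleton]

theorem mu_le_star {n k : ℕ} (hk : 1 ≤ k) {A : Finset ℝ} (h : Admissible n A) {x : ℝ}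
    (hx : x ∈ A) (hs : ∀ B ⊆ A, B.card = k → x ∉ B → ∑ b ∈ B, b < 0) :
    mu k A ≤ (n - 1).choose (k - 1) := by
  classical
  rw [← h.1, ← card_star hx hk]
  unfold mu nonnegSets
  apply Finset.card_le_card
  intro B hB
  simp only [Finset.mem_filter, Finset.mem_powersetCard] at hB ⊢
  refine ⟨hB.1, ?_⟩
  by_contra hxB
  exact absurd hB.2 (not_le.2 (hs B hB.1.1 hB.1.2 hxB))

theorem star_le_mu {n k : ℕ} (hk : 1 ≤ k) {A : Finset ℝ} (h : Admissible n A) {x : ℝ}
    (hx : x ∈ A) (hs : ∀ B ⊆ A, B.card = k → x ∈ B → 0 ≤ ∑ b ∈ B, b) :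
    (n - 1).choose (k - 1) ≤ mu k A := by
  classical
  rw [← h.1, ← card_star hx hk]
  unfold mu nonnegSets
  apply Finset.card_le_card
  intro B hB
  simp only [Finset.mem_filter, Finset.mem_powersetCard] at hB ⊢
  exact ⟨hB.1, hs B hB.1.1 hB.1.2 hB.2⟩

theorem costar_le_mu {n k : ℕ} {A : Finset ℝ} (h : Admissible n A) {x : ℝ}
    (hx : x ∈ A) (hs : ∀ B ⊆ A, B.card = k → x ∉ B → 0 ≤ ∑ b ∈ B, b) :
    (n - 1).choose k ≤ mu k A := by
  classical
  rw [← h.1, ← card_costar hx k]
  unfold mu nonnegSets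
  apply Finset.card_le_card
  intro B hB
  simp only [Finset.mem_filter, Finset.mem_powersetCard] at hB ⊢
  exact ⟨hB.1, hs B hB.1.1 hB.1.2 hB.2⟩

theorem mu_le_costar {n k : ℕ} {A : Finset ℝ} (h : Admissible n A) {x : ℝ}
    (hx : x ∈ A) (hs : ∀ B ⊆ A, B.card = k → x ∈ B → ∑ b ∈ B, b < 0) :
    mu k A ≤ (n - 1).choose k := by
  classical
  rw [← h.1, ← card_costar hx k]
  unfold mu nonnegSets
  apply Finset.card_le_card
  intro B hB
  simp only [Finset.mem_filter, Finset.mem_powersetCard] at hB ⊢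
  refine ⟨hB.1, ?_⟩
  intro hxB
  exact absurd hB.2 (not_le.2 (hs B hB.1.1 hB.1.2 hxB))

/-- the unique non-negative element of a pencil -/
theorem pencil_elt {A : Finset ℝ} (h : IsPencil A) :
    ∃ x ∈ A, 0 ≤ x ∧ ∀ a ∈ A, a ≠ x → a < 0 := by
  obtain ⟨x, hx⟩ := Finset.card_eq_one.1 h
  have hmem : ∀ a, a ∈ A.filter (fun a => 0 ≤ a) ↔ a = x := by
    intro a; rw [hx]; simp
  have hx' := (Finset.mem_filter.1 ((hmem x).2 rfl))
  refine ⟨x, hx'.1, hx'.2, fun a ha hax => ?_⟩
  by_contra hcon
  exact hax ((hmem a).1 (Finset.mem_filter.2 ⟨ha, not_lt.1 hcon⟩))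

theorem antipencil_elt {A : Finset ℝ} (h : IsAntiPencil A) :
    ∃ x ∈ A, x < 0 ∧ ∀ a ∈ A, a ≠ x → 0 ≤ a := by
  obtain ⟨x, hx⟩ := Finset.card_eq_one.1 h
  have hmem : ∀ a, a ∈ A.filter (fun a => a < 0) ↔ a = x := by
    intro a; rw [hx]; simp
  have hx' := (Finset.mem_filter.1 ((hmem x).2 rfl))
  refine ⟨x, hx'.1, hx'.2, fun a ha hax => ?_⟩
  by_contra hcon
  exact hax ((hmem a).1 (Finset.mem_filter.2 ⟨ha, not_le.1 hcon⟩))

theorem exists_admissible {n : ℕ} (hn : 1 ≤ n) : ∃ A, Admissible n A := by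
  rcases Nat.lt_or_ge n 2 with h | h
  · have : n = 1 := by omega
    subst this
    exact ⟨{0}, by simp, by simp⟩
  · obtain ⟨A, _, hA, _⟩ := twoLevel 1 (n - 1) le_rfl (by omega)
    have : 1 + (n - 1) = n := by omega
    rw [this] at hA
    exact ⟨A, hA⟩

/-- an admissible set of two elements -/
theorem card_two {A : Finset ℝ} (h : Admissible 2 A) :
    ∃ a : ℝ, 0 < a ∧ A = {a, -a} := by
  obtain ⟨x, y, hxy, rfl⟩ := Finset.card_eq_two.1 h.1
  have hs := h.2
  rw [Finset.sum_pair hxy] at hs
  have hy : y = -x := by linarith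
  subst hy
  rcases lt_trichotomy x 0 with hx | hx | hx
  · refine ⟨-x, by linarith, ?_⟩
    rw [neg_neg, Finset.pair_comm]
  · subst hx; simp at hxy
  · exact ⟨x, hx, rfl⟩

theorem two_pencil {A : Finset ℝ} (h : Admissible 2 A) : IsPencil A ∧ IsAntiPencil A := by
  obtain ⟨a, ha, rfl⟩ := card_two h
  constructor
  · unfold IsPencil
    have : ({a, -a} : Finset ℝ).filter (fun b => 0 ≤ b) = {a} := by
      ext b
      simp only [Finset.mem_filter, Finset.mem_insert, Finset.mem_singleton]
      constructor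
      · rintro ⟨rfl | rfl, hb⟩
        · rfl
        · linarith
      · rintro rfl; exact ⟨Or.inl rfl, ha.le⟩
    rw [this, Finset.card_singleton]
  · unfold IsAntiPencil
    have : ({a, -a} : Finset ℝ).filter (fun b => b < 0) = {-a} := by
      ext b
      simp only [Finset.mem_filter, Finset.mem_insert, Finset.mem_singleton]
      constructor
      · rintro ⟨rfl | rfl, hb⟩
        · linarith
        · rfl
      · rintro rfl; exact ⟨Or.inr rfl, by linarith⟩
    rw [this, Finset.card_singleton]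

theorem one_eq {A : Finset ℝ} (h : Admissible 1 A) : A = {0} := by
  obtain ⟨x, rfl⟩ := Finset.card_eq_one.1 h.1
  have := h.2
  rw [Finset.sum_singleton] at this
  rw [this]

/-- some element of an admissible nonempty set is non-negative -/
theorem exists_nonneg {n : ℕ} (hn : 1 ≤ n) {A : Finset ℝ} (h : Admissible n A) :
    ∃ a ∈ A, 0 ≤ a := by
  by_contra hcon
  push Not at hcon
  have hne : A.Nonempty := by rw [← Finset.card_pos, h.1]; omega
  have := Finset.sum_neg hcon hne
  rw [h.2] at this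
  exact lt_irrefl _ this

theorem exists_neg {n : ℕ} (hn : 2 ≤ n) {A : Finset ℝ} (h : Admissible n A) :
    ∃ a ∈ A, a < 0 := by
  by_contra hcon
  push Not at hcon
  have h0 := (Finset.sum_eq_zero_iff_of_nonneg hcon).1 h.2
  have : A ⊆ {0} := fun a ha => Finset.mem_singleton.2 (h0 a ha)
  have := Finset.card_le_card this
  rw [h.1, Finset.card_singleton] at this
  omega

theorem neg_admissible {n : ℕ} {A : Finset ℝ} (h : Admissible n A) :
    Admissible n (A.image (fun x => -x)) := by
  refine ⟨?_, ?_⟩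
  · rw [Finset.card_image_of_injective _ neg_injective, h.1]
  · rw [Finset.sum_image (fun _ _ _ _ h => neg_injective h), Finset.sum_neg_distrib, h.2, neg_zero]

/-- the number of non-negative `(n-1)`-subset sums of a set with exactly one negative
element is at most two -/
theorem mu_pred_le_two {n : ℕ} (hn : 2 ≤ n) {A : Finset ℝ} (h : Admissible n A)
    (hp : IsAntiPencil A) : mu (n - 1) A ≤ 2 := by
  classical
  obtain ⟨x, hx, hx0, hxu⟩ := antipencil_elt hp
  have hsub : nonnegSets (n - 1) A ⊆ ({x, 0} : Finset ℝ).image (fun a => A.erase a) := by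
    intro B hB
    unfold nonnegSets at hB
    rw [Finset.mem_filter, Finset.mem_powersetCard] at hB
    obtain ⟨⟨hBA, hBc⟩, hs⟩ := hB
    have hc : (A \ B).card = 1 := by
      rw [Finset.card_sdiff_of_subset hBA, h.1, hBc]; omega
    obtain ⟨a, ha⟩ := Finset.card_eq_one.1 hc
    rw [sum_compl h.2 hBA, ha, Finset.sum_singleton] at hs
    have haA : a ∈ A := by
      have : a ∈ A \ B := by rw [ha]; exact Finset.mem_singleton_self a
      exact (Finset.mem_sdiff.1 this).1
    rw [Finset.mem_image]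
    refine ⟨a, ?_, ?_⟩
    · by_cases hax : a = x
      · simp [hax]
      · have := hxu a haA hax
        have ha0 : a = 0 := by linarith
        simp [ha0]
    · rw [← Finset.sdiff_singleton_eq_erase, ← ha]
      exact Finset.sdiff_sdiff_eq_self hBA
  unfold mu
  refine (Finset.card_le_card hsub).trans (Finset.card_image_le.trans Finset.card_le_two)

/-- the number of non-negative `(n-1)`-subset sums is at least the number of
negative elements -/
theorem neg_le_mu_pred {n : ℕ} {A : Finset ℝ} (h : Admissible n A) :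
    (A.filter (fun a => a < 0)).card ≤ mu (n - 1) A := by
  classical
  have hinj : Set.InjOn (fun a => A.erase a) (A.filter (fun a => a < 0) : Finset ℝ) := by
    intro a ha b hb hab
    simp only [Finset.coe_filter, Set.mem_ofPred_eq] at ha hb
    exact (Finset.erase_inj A ha.1).1 hab
  rw [← Finset.card_image_of_injOn hinj]
  unfold mu
  apply Finset.card_le_card
  intro B hB
  obtain ⟨a, ha, rfl⟩ := Finset.mem_image.1 hB
  rw [Finset.mem_filter] at ha
  unfold nonnegSets
  rw [Finset.mem_filter, Finset.mem_powersetCard]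
  refine ⟨⟨Finset.erase_subset _ _, ?_⟩, ?_⟩
  · rw [Finset.card_erase_of_mem ha.1, h.1]
  · have := Finset.add_sum_erase A (fun x => x) ha.1
    rw [h.2] at this
    linarith [ha.2]

end Pool.Agent.Lib.MP1e901d
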