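import Pool.Agent.Lib.MP_1e901d_co.Large

/-! MP_1e901d_co : the step from `n` to `n + k`, by double counting of disjoint pairs. -/

namespace Pool.Agent.Lib.MP1e901d

open Finset
open scoped Classical

/-- double counting of disjoint pairs -/
theorem double_count {α : Type*} [DecidableEq α] (U : Finset α) {k n : ℕ} (hk : 1 ≤ k)
    (hkn : k ≤ n) (hU : U.card = n + k) (F : Finset (Finset α)) (hF : F ⊆ U.powersetCard k)
    (h : ∀ B ∈ U.powersetCard k, B ∉ F →
      (n - 1).choose (k - 1) ≤ (F.filter (fun C => C ⊆ U \ B)).card) :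
    (n + k - 1).choose (k - 1) ≤ F.card ∧
    (F.card = (n + k - 1).choose (k - 1) →
      (∀ B ∈ U.powersetCard k, B ∉ F →
        (F.filter (fun C => C ⊆ U \ B)).card = (n - 1).choose (k - 1)) ∧
      (∀ C ∈ F, ∀ B ∈ U.powersetCard k, Disjoint B C → B ∉ F)) := by
  classical
  set c := (n - 1).choose (k - 1) with hc
  set G := (U.powersetCard k) \ F with hG
  have hcpos : 0 < c := Nat.choose_pos (by omega)
  have hGc : G.card + F.card = (n + k).choose k := by
    rw [hG, Finset.card_sdiff_add_card_eq_card hF, Finset.card_powersetCard, hU]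
  have hFk : ∀ C ∈ F, C.card = k ∧ C ⊆ U := fun C hC =>
    ⟨(Finset.mem_powersetCard.1 (hF hC)).2, (Finset.mem_powersetCard.1 (hF hC)).1⟩
  -- the two sums
  have hswap : ∑ B ∈ G, (F.filter (fun C => C ⊆ U \ B)).card
      = ∑ C ∈ F, (G.filter (fun B => C ⊆ U \ B)).card := by
    simp only [Finset.card_filter]
    exact Finset.sum_comm
  have hsub : ∀ C ∈ F, G.filter (fun B => C ⊆ U \ B) ⊆ (U \ C).powersetCard k := by
    intro C hC B hB
    rw [Finset.mem_filter, hG, Finset.mem_sdiff, Finset.mem_powersetCard] at hB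
    rw [Finset.mem_powersetCard]
    refine ⟨fun b hb => ?_, hB.1.1.2⟩
    rw [Finset.mem_sdiff]
    exact ⟨hB.1.1.1 hb, fun hbC => (Finset.mem_sdiff.1 (hB.2 hbC)).2 hb⟩
  have hcardC : ∀ C ∈ F, ((U \ C).powersetCard k).card = n.choose k := by
    intro C hC
    rw [Finset.card_powersetCard, Finset.card_sdiff_of_subset (hFk C hC).2, hU, (hFk C hC).1]
    congr 1; omega
  have hle2 : ∀ C ∈ F, (G.filter (fun B => C ⊆ U \ B)).card ≤ n.choose k := by
    intro C hC
    rw [← hcardC C hC]
    exact Finset.card_le_card (hsub C hC)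
  have hle1 : ∀ B ∈ G, c ≤ (F.filter (fun C => C ⊆ U \ B)).card := by
    intro B hB
    rw [hG, Finset.mem_sdiff] at hB
    exact h B hB.1 hB.2
  have hlow : G.card * c ≤ ∑ B ∈ G, (F.filter (fun C => C ⊆ U \ B)).card := by
    have := Finset.card_nsmul_le_sum G _ c hle1
    simpa using this
  have hup : ∑ C ∈ F, (G.filter (fun B => C ⊆ U \ B)).card ≤ F.card * n.choose k := by
    have := Finset.sum_le_card_nsmul F _ (n.choose k) hle2
    simpa using this
  -- identities
  have id1 : n.choose k * k = n * c := by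
    obtain ⟨a, rfl⟩ : ∃ a, n = a + 1 := ⟨n - 1, by omega⟩
    obtain ⟨b, rfl⟩ : ∃ b, k = b + 1 := ⟨k - 1, by omega⟩
    rw [hc]
    have := Nat.add_one_mul_choose_eq a b
    simpa using this.symm
  have id2 : (n + k).choose k * k = (n + k) * (n + k - 1).choose (k - 1) := by
    obtain ⟨a, ha⟩ : ∃ a, n + k = a + 1 := ⟨n + k - 1, by omega⟩
    obtain ⟨b, rfl⟩ : ∃ b, k = b + 1 := ⟨k - 1, by omega⟩
    rw [ha]
    have := Nat.add_one_mul_choose_eq a b
    simpa using this.symm
  have key : G.card * c ≤ F.card * n.choose k := by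
    refine hlow.trans ?_
    rw [hswap]; exact hup
  have hmain : (n + k) * (n + k - 1).choose (k - 1) ≤ (n + k) * F.card := by
    have h1 : (G.card * k) * c ≤ (F.card * n) * c := by
      calc (G.card * k) * c = (G.card * c) * k := by ring
        _ ≤ (F.card * n.choose k) * k := Nat.mul_le_mul_right k key
        _ = F.card * (n.choose k * k) := by ring
        _ = (F.card * n) * c := by rw [id1]; ring
    have h2 : G.card * k ≤ F.card * n := Nat.le_of_mul_le_mul_right h1 hcpos
    calc (n + k) * (n + k - 1).choose (k - 1) = (n + k).choose k * k := id2.symm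
      _ = (G.card + F.card) * k := by rw [hGc]
      _ = G.card * k + F.card * k := by ring
      _ ≤ F.card * n + F.card * k := by omega
      _ = (n + k) * F.card := by ring
  refine ⟨Nat.le_of_mul_le_mul_left hmain (by omega), fun heq => ?_⟩
  -- equality
  have heq2 : F.card * n.choose k ≤ G.card * c := by
    have h3 : G.card * k = F.card * n := by
      have : (G.card + F.card) * k = (n + k) * F.card := by
        rw [hGc, id2, heq]
      have h4 : G.card * k + F.card * k = F.card * n + F.card * k := by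
        calc G.card * k + F.card * k = (G.card + F.card) * k := by ring
          _ = (n + k) * F.card := this
          _ = F.card * n + F.card * k := by ring
      omega
    have h5 : (F.card * n.choose k) * k = (G.card * c) * k := by
      calc (F.card * n.choose k) * k = F.card * (n.choose k * k) := by ring
        _ = (F.card * n) * c := by rw [id1]; ring
        _ = (G.card * k) * c := by rw [h3]
        _ = (G.card * c) * k := by ring
    exact (Nat.eq_of_mul_eq_mul_right hk h5).le
  have hsum1 : ∑ B ∈ G, (F.filter (fun C => C ⊆ U \ B)).card = ∑ B ∈ G, c := by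
    rw [Finset.sum_const, smul_eq_mul]
    apply le_antisymm _ hlow
    rw [hswap]
    exact hup.trans heq2
  have hsum2 : ∑ C ∈ F, (G.filter (fun B => C ⊆ U \ B)).card = ∑ C ∈ F, n.choose k := by
    rw [Finset.sum_const, smul_eq_mul]
    apply le_antisymm hup
    rw [← hswap]
    exact heq2.trans hlow
  constructor
  · intro B hB hBF
    have hBG : B ∈ G := by rw [hG, Finset.mem_sdiff]; exact ⟨hB, hBF⟩
    exact ((Finset.sum_eq_sum_iff_of_le hle1).1 hsum1.symm B hBG).symm
  · intro C hC B hB hd hBF
    have h1 := (Finset.sum_eq_sum_iff_of_le hle2).1 hsum2 C hC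
    rw [← hcardC C hC] at h1
    have h2 := Finset.eq_of_subset_of_card_le (hsub C hC) h1.ge
    have hBm : B ∈ (U \ C).powersetCard k := by
      rw [Finset.mem_powersetCard] at hB ⊢
      refine ⟨fun b hb => ?_, hB.2⟩
      rw [Finset.mem_sdiff]
      exact ⟨hB.1 hb, fun hbC => Finset.disjoint_left.1 hd hb hbC⟩
    rw [← h2, Finset.mem_filter, hG, Finset.mem_sdiff] at hBm
    exact hBm.1.2 hBF

/-- the number of `k`-subsets of `A` whose sum satisfies `R` -/
noncomputable def cntR (R : ℝ → Prop) (k : ℕ) (A : Finset ℝ) : ℕ :=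
  ((A.powersetCard k).filter (fun B => R (∑ b ∈ B, b))).card

/-- every set of `n` distinct reals with sum zero has at least `C(n-1,k-1)` subsets of size `k`
whose sum satisfies `R`, and in the case of equality these are the ones through a fixed element -/
def StarMin (R : ℝ → Prop) (k n : ℕ) : Prop :=
  ∀ A, Admissible n A → (n - 1).choose (k - 1) ≤ cntR R k A ∧
    (cntR R k A = (n - 1).choose (k - 1) →
      ∃ x ∈ A, ∀ B : Finset ℝ, B ⊆ A → B.card = k → (R (∑ b ∈ B, b) ↔ x ∈ B))

/-- the shifted set -/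
noncomputable def shift (t : ℝ) (A : Finset ℝ) : Finset ℝ :=
  A.map ⟨fun x => x + t, add_left_injective t⟩

theorem card_shift (t : ℝ) (A : Finset ℝ) : (shift t A).card = A.card := by
  simp [shift]

theorem sum_shift (t : ℝ) (A : Finset ℝ) :
    ∑ a ∈ shift t A, a = ∑ a ∈ A, a + A.card * t := by
  simp [shift, Finset.sum_add_distrib]

theorem shift_subset {t : ℝ} {A B : Finset ℝ} : shift t B ⊆ shift t A ↔ B ⊆ A := by
  unfold shift
  exact Finset.map_subset_map

theorem shift_injective (t : ℝ) : Function.Injective (shift t) := by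
  unfold shift
  exact Finset.map_injective _

theorem exists_shift {t : ℝ} {A C : Finset ℝ} (h : C ⊆ shift t A) :
    ∃ B, B ⊆ A ∧ shift t B = C := by
  unfold shift at h ⊢
  obtain ⟨B, hB, hBC⟩ := Finset.subset_map_iff.1 h
  exact ⟨B, hB, hBC.symm⟩

theorem mem_shift {t x : ℝ} {A : Finset ℝ} : x + t ∈ shift t A ↔ x ∈ A := by
  unfold shift
  simp

/-- the step -/
theorem step {R : ℝ → Prop} (hR : ∀ b t q : ℝ, ¬ R b → R t → 0 ≤ q → R (t - q * b))
    {k n : ℕ} (hk : 1 ≤ k) (hkn : 2 * k ≤ n) (h : StarMin R k n) : StarMin R k (n + k) := by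
  classical
  intro A hA
  set F := (A.powersetCard k).filter (fun B => R (∑ b ∈ B, b)) with hF
  have hFsub : F ⊆ A.powersetCard k := Finset.filter_subset _ _
  have hn0 : (0 : ℝ) < n := by
    have : 0 < n := by omega
    exact_mod_cast this
  -- the shifted complements
  have hshift : ∀ B ∈ A.powersetCard k, B ∉ F →
      Admissible n (shift ((∑ b ∈ B, b) / n) (A \ B)) ∧
      ∀ C ⊆ A \ B, C.card = k → R (∑ c ∈ shift ((∑ b ∈ B, b) / n) C, c) → C ∈ F := by
    intro B hB hBF
    rw [Finset.mem_powersetCard] at hB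
    have hRB : ¬ R (∑ b ∈ B, b) := fun hr => hBF (by
      rw [hF, Finset.mem_filter, Finset.mem_powersetCard]; exact ⟨hB, hr⟩)
    have hcard : (A \ B).card = n := by
      rw [Finset.card_sdiff_of_subset hB.1, hA.1, hB.2]; omega
    have hsum : ∑ b ∈ A \ B, b = - ∑ b ∈ B, b := by
      have := Finset.sum_sdiff (f := fun x : ℝ => x) hB.1
      have h2 := hA.2
      linarith
    refine ⟨⟨by rw [card_shift, hcard], ?_⟩, ?_⟩
    · rw [sum_shift, hsum, hcard]
      field_simp
      ring
    · intro C hC hCk hRC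
      rw [sum_shift, hCk] at hRC
      rw [hF, Finset.mem_filter, Finset.mem_powersetCard]
      refine ⟨⟨hC.trans Finset.sdiff_subset, hCk⟩, ?_⟩
      have := hR (∑ b ∈ B, b) _ ((k : ℝ) / n) hRB hRC (by positivity)
      have he : ∑ c ∈ C, c + (k : ℝ) * ((∑ b ∈ B, b) / n) - (k : ℝ) / n * (∑ b ∈ B, b)
          = ∑ c ∈ C, c := by ring
      rwa [he] at this
  -- the image of the good family of the shifted complement
  have himg : ∀ B ∈ A.powersetCard k, B ∉ F →
      ((shift ((∑ b ∈ B, b) / n) (A \ B)).powersetCard k).filter (fun C => R (∑ c ∈ C, c)) ⊆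
        (F.filter (fun C => C ⊆ A \ B)).image (shift ((∑ b ∈ B, b) / n)) := by
    intro B hB hBF C hC
    rw [Finset.mem_filter, Finset.mem_powersetCard] at hC
    obtain ⟨D, hD, rfl⟩ := exists_shift hC.1.1
    have hDk : D.card = k := by rw [← hC.1.2, card_shift]
    rw [Finset.mem_image]
    exact ⟨D, Finset.mem_filter.2 ⟨(hshift B hB hBF).2 D hD hDk hC.2, hD⟩, rfl⟩
  have hlow : ∀ B ∈ A.powersetCard k, B ∉ F →
      (n - 1).choose (k - 1) ≤ (F.filter (fun C => C ⊆ A \ B)).card := by
    intro B hB hBF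
    refine ((h _ (hshift B hB hBF).1).1).trans ?_
    unfold cntR
    refine (Finset.card_le_card (himg B hB hBF)).trans ?_
    exact Finset.card_image_le
  obtain ⟨h1, h2⟩ := double_count A hk (by omega : k ≤ n) hA.1 F hFsub hlow
  refine ⟨h1, fun heq => ?_⟩
  obtain ⟨h3, h4⟩ := h2 heq
  -- a member outside `F`
  have hex : ∃ B ∈ A.powersetCard k, B ∉ F := by
    by_contra hcon
    push Not at hcon
    have hFe : F = A.powersetCard k := Finset.Subset.antisymm hFsub hcon
    have h5 : F.card = (n + k).choose k := by rw [hFe, Finset.card_powersetCard, hA.1]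
    have h6 : F.card = (n + k - 1).choose (k - 1) := heq
    have h7 := pascal (n := n + k) (k := k) (by omega) hk
    have h8 : 0 < (n + k - 1).choose k := Nat.choose_pos (by omega)
    omega
  obtain ⟨B, hB, hBF⟩ := hex
  have hBk := Finset.mem_powersetCard.1 hB
  -- the star inside the complement of `B`
  have h5 := (h3 B hB hBF)
  set t := (∑ b ∈ B, b) / n with ht
  have hcnt : cntR R k (shift t (A \ B)) = (n - 1).choose (k - 1) := by
    apply le_antisymm _ (h _ (hshift B hB hBF).1).1
    rw [← h5]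
    unfold cntR
    exact (Finset.card_le_card (himg B hB hBF)).trans Finset.card_image_le
  obtain ⟨x', hx', hstar⟩ := (h _ (hshift B hB hBF).1).2 hcnt
  obtain ⟨x, rfl⟩ : ∃ x, x + t = x' := ⟨x' - t, by ring⟩
  have hx : x ∈ A \ B := mem_shift.1 hx'
  have hin : ∀ D ⊆ A \ B, D.card = k → x ∈ D → D ∈ F := by
    intro D hD hDk hxD
    apply (hshift B hB hBF).2 D hD hDk
    exact (hstar (shift t D) (shift_subset.2 hD) (by rw [card_shift, hDk])).2 (mem_shift.2 hxD)
  have hxA : x ∈ A := (Finset.mem_sdiff.1 hx).1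
  have hFx : ∀ C ∈ F, x ∈ C := by
    intro C hC
    by_contra hxC
    have hCk := Finset.mem_powersetCard.1 (hFsub hC)
    -- a `k`-subset through `x` of the complement of `B ∪ C`
    have hcard : k - 1 ≤ (((A \ B) \ C).erase x).card := by
      have e1 : x ∈ (A \ B) \ C := Finset.mem_sdiff.2 ⟨hx, hxC⟩
      rw [Finset.card_erase_of_mem e1]
      have e2 : (A \ B).card = n := by
        rw [Finset.card_sdiff_of_subset hBk.1, hA.1, hBk.2]; omega
      have e3 : (A \ B).card - C.card ≤ ((A \ B) \ C).card := Finset.le_card_sdiff C (A \ B)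
      rw [e2, hCk.2] at e3
      omega
    obtain ⟨D, hD, hDk⟩ := Finset.exists_subset_card_eq hcard
    have hxD : x ∉ D := fun hh => by
      have := hD hh
      simp at this
    have hD' : ∀ d ∈ insert x D, d ∈ (A \ B) \ C := by
      intro d hd
      rcases Finset.mem_insert.1 hd with rfl | hd
      · exact Finset.mem_sdiff.2 ⟨hx, hxC⟩
      · exact Finset.mem_of_mem_erase (hD hd)
    have hDF : insert x D ∈ F := by
      apply hin _ _ _ (Finset.mem_insert_self _ _)
      · intro d hd; exact (Finset.mem_sdiff.1 (hD' d hd)).1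
      · rw [Finset.card_insert_of_notMem hxD, hDk]; omega
    refine h4 C hC _ (hFsub hDF) ?_ hDF
    rw [Finset.disjoint_left]
    intro d hd hdC
    exact (Finset.mem_sdiff.1 (hD' d hd)).2 hdC
  have hFeq : F = (A.powersetCard k).filter (fun C => x ∈ C) := by
    apply Finset.eq_of_subset_of_card_le
    · intro C hC
      exact Finset.mem_filter.2 ⟨hFsub hC, hFx C hC⟩
    · rw [card_star hxA hk, hA.1]
      exact (show F.card = (n + k - 1).choose (k - 1) from heq).ge
  refine ⟨x, hxA, fun C hC hCk => ?_⟩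
  have hiff : C ∈ F ↔ C ∈ (A.powersetCard k).filter (fun C => x ∈ C) := by rw [hFeq]
  rw [hF, Finset.mem_filter, Finset.mem_filter, Finset.mem_powersetCard] at hiff
  constructor
  · intro hr; exact (hiff.1 ⟨⟨hC, hCk⟩, hr⟩).2
  · intro hxC; exact (hiff.2 ⟨⟨hC, hCk⟩, hxC⟩).2

end Pool.Agent.Lib.MP1e901d
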