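import Pool.Agent.Lib.MP_1e901d_co.Cert

/-! MP_1e901d_co : certificates. -/

namespace Pool.Agent.Lib.MP1e901d

/-- certificate for `k = 4`, `n = 14` -/
def cert4_14 : Cert :=
  .split [2, 5, 9, 11] (.cnt) (.split [1, 5, 8, 13] (.cnt) (.split [3, 5, 7, 12] (.cnt) (.split
  [1, 5, 9, 12] (.cnt) (.split [2, 4, 9, 12] (.cnt) (.split [2, 6, 8, 11] (.cnt) (.split [3, 7,
  9, 10] (.cnt) (.split [1, 4, 9, 13] (.cnt) (.split [2, 3, 10, 13] (.cnt) (.split [2, 4, 8, 13]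
  (.cnt) (.split [2, 5, 7, 13] (.cnt) (.split [3, 5, 8, 11] (.cnt) (.split [4, 6, 7, 11] (.cnt)
  (.split [4, 6, 9, 10] (.cnt) (.split [5, 7, 8, 10] (.cnt) (.split [1, 7, 8, 12] (.cnt) (.split
  [2, 5, 8, 12] (.cnt) (.split [2, 6, 7, 12] (.cnt) (.split [3, 4, 7, 13] (.cnt) (.split [3, 4,
  8, 12] (.cnt) (.split [0, 3, 7, 12] (.split [3, 6, 8, 10] (.cnt) (.split [1, 7, 10, 11] (.cnt)
  (.split [2, 7, 9, 10] (.cnt) (.split [3, 4, 9, 11] (.cnt) (.split [3, 5, 6, 13] (.cnt) (.split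
  [2, 5, 8, 11] (.cnt) (.split [3, 6, 7, 11] (.cnt) (.split [4, 5, 9, 10] (.cnt) (.split [0, 5,
  7, 11] (.split [1, 3, 12, 13] (.cnt) (.split [2, 3, 9, 13] (.cnt) (.split [2, 4, 7, 13] (.cnt)
  (.split [2, 4, 8, 12] (.cnt) (.split [2, 4, 10, 11] (.cnt) (.split [3, 5, 9, 10] (.cnt)
  (.split [1, 3, 6, 8] (.split [0, 8, 11, 13] (.cnt) (.split [0, 7, 12, 13] (.cnt) (.split [0,
  1, 9, 13] (.split [1, 7, 9, 11] (.cnt) (.split [3, 5, 7, 11] (.cnt) (.split [3, 5, 8, 10]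
  (.cnt) (.split [1, 4, 11, 12] (.cnt) (.split [1, 6, 8, 12] (.cnt) (.split [1, 6, 10, 11]
  (.cnt) (.split [2, 4, 9, 11] (.cnt) (.split [2, 5, 7, 12] (.cnt) (.split [2, 6, 9, 10] (.cnt)
  (.split [2, 7, 8, 10] (.cnt) (.split [3, 4, 7, 12] (.cnt) (.split [3, 4, 8, 11] (.cnt) (.split
  [5, 6, 7, 10] (.cnt) (.split [0, 2, 9, 13] (.split [4, 7, 8, 9] (.cnt) (.split [3, 5, 6, 12]
  (.cnt) (.split [3, 6, 7, 10] (.cnt) (.split [1, 4, 10, 12] (.cnt) (.split [1, 6, 7, 13] (.cnt)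
  (.split [1, 6, 9, 11] (.cnt) (.split [2, 3, 11, 12] (.cnt) (.split [2, 5, 6, 13] (.cnt)
  (.split [2, 5, 9, 10] (.cnt) (.split [2, 6, 7, 11] (.cnt) (.split [2, 6, 8, 10] (.cnt) (.split
  [3, 4, 6, 13] (.cnt) (.split [1, 4, 6, 9] (.split [0, 8, 10, 13] (.cnt) (.split [0, 6, 12, 13]
  (.cnt) (.split [0, 7, 11, 13] (.cnt) (.split [1, 3, 11, 13] (.cnt) (.split [2, 3, 8, 13]
  (.cnt) (.split [2, 3, 10, 12] (.cnt) (.split [0, 4, 8, 12] (.split [3, 5, 7, 10] (.cnt)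
  (.split [4, 6, 8, 9] (.cnt) (.split [1, 3, 10, 13] (.cnt) (.split [2, 3, 9, 12] (.cnt) (.split
  [2, 4, 6, 13] (.cnt) (.split [2, 4, 7, 12] (.cnt) (.split [2, 4, 8, 11] (.cnt) (.split [2, 5,
  7, 11] (.cnt) (.split [3, 4, 7, 11] (.cnt) (.split [3, 4, 9, 10] (.cnt) (.split [0, 6, 9, 11]
  (.split [3, 5, 8, 9] (.cnt) (.split [2, 5, 7, 10] (.cnt) (.split [3, 5, 6, 11] (.cnt) (.split
  [4, 6, 7, 9] (.cnt) (.split [1, 3, 9, 13] (.cnt) (.split [1, 4, 8, 13] (.cnt) (.split [1, 4,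
  9, 12] (.cnt) (.split [1, 5, 7, 13] (.cnt) (.split [1, 5, 8, 12] (.cnt) (.split [1, 5, 10, 11]
  (.cnt) (.split [1, 7, 8, 11] (.cnt) (.split [2, 3, 7, 13] (.cnt) (.split [2, 3, 8, 12] (.cnt)
  (.split [2, 3, 10, 11] (.cnt) (.split [2, 4, 7, 11] (.cnt) (.split [2, 4, 9, 10] (.cnt)
  (.split [2, 5, 6, 12] (.cnt) (.split [3, 4, 6, 12] (.cnt) (.split [3, 4, 8, 10] (.cnt) (.split
  [0, 3, 11, 13] (.split [1, 4, 7, 12] (.cnt) (.split [2, 4, 5, 12] (.cnt) (.split [3, 4, 6, 10]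
  (.cnt) (.split [2, 3, 7, 11] (.cnt) (.split [2, 6, 7, 9] (.cnt) (.split [1, 3, 9, 12] (.cnt)
  (.split [1, 4, 9, 11] (.cnt) (.split [1, 6, 9, 10] (.cnt) (.split [1, 3, 7, 13] (.cnt) (.split
  [1, 5, 8, 11] (.cnt) (.split [2, 3, 6, 12] (.cnt) (.split [2, 4, 6, 11] (.cnt) (.split [2, 4,
  7, 10] (.cnt) (.split [3, 5, 7, 9] (.cnt) (.far 2 [([0, 8, 10, 13], 2), ([1, 3, 9, 12], 1),
  ([1, 4, 7, 12], 1), ([2, 4, 6, 11], 2), ([3, 5, 7, 9], 1)]))))))))))))))) (.far 2 [([0, 3, 11,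
  13], 2), ([1, 4, 9, 12], 1), ([1, 5, 8, 12], 1), ([2, 5, 7, 10], 2), ([3, 5, 8, 9],
  1)]))))))))))))))))))))) (.far 2 [([0, 6, 9, 11], 2), ([1, 3, 10, 13], 1), ([1, 5, 8, 13], 1),
  ([2, 4, 7, 12], 2), ([3, 5, 7, 10], 1)])))))))))))) (.far 2 [([0, 4, 8, 12], 3), ([1, 3, 11,
  13], 1), ([2, 5, 9, 10], 1), ([2, 6, 7, 11], 1), ([3, 6, 7, 10], 1)])))))))) (.far 2 [([0, 7,
  12, 13], 1), ([0, 8, 11, 13], 1), ([1, 4, 6, 9], 4), ([2, 3, 11, 12], 1)])))))))))))))) (.far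
  2 [([0, 2, 9, 13], 2), ([1, 6, 8, 12], 1), ([1, 6, 10, 11], 1), ([3, 4, 7, 12], 1), ([3, 5, 7,
  11], 1), ([3, 5, 8, 10], 1)]))))))))))))))) (.far 2 [([0, 1, 9, 13], 2), ([2, 4, 8, 12], 1),
  ([2, 5, 8, 11], 1), ([2, 6, 7, 12], 1), ([3, 5, 9, 10], 1), ([3, 6, 7, 11], 1)])))) (.far 2
  [([0, 11, 12, 13], 2), ([1, 3, 6, 8], 5)])))))))) (.far 2 [([0, 5, 7, 11], 3), ([1, 4, 9, 13],
  1), ([2, 3, 10, 13], 1), ([2, 4, 9, 12], 1), ([3, 6, 8, 10], 1)])))))))))) (.far 2 [([0, 3, 7,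
  12], 4), ([2, 5, 9, 11], 2), ([4, 6, 9, 10], 1)])))))))))))))))))))))

theorem starMin4_14 : StarMin (fun s => s < 0) 4 14 :=
  starMin_of_check (t := 287) (by norm_num) (by norm_num) cert4_14
    (by decide +kernel) (by decide +kernel)

/-- certificate for `k = 4`, `n = 15` -/
def cert4_15 : Cert :=
  .split [2, 6, 9, 12] (.cnt) (.split [1, 5, 10, 13] (.cnt) (.split [3, 5, 8, 12] (.cnt) (.split
  [3, 6, 9, 11] (.cnt) (.split [2, 4, 9, 13] (.cnt) (.split [2, 5, 7, 14] (.cnt) (.split [1, 6,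
  9, 13] (.cnt) (.split [1, 4, 10, 14] (.cnt) (.split [1, 7, 11, 12] (.cnt) (.split [2, 5, 8,
  13] (.cnt) (.split [3, 6, 7, 13] (.cnt) (.split [4, 7, 8, 11] (.cnt) (.split [1, 6, 8, 14]
  (.cnt) (.split [2, 3, 12, 14] (.cnt) (.split [2, 4, 8, 14] (.cnt) (.split [2, 5, 10, 12]
  (.cnt) (.split [2, 8, 10, 11] (.cnt) (.split [1, 5, 9, 14] (.cnt) (.split [1, 9, 10, 12]
  (.cnt) (.split [2, 7, 8, 12] (.cnt) (.split [3, 4, 11, 12] (.cnt) (.split [4, 5, 7, 13] (.cnt)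
  (.split [0, 4, 7, 13] (.split [5, 7, 9, 10] (.cnt) (.split [3, 5, 9, 11] (.cnt) (.split [3, 6,
  8, 11] (.cnt) (.split [2, 7, 9, 11] (.cnt) (.split [1, 7, 10, 12] (.cnt) (.split [2, 3, 11,
  14] (.cnt) (.split [2, 5, 9, 12] (.cnt) (.split [2, 6, 8, 12] (.cnt) (.split [2, 6, 10, 11]
  (.cnt) (.split [3, 4, 10, 12] (.cnt) (.split [4, 8, 9, 10] (.cnt) (.split [5, 6, 7, 12] (.cnt)
  (.split [0, 4, 10, 12] (.split [4, 7, 8, 10] (.cnt) (.split [3, 5, 6, 14] (.cnt) (.split [3,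
  6, 7, 12] (.cnt) (.split [3, 7, 9, 10] (.cnt) (.split [4, 6, 9, 10] (.cnt) (.split [1, 5, 8,
  14] (.cnt) (.split [2, 3, 10, 14] (.cnt) (.split [2, 5, 8, 12] (.cnt) (.split [2, 6, 7, 13]
  (.cnt) (.split [2, 6, 9, 11] (.cnt) (.split [3, 4, 7, 14] (.cnt) (.split [3, 4, 8, 13] (.cnt)
  (.split [3, 5, 7, 13] (.cnt) (.split [4, 5, 7, 12] (.cnt) (.split [4, 5, 8, 11] (.cnt) (.split
  [5, 6, 7, 11] (.cnt) (.split [1, 3, 6, 9] (.split [0, 8, 12, 14] (.cnt) (.split [0, 6, 8, 12]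
  (.split [1, 3, 12, 14] (.cnt) (.split [2, 4, 10, 12] (.cnt) (.split [3, 4, 8, 12] (.cnt)
  (.split [4, 6, 8, 10] (.cnt) (.split [1, 4, 9, 14] (.cnt) (.split [2, 3, 9, 14] (.cnt) (.split
  [2, 3, 12, 13] (.cnt) (.split [2, 4, 7, 14] (.cnt) (.split [2, 4, 8, 13] (.cnt) (.split [2, 5,
  7, 13] (.cnt) (.split [2, 5, 10, 11] (.cnt) (.split [2, 7, 8, 11] (.cnt) (.split [3, 4, 7, 13]
  (.cnt) (.split [3, 5, 7, 12] (.cnt) (.split [3, 5, 8, 11] (.cnt) (.split [3, 6, 9, 10] (.cnt)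
  (.split [4, 6, 7, 11] (.cnt) (.split [0, 3, 10, 14] (.split [3, 5, 8, 10] (.cnt) (.split [1,
  6, 9, 12] (.cnt) (.split [2, 6, 7, 11] (.cnt) (.split [1, 4, 10, 13] (.cnt) (.split [2, 6, 9,
  10] (.cnt) (.split [3, 4, 8, 11] (.cnt) (.split [1, 5, 10, 12] (.cnt) (.split [1, 6, 8, 13]
  (.cnt) (.split [1, 8, 10, 11] (.cnt) (.split [2, 3, 10, 13] (.cnt) (.split [2, 4, 8, 12]
  (.cnt) (.split [2, 5, 8, 11] (.cnt) (.split [3, 5, 6, 13] (.cnt) (.split [3, 5, 7, 11] (.cnt)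
  (.split [4, 6, 7, 10] (.cnt) (.split [1, 5, 9, 13] (.cnt) (.split [1, 6, 7, 14] (.cnt) (.split
  [2, 3, 8, 14] (.cnt) (.split [2, 4, 7, 13] (.cnt) (.split [2, 4, 10, 11] (.cnt) (.split [2, 5,
  6, 14] (.cnt) (.split [2, 5, 7, 12] (.cnt) (.split [3, 4, 6, 14] (.cnt) (.split [3, 4, 7, 12]
  (.cnt) (.split [4, 5, 6, 12] (.cnt) (.split [0, 6, 10, 14] (.split [3, 6, 7, 9] (.cnt) (.split
  [2, 4, 8, 10] (.cnt) (.split [1, 6, 8, 11] (.cnt) (.split [2, 4, 6, 12] (.cnt) (.split [2, 3,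
  8, 12] (.cnt) (.split [1, 3, 10, 13] (.cnt) (.split [1, 4, 9, 12] (.cnt) (.split [2, 5, 7, 10]
  (.cnt) (.far 4 [([0, 8, 12, 14], 4), ([1, 3, 10, 13], 1), ([1, 4, 9, 12], 1), ([1, 6, 8, 11],
  2), ([2, 4, 6, 12], 2), ([2, 4, 8, 10], 1), ([2, 5, 7, 10], 4)]))))))))) (.far 4 [([0, 6, 10,
  14], 4), ([1, 5, 9, 13], 2), ([1, 6, 9, 12], 2), ([2, 3, 10, 13], 1), ([2, 4, 7, 13], 1), ([2,
  4, 8, 12], 1), ([2, 5, 8, 11], 2), ([3, 4, 7, 12], 1), ([3, 4, 8, 11],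
  1)]))))))))))))))))))))))))))) (.far 4 [([0, 3, 10, 14], 4), ([1, 6, 9, 13], 4), ([2, 5, 8,
  12], 1), ([2, 5, 10, 11], 1), ([2, 7, 8, 11], 2), ([3, 4, 8, 12], 1), ([3, 5, 7, 12],
  2)]))))))))))))))))))) (.far 4 [([0, 6, 8, 12], 4), ([1, 4, 10, 14], 1), ([1, 5, 10, 13], 3),
  ([2, 3, 10, 14], 1), ([2, 4, 9, 13], 1), ([2, 6, 9, 11], 2), ([3, 4, 7, 14], 2), ([3, 5, 9,
  11], 1)]))) (.far 4 [([0, 12, 13, 14], 4), ([1, 3, 6, 9], 11)])))))))))))))))))) (.far 4 [([0,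
  4, 10, 12], 4), ([1, 5, 9, 14], 1), ([1, 6, 9, 13], 3), ([2, 3, 11, 14], 1), ([2, 5, 7, 14],
  2), ([2, 5, 8, 13], 1), ([3, 6, 8, 11], 3)])))))))))))))) (.far 4 [([0, 4, 7, 13], 7), ([1, 9,
  10, 12], 1), ([2, 3, 12, 14], 1), ([2, 5, 10, 12], 2), ([2, 8, 10, 11], 1), ([3, 6, 9, 11],
  3)])))))))))))))))))))))))

theorem starMin4_15 : StarMin (fun s => s < 0) 4 15 :=
  starMin_of_check (t := 365) (by norm_num) (by norm_num) cert4_15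
    (by decide +kernel) (by decide +kernel)

/-- certificate for `k = 4`, `n = 17` -/
def cert4_17 : Cert :=
  .split [2, 6, 10, 14] (.cnt) (.split [3, 7, 9, 13] (.cnt) (.split [1, 6, 11, 15] (.cnt)
  (.split [2, 5, 9, 15] (.cnt) (.split [4, 7, 10, 12] (.cnt) (.split [4, 6, 8, 14] (.cnt)
  (.split [2, 4, 12, 15] (.cnt) (.split [1, 8, 11, 14] (.cnt) (.split [2, 5, 11, 14] (.cnt)
  (.split [2, 6, 12, 13] (.cnt) (.split [1, 7, 10, 15] (.cnt) (.split [3, 6, 10, 13] (.cnt)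
  (.split [1, 5, 11, 16] (.cnt) (.split [2, 8, 10, 13] (.cnt) (.split [2, 4, 10, 16] (.cnt)
  (.split [2, 6, 8, 16] (.cnt) (.split [3, 8, 11, 12] (.cnt) (.split [1, 4, 14, 16] (.cnt)
  (.split [1, 5, 13, 15] (.cnt) (.split [1, 7, 9, 16] (.cnt) (.split [1, 7, 12, 14] (.cnt)
  (.split [2, 7, 9, 14] (.cnt) (.split [3, 4, 10, 15] (.cnt) (.split [3, 5, 8, 16] (.cnt)
  (.split [3, 5, 10, 14] (.cnt) (.split [3, 5, 12, 13] (.cnt) (.split [3, 6, 8, 15] (.cnt)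
  (.split [4, 6, 7, 16] (.cnt) (.split [4, 6, 9, 13] (.cnt) (.split [6, 8, 9, 12] (.cnt) (.split
  [1, 6, 10, 16] (.cnt) (.split [2, 7, 11, 13] (.cnt) (.split [3, 4, 9, 16] (.cnt) (.split [3,
  6, 9, 14] (.cnt) (.split [3, 7, 8, 14] (.cnt) (.split [4, 5, 8, 15] (.cnt) (.split [4, 5, 9,
  14] (.cnt) (.split [4, 5, 11, 13] (.cnt) (.split [0, 4, 9, 16] (.split [2, 7, 10, 12] (.cnt)
  (.split [4, 7, 10, 11] (.cnt) (.split [4, 6, 9, 12] (.cnt) (.split [3, 6, 8, 13] (.cnt)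
  (.split [3, 5, 9, 13] (.cnt) (.split [1, 8, 12, 13] (.cnt) (.split [3, 6, 7, 15] (.cnt)
  (.split [2, 5, 11, 13] (.cnt) (.split [3, 4, 11, 14] (.cnt) (.split [3, 5, 8, 14] (.cnt)
  (.split [4, 7, 8, 12] (.cnt) (.split [5, 8, 9, 11] (.cnt) (.split [1, 6, 12, 14] (.cnt)
  (.split [1, 8, 10, 14] (.cnt) (.split [2, 6, 8, 15] (.cnt) (.split [2, 7, 9, 13] (.cnt)
  (.split [3, 5, 7, 16] (.cnt) (.split [3, 6, 10, 12] (.cnt) (.split [3, 7, 9, 12] (.cnt)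
  (.split [1, 5, 12, 15] (.cnt) (.split [1, 6, 10, 15] (.cnt) (.split [1, 7, 11, 14] (.cnt)
  (.split [1, 10, 11, 13] (.cnt) (.split [2, 3, 15, 16] (.cnt) (.split [2, 4, 11, 15] (.cnt)
  (.split [2, 4, 13, 14] (.cnt) (.split [2, 5, 8, 16] (.cnt) (.split [2, 5, 10, 14] (.cnt)
  (.split [2, 6, 9, 14] (.cnt) (.split [2, 6, 10, 13] (.cnt) (.split [2, 7, 8, 14] (.cnt)
  (.split [4, 5, 11, 12] (.cnt) (.split [6, 7, 9, 11] (.cnt) (.split [0, 7, 11, 15] (.split [3,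
  6, 8, 11] (.cnt) (.split [2, 4, 9, 13] (.cnt) (.split [2, 5, 7, 14] (.cnt) (.split [2, 5, 9,
  12] (.cnt) (.split [1, 5, 10, 14] (.cnt) (.split [2, 3, 10, 15] (.cnt) (.split [4, 6, 9, 10]
  (.cnt) (.split [2, 4, 7, 15] (.cnt) (.split [4, 5, 7, 12] (.cnt) (.split [1, 4, 11, 15] (.cnt)
  (.split [1, 6, 9, 14] (.cnt) (.split [1, 7, 10, 13] (.cnt) (.split [2, 7, 9, 11] (.cnt)
  (.split [1, 5, 8, 16] (.cnt) (.split [2, 5, 8, 13] (.cnt) (.split [3, 5, 6, 15] (.cnt) (.split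
  [3, 5, 9, 11] (.cnt) (.split [1, 3, 13, 16] (.cnt) (.split [3, 4, 9, 12] (.cnt) (.split [1, 6,
  11, 13] (.cnt) (.split [2, 3, 12, 14] (.cnt) (.split [2, 4, 8, 14] (.cnt) (.split [2, 6, 7,
  13] (.cnt) (.split [2, 6, 8, 12] (.cnt) (.split [5, 7, 8, 10] (.cnt) (.split [1, 4, 10, 16]
  (.cnt) (.split [1, 4, 13, 14] (.cnt) (.split [1, 5, 9, 15] (.cnt) (.split [1, 7, 8, 15] (.cnt)
  (.split [2, 3, 9, 16] (.cnt) (.split [2, 6, 10, 11] (.cnt) (.split [3, 4, 7, 14] (.cnt)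
  (.split [3, 4, 8, 13] (.cnt) (.split [3, 5, 7, 13] (.cnt) (.split [3, 5, 8, 12] (.cnt) (.split
  [3, 6, 7, 12] (.cnt) (.split [4, 5, 8, 11] (.cnt) (.split [0, 11, 15, 16] (.split [1, 2, 5, 8]
  (.cnt) (.far 4 [([0, 14, 15, 16], 4), ([1, 2, 5, 8], 13)])) (.far 4 [([0, 11, 15, 16], 4),
  ([1, 5, 10, 14], 3), ([1, 6, 9, 14], 1), ([2, 4, 9, 13], 2), ([2, 5, 8, 13], 1), ([2, 6, 8,
  12], 2), ([3, 4, 8, 13], 1), ([3, 6, 7, 12], 2), ([4, 6, 9, 10],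
  1)]))))))))))))))))))))))))))))))))))))))) (.far 4 [([0, 7, 11, 15], 4), ([1, 6, 12, 14], 3),
  ([1, 7, 9, 16], 1), ([2, 4, 10, 16], 3), ([2, 7, 10, 12], 1), ([3, 5, 8, 14], 1), ([3, 5, 9,
  13], 3), ([3, 6, 8, 13], 1)]))))))))))))))))))))))))))))))))))) (.far 4 [([0, 4, 9, 16], 4),
  ([1, 6, 11, 15], 3), ([1, 7, 12, 14], 1), ([2, 5, 9, 15], 1), ([2, 5, 11, 14], 1), ([2, 6, 12,
  13], 1), ([2, 8, 10, 13], 1), ([3, 5, 12, 13], 1), ([3, 7, 8, 14], 2), ([3, 7, 9, 13], 1),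
  ([4, 7, 10, 12], 1)])))))))))))))))))))))))))))))))))))))))

theorem starMin4_17 : StarMin (fun s => s < 0) 4 17 :=
  starMin_of_check (t := 561) (by norm_num) (by norm_num) cert4_17
    (by decide +kernel) (by decide +kernel)

end Pool.Agent.Lib.MP1e901d
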