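import Pool.Agent.Lib.MP_1e901d_co.Count

/-! Arrangements all of whose blocks have sum zero are outweighed by arrangements with two
negative blocks. -/

namespace Pool.Agent.Lib.MP1e901d

open Finset
open scoped Classical

variable {V : Type*} [Fintype V] {m k : ℕ}

/-- the negative `k`-subsets for a weight -/
noncomputable def negSets (k : ℕ) (w : V → ℝ) : Finset (Finset V) :=
  ((Finset.univ : Finset V).powersetCard k).filter (fun B => ∑ b ∈ B, w b < 0)

/-- rotation of three positions -/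
noncomputable def cyc (i0 i1 i2 : Fin m) (x y z : Fin k) : Equiv.Perm (Fin m × Fin k) :=
  (Equiv.swap (i1, y) (i2, z)).trans (Equiv.swap (i0, x) (i1, y))

section
variable {i0 i1 i2 : Fin m} (h01 : i0 ≠ i1) (h12 : i1 ≠ i2) (h02 : i0 ≠ i2) (x y z : Fin k)
include h01 h12 h02

theorem cyc0 : cyc i0 i1 i2 x y z (i0, x) = (i1, y) := by
  unfold cyc
  have h : Equiv.swap (i1, y) (i2, z) (i0, x) = (i0, x) :=
    Equiv.swap_apply_of_ne_of_ne (fun h => h01 (congrArg Prod.fst h))
      (fun h => h02 (congrArg Prod.fst h))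
  rw [Equiv.trans_apply, h, Equiv.swap_apply_left]

theorem cyc1 : cyc i0 i1 i2 x y z (i1, y) = (i2, z) := by
  unfold cyc
  have h : Equiv.swap (i0, x) (i1, y) (i2, z) = (i2, z) :=
    Equiv.swap_apply_of_ne_of_ne (fun h => h02 (congrArg Prod.fst h).symm)
      (fun h => h12 (congrArg Prod.fst h).symm)
  rw [Equiv.trans_apply, Equiv.swap_apply_left, h]

theorem cyc2 : cyc i0 i1 i2 x y z (i2, z) = (i0, x) := by
  unfold cyc
  rw [Equiv.trans_apply, Equiv.swap_apply_right, Equiv.swap_apply_right]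

theorem cyc_other (p : Fin m × Fin k) (h0 : p ≠ (i0, x)) (h1 : p ≠ (i1, y)) (h2 : p ≠ (i2, z)) :
    cyc i0 i1 i2 x y z p = p := by
  unfold cyc
  rw [Equiv.trans_apply, Equiv.swap_apply_of_ne_of_ne h1 h2, Equiv.swap_apply_of_ne_of_ne h0 h1]

end

theorem sum_change (w : V → ℝ) (e e' : (Fin m × Fin k) ≃ V) (i : Fin m) (x : Fin k)
    (h : ∀ j, j ≠ x → e' (i, j) = e (i, j)) :
    ∑ b ∈ block e' i, w b = ∑ b ∈ block e i, w b - w (e (i, x)) + w (e' (i, x)) := by
  classical
  rw [sum_block, sum_block, ← Finset.add_sum_erase _ _ (Finset.mem_univ x),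
    ← Finset.add_sum_erase (Finset.univ : Finset (Fin k)) (fun j => w (e (i, j)))
      (Finset.mem_univ x)]
  have : ∑ j ∈ Finset.univ.erase x, w (e' (i, j)) = ∑ j ∈ Finset.univ.erase x, w (e (i, j)) :=
    Finset.sum_congr rfl (fun j hj => by rw [h j (Finset.ne_of_mem_erase hj)])
  rw [this]; ring

section
variable {w : V → ℝ} {i0 i1 i2 : Fin m} (h01 : i0 ≠ i1) (h12 : i1 ≠ i2) (h02 : i0 ≠ i2)
  (x y z : Fin k) (e : (Fin m × Fin k) ≃ V)
  (hz : ∀ i, ∑ b ∈ block e i, w b = 0)
include h01 h12 h02 hz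

theorem rot_sums :
    ∑ b ∈ block ((cyc i0 i1 i2 x y z).trans e) i0, w b = w (e (i1, y)) - w (e (i0, x)) ∧
    ∑ b ∈ block ((cyc i0 i1 i2 x y z).trans e) i1, w b = w (e (i2, z)) - w (e (i1, y)) ∧
    ∑ b ∈ block ((cyc i0 i1 i2 x y z).trans e) i2, w b = w (e (i0, x)) - w (e (i2, z)) := by
  refine ⟨?_, ?_, ?_⟩
  · rw [sum_change w e _ i0 x, hz i0, Equiv.trans_apply, cyc0 h01 h12 h02]
    · ring
    · intro j hj
      rw [Equiv.trans_apply, cyc_other h01 h12 h02]
      · intro h; exact hj (congrArg Prod.snd h)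
      · intro h; exact h01 (congrArg Prod.fst h)
      · intro h; exact h02 (congrArg Prod.fst h)
  · rw [sum_change w e _ i1 y, hz i1, Equiv.trans_apply, cyc1 h01 h12 h02]
    · ring
    · intro j hj
      rw [Equiv.trans_apply, cyc_other h01 h12 h02]
      · intro h; exact h01 (congrArg Prod.fst h).symm
      · intro h; exact hj (congrArg Prod.snd h)
      · intro h; exact h12 (congrArg Prod.fst h)
  · rw [sum_change w e _ i2 z, hz i2, Equiv.trans_apply, cyc2 h01 h12 h02]
    · ring
    · intro j hj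
      rw [Equiv.trans_apply, cyc_other h01 h12 h02]
      · intro h; exact h02 (congrArg Prod.fst h).symm
      · intro h; exact h12 (congrArg Prod.fst h).symm
      · intro h; exact hj (congrArg Prod.snd h)

end

theorem rot_inj {w : V → ℝ} (hw : Function.Injective w) {i0 i1 i2 : Fin m} (h01 : i0 ≠ i1)
    (h12 : i1 ≠ i2) (h02 : i0 ≠ i2) (y x z x' z' : Fin k) (e e' : (Fin m × Fin k) ≃ V)
    (hz : ∀ i, ∑ b ∈ block e i, w b = 0) (hz' : ∀ i, ∑ b ∈ block e' i, w b = 0)
    (h : (cyc i0 i1 i2 x y z).trans e = (cyc i0 i1 i2 x' y z').trans e') :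
    e = e' ∧ x = x' ∧ z = z' := by
  classical
  obtain ⟨a0, a1, a2⟩ := rot_sums h01 h12 h02 x y z e hz
  obtain ⟨b0, b1, b2⟩ := rot_sums h01 h12 h02 x' y z' e' hz'
  rw [← h] at b0 b1 b2
  have happ : ∀ p, e (cyc i0 i1 i2 x y z p) = e' (cyc i0 i1 i2 x' y z' p) := by
    intro p
    have := congrArg (fun f : (Fin m × Fin k) ≃ V => f p) h
    simpa using this
  have c1 : w (e (i2, z)) = w (e' (i2, z')) := by
    have := happ (i1, y)
    rw [cyc1 h01 h12 h02, cyc1 h01 h12 h02] at this
    rw [this]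
  have c2 : w (e (i1, y)) = w (e' (i1, y)) := by linarith
  have c3 : w (e (i0, x)) = w (e' (i0, x')) := by linarith
  have hx : x = x' := by
    -- position of the element `e (i1, y)` in the rotated arrangement
    have h1 : ((cyc i0 i1 i2 x y z).trans e) (i0, x) = e (i1, y) := by
      rw [Equiv.trans_apply, cyc0 h01 h12 h02]
    have h2 : ((cyc i0 i1 i2 x y z).trans e) (i0, x') = e' (i1, y) := by
      rw [h, Equiv.trans_apply, cyc0 h01 h12 h02]
    have h3 : ((cyc i0 i1 i2 x y z).trans e) (i0, x) = ((cyc i0 i1 i2 x y z).trans e) (i0, x') := by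
      rw [h1, h2]; exact hw c2
    exact congrArg Prod.snd (((cyc i0 i1 i2 x y z).trans e).injective h3)
  have hzz : z = z' := by
    have h1 : ((cyc i0 i1 i2 x y z).trans e) (i2, z) = e (i0, x) := by
      rw [Equiv.trans_apply, cyc2 h01 h12 h02]
    have h2 : ((cyc i0 i1 i2 x y z).trans e) (i2, z') = e' (i0, x') := by
      rw [h, Equiv.trans_apply, cyc2 h01 h12 h02]
    have h3 : ((cyc i0 i1 i2 x y z).trans e) (i2, z) = ((cyc i0 i1 i2 x y z).trans e) (i2, z') := by
      rw [h1, h2]; exact hw c3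
    exact congrArg Prod.snd (((cyc i0 i1 i2 x y z).trans e).injective h3)
  subst hx
  subst hzz
  refine ⟨?_, rfl, rfl⟩
  ext p
  have := happ ((cyc i0 i1 i2 x y z).symm p)
  simpa using this

theorem two_le_cnt {w : V → ℝ} (e : (Fin m × Fin k) ≃ V) {i j : Fin m} (hij : i ≠ j)
    (hi : ∑ b ∈ block e i, w b < 0) (hj : ∑ b ∈ block e j, w b < 0) :
    2 ≤ cnt (negSets k w) e := by
  classical
  unfold cnt
  rw [← Finset.card_pair hij]
  apply Finset.card_le_card
  intro a ha
  rw [Finset.mem_filter]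
  refine ⟨Finset.mem_univ _, ?_⟩
  unfold negSets
  rw [Finset.mem_filter, Finset.mem_powersetCard]
  rw [Finset.mem_insert, Finset.mem_singleton] at ha
  rcases ha with rfl | rfl
  · exact ⟨⟨Finset.subset_univ _, block_card e _⟩, hi⟩
  · exact ⟨⟨Finset.subset_univ _, block_card e _⟩, hj⟩

/-- if not all blocks have sum zero, some block is negative -/
theorem one_le_cnt {w : V → ℝ} (hw0 : ∑ v, w v = 0) (e : (Fin m × Fin k) ≃ V)
    (hne : ¬ ∀ i, ∑ b ∈ block e i, w b = 0) : 1 ≤ cnt (negSets k w) e := by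
  classical
  have hex : ∃ i, ∑ b ∈ block e i, w b < 0 := by
    by_contra hcon
    push Not at hcon
    apply hne
    have h1 := sum_blocks e w
    rw [hw0] at h1
    intro i
    exact (Finset.sum_eq_zero_iff_of_nonneg (fun i _ => hcon i)).1 h1 i (Finset.mem_univ i)
  obtain ⟨i, hi⟩ := hex
  unfold cnt
  apply Finset.card_pos.2
  refine ⟨i, Finset.mem_filter.2 ⟨Finset.mem_univ _, ?_⟩⟩
  unfold negSets
  rw [Finset.mem_filter, Finset.mem_powersetCard]
  exact ⟨⟨Finset.subset_univ _, block_card e _⟩, hi⟩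

/-- the set of arrangements with all blocks of sum zero -/
noncomputable def zeroArr (m k : ℕ) (w : V → ℝ) : Finset ((Fin m × Fin k) ≃ V) :=
  Finset.univ.filter (fun e => ∀ i, ∑ b ∈ block e i, w b = 0)

/-- the set of arrangements with at least two negative blocks -/
noncomputable def twoArr (m k : ℕ) (w : V → ℝ) : Finset ((Fin m × Fin k) ≃ V) :=
  Finset.univ.filter (fun e => 2 ≤ cnt (negSets k w) e)

theorem zero_le_two {w : V → ℝ} (hw : Function.Injective w) (hm : 3 ≤ m) (hk : 1 ≤ k) :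
    (zeroArr m k w).card * (k * k) ≤ 2 * (twoArr m k w).card := by
  classical
  let j0 : Fin m := ⟨0, by omega⟩
  let j1 : Fin m := ⟨1, by omega⟩
  let j2 : Fin m := ⟨2, by omega⟩
  let y : Fin k := ⟨0, by omega⟩
  have h01 : j0 ≠ j1 := by simp [j0, j1]
  have h12 : j1 ≠ j2 := by simp [j1, j2]
  have h02 : j0 ≠ j2 := by simp [j0, j2]
  let X : Finset (((Fin m × Fin k) ≃ V) × (Fin k × Fin k)) := (zeroArr m k w) ×ˢ Finset.univ
  let Φ : ((Fin m × Fin k) ≃ V) × (Fin k × Fin k) → ((Fin m × Fin k) ≃ V) :=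
    fun t => (cyc j0 j1 j2 t.2.1 y t.2.2).trans t.1
  let Ψ : ((Fin m × Fin k) ≃ V) × (Fin k × Fin k) → ((Fin m × Fin k) ≃ V) :=
    fun t => (cyc j2 j1 j0 t.2.2 y t.2.1).trans t.1
  have hXmem : ∀ t ∈ X, ∀ i, ∑ b ∈ block t.1 i, w b = 0 := by
    intro t ht
    have := (Finset.mem_product.1 ht).1
    unfold zeroArr at this
    exact (Finset.mem_filter.1 this).2
  have hXc : X.card = (zeroArr m k w).card * (k * k) := by
    simp [X]
  have hcover : ∀ t ∈ X, Φ t ∈ twoArr m k w ∨ Ψ t ∈ twoArr m k w := by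
    intro t ht
    have hz := hXmem t ht
    obtain ⟨a0, a1, a2⟩ := rot_sums h01 h12 h02 t.2.1 y t.2.2 t.1 hz
    obtain ⟨b0, b1, b2⟩ := rot_sums (Ne.symm h12) (Ne.symm h01) (Ne.symm h02) t.2.2 y t.2.1 t.1 hz
    have d01 : w (t.1 (j0, t.2.1)) ≠ w (t.1 (j1, y)) := by
      intro h
      have := t.1.injective (hw h)
      exact h01 (congrArg Prod.fst this)
    have d12 : w (t.1 (j1, y)) ≠ w (t.1 (j2, t.2.2)) := by
      intro h
      have := t.1.injective (hw h)
      exact h12 (congrArg Prod.fst this)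
    have d02 : w (t.1 (j0, t.2.1)) ≠ w (t.1 (j2, t.2.2)) := by
      intro h
      have := t.1.injective (hw h)
      exact h02 (congrArg Prod.fst this)
    have hmemΦ : ∀ {i j : Fin m}, i ≠ j → ∑ b ∈ block (Φ t) i, w b < 0 →
        ∑ b ∈ block (Φ t) j, w b < 0 → Φ t ∈ twoArr m k w := by
      intro i j hij hi hj
      exact Finset.mem_filter.2 ⟨Finset.mem_univ _, two_le_cnt _ hij hi hj⟩
    have hmemΨ : ∀ {i j : Fin m}, i ≠ j → ∑ b ∈ block (Ψ t) i, w b < 0 →
        ∑ b ∈ block (Ψ t) j, w b < 0 → Ψ t ∈ twoArr m k w := by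
      intro i j hij hi hj
      exact Finset.mem_filter.2 ⟨Finset.mem_univ _, two_le_cnt _ hij hi hj⟩
    set α := w (t.1 (j0, t.2.1)) with hα
    set β := w (t.1 (j1, y)) with hβ
    set γ := w (t.1 (j2, t.2.2)) with hγ
    rcases lt_or_gt_of_ne d01 with c1 | c1
    · rcases lt_or_gt_of_ne d12 with c2 | c2
      · -- α < β < γ : Ψ has block j1 : α - β < 0, block j2 : β - γ < 0
        right
        exact hmemΨ h12 (by show _ < _; rw [show ∑ b ∈ block (Ψ t) j1, w b = α - β from b1]; linarith)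
          (by rw [show ∑ b ∈ block (Ψ t) j2, w b = β - γ from b0]; linarith)
      · rcases lt_or_gt_of_ne d02 with c3 | c3
        · -- α < γ < β : Φ : β - α > 0, γ - β < 0, α - γ < 0
          left
          exact hmemΦ h12 (by rw [show ∑ b ∈ block (Φ t) j1, w b = γ - β from a1]; linarith)
            (by rw [show ∑ b ∈ block (Φ t) j2, w b = α - γ from a2]; linarith)
        · -- γ < α < β : Ψ : j0 : γ - α < 0, j1 : α - β < 0
          right
          exact hmemΨ h01 (by rw [show ∑ b ∈ block (Ψ t) j0, w b = γ - α from b2]; linarith)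
            (by rw [show ∑ b ∈ block (Ψ t) j1, w b = α - β from b1]; linarith)
    · rcases lt_or_gt_of_ne d12 with c2 | c2
      · rcases lt_or_gt_of_ne d02 with c3 | c3
        · -- β < α < γ : Φ : j0 : β - α < 0, j2 : α - γ < 0
          left
          exact hmemΦ h02 (by rw [show ∑ b ∈ block (Φ t) j0, w b = β - α from a0]; linarith)
            (by rw [show ∑ b ∈ block (Φ t) j2, w b = α - γ from a2]; linarith)
        · -- β < γ < α : Ψ : j0 : γ - α < 0, j2 : β - γ < 0
          right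
          exact hmemΨ h02 (by rw [show ∑ b ∈ block (Ψ t) j0, w b = γ - α from b2]; linarith)
            (by rw [show ∑ b ∈ block (Ψ t) j2, w b = β - γ from b0]; linarith)
      · -- γ < β < α : Φ : j0 : β - α < 0, j1 : γ - β < 0
        left
        exact hmemΦ h01 (by rw [show ∑ b ∈ block (Φ t) j0, w b = β - α from a0]; linarith)
          (by rw [show ∑ b ∈ block (Φ t) j1, w b = γ - β from a1]; linarith)
  have hX : X ⊆ X.filter (fun t => Φ t ∈ twoArr m k w) ∪ X.filter (fun t => Ψ t ∈ twoArr m k w) := by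
    intro t ht
    rw [Finset.mem_union, Finset.mem_filter, Finset.mem_filter]
    rcases hcover t ht with h | h
    · exact Or.inl ⟨ht, h⟩
    · exact Or.inr ⟨ht, h⟩
  have hΦ : (X.filter (fun t => Φ t ∈ twoArr m k w)).card ≤ (twoArr m k w).card := by
    apply Finset.card_le_card_of_injOn Φ
    · intro t ht
      exact (Finset.mem_filter.1 (Finset.mem_coe.1 ht)).2
    · intro t ht t' ht' htt
      have h1 := hXmem t (Finset.mem_filter.1 (Finset.mem_coe.1 ht)).1
      have h2 := hXmem t' (Finset.mem_filter.1 (Finset.mem_coe.1 ht')).1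
      obtain ⟨r1, r2, r3⟩ := rot_inj hw h01 h12 h02 y t.2.1 t.2.2 t'.2.1 t'.2.2 t.1 t'.1 h1 h2 htt
      exact Prod.ext r1 (Prod.ext r2 r3)
  have hΨ : (X.filter (fun t => Ψ t ∈ twoArr m k w)).card ≤ (twoArr m k w).card := by
    apply Finset.card_le_card_of_injOn Ψ
    · intro t ht
      exact (Finset.mem_filter.1 (Finset.mem_coe.1 ht)).2
    · intro t ht t' ht' htt
      have h1 := hXmem t (Finset.mem_filter.1 (Finset.mem_coe.1 ht)).1
      have h2 := hXmem t' (Finset.mem_filter.1 (Finset.mem_coe.1 ht')).1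
      obtain ⟨r1, r2, r3⟩ := rot_inj hw (Ne.symm h12) (Ne.symm h01) (Ne.symm h02) y
        t.2.2 t.2.1 t'.2.2 t'.2.1 t.1 t'.1 h1 h2 htt
      exact Prod.ext r1 (Prod.ext r3 r2)
  have h3 := (Finset.card_le_card hX).trans (Finset.card_union_le _ _)
  rw [hXc] at h3
  omega

/-- **Exactness for the strictly negative blocks.** -/
theorem cnt_eq_one {w : V → ℝ} (hw : Function.Injective w) (hw0 : ∑ v, w v = 0)
    (hcard : Fintype.card V = m * k) (hm : 3 ≤ m) (hk : 2 ≤ k)
    (hN : (negSets k w).card ≤ (m * k - 1).choose (k - 1)) :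
    ∀ e : (Fin m × Fin k) ≃ V, cnt (negSets k w) e = 1 := by
  classical
  have hG : ∀ B ∈ negSets k w, B.card = k := by
    intro B hB
    exact (Finset.mem_powersetCard.1 (Finset.mem_filter.1 hB).1).2
  have h1 := avg hcard (by omega) (by omega) (negSets k w) hG hN
  have h2 := zero_le_two (w := w) hw hm (by omega : 1 ≤ k)
  -- pointwise lower bound
  have h3 : ∀ e : (Fin m × Fin k) ≃ V,
      1 + (if e ∈ twoArr m k w then 1 else 0)
        ≤ cnt (negSets k w) e + (if e ∈ zeroArr m k w then 1 else 0) := by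
    intro e
    by_cases hz : e ∈ zeroArr m k w
    · have hz' : ∀ i, ∑ b ∈ block e i, w b = 0 := (Finset.mem_filter.1 hz).2
      have hT : e ∉ twoArr m k w := by
        intro hT
        have h4 : 2 ≤ cnt (negSets k w) e := (Finset.mem_filter.1 hT).2
        have h5 : 0 < cnt (negSets k w) e := by omega
        unfold cnt at h5
        obtain ⟨i, hi⟩ := Finset.card_pos.1 h5
        have h6 := (Finset.mem_filter.1 hi).2
        unfold negSets at h6
        have h7 := (Finset.mem_filter.1 h6).2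
        rw [hz' i] at h7
        exact lt_irrefl _ h7
      rw [if_pos hz, if_neg hT]; omega
    · have hz' : ¬ ∀ i, ∑ b ∈ block e i, w b = 0 := by
        intro h; exact hz (Finset.mem_filter.2 ⟨Finset.mem_univ _, h⟩)
      have h4 := one_le_cnt hw0 e hz'
      by_cases hT : e ∈ twoArr m k w
      · have h5 : 2 ≤ cnt (negSets k w) e := (Finset.mem_filter.1 hT).2
        rw [if_pos hT, if_neg hz]; omega
      · rw [if_neg hT, if_neg hz]; omega
  have h4 : Fintype.card ((Fin m × Fin k) ≃ V) + (twoArr m k w).card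
      ≤ ∑ e : (Fin m × Fin k) ≃ V, cnt (negSets k w) e + (zeroArr m k w).card := by
    have := Finset.sum_le_sum (s := (Finset.univ : Finset ((Fin m × Fin k) ≃ V)))
      (fun e _ => h3 e)
    rw [Finset.sum_add_distrib, Finset.sum_add_distrib] at this
    simpa using this
  have h5 : (twoArr m k w).card ≤ (zeroArr m k w).card := by omega
  have h6 : (zeroArr m k w).card * 4 ≤ (zeroArr m k w).card * (k * k) :=
    Nat.mul_le_mul_left _ (Nat.mul_le_mul hk hk)
  have h7 : (zeroArr m k w).card = 0 := by omega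
  have h8 : (twoArr m k w).card = 0 := by omega
  rw [Finset.card_eq_zero] at h7 h8
  intro e
  have hz : e ∉ zeroArr m k w := by rw [h7]; exact Finset.notMem_empty e
  have hT : e ∉ twoArr m k w := by rw [h8]; exact Finset.notMem_empty e
  have h9 := h3 e
  rw [if_neg hz, if_neg hT] at h9
  have h10 : ¬ 2 ≤ cnt (negSets k w) e := fun h => hT (Finset.mem_filter.2 ⟨Finset.mem_univ _, h⟩)
  omega

end Pool.Agent.Lib.MP1e901d
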