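import Pool.Agent.Lib.MP_1e901d_co.Elem
import Pool.Agent.Lib.MP_1e901d_co.Zero

/-! The case `k ∣ n`, `n ≥ 3 k` : extremal families are stars. -/

namespace Pool.Agent.Lib.MP1e901d

open Finset
open scoped Classical

section
variable {V : Type*} [Fintype V] {m k : ℕ}

/-- minimum case, abstract form -/
theorem abs_min (w : V → ℝ) (hw0 : ∑ v, w v = 0) (hcard : Fintype.card V = m * k)
    (hm : 3 ≤ m) (hk : 1 ≤ k)
    (hmu : (((Finset.univ : Finset V).powersetCard k).filter
      (fun B => 0 ≤ ∑ b ∈ B, w b)).card ≤ (m * k - 1).choose (k - 1)) :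
    ∃ x : V, ∀ B : Finset V, B.card = k → (0 ≤ ∑ b ∈ B, w b ↔ x ∈ B) := by
  classical
  set G : Finset (Finset V) := ((Finset.univ : Finset V).powersetCard k).filter
      (fun B => 0 ≤ ∑ b ∈ B, w b) with hGdef
  have hGmem : ∀ B, B ∈ G ↔ (B.card = k ∧ 0 ≤ ∑ b ∈ B, w b) := by
    intro B
    rw [hGdef, Finset.mem_filter, Finset.mem_powersetCard]
    simp
  have hG : ∀ B ∈ G, B.card = k := fun B hB => ((hGmem B).1 hB).1
  have h1 := avg hcard (by omega) hk G hG hmu
  have hge : ∀ e : (Fin m × Fin k) ≃ V, 1 ≤ cnt G e := by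
    intro e
    have hex : ∃ i, 0 ≤ ∑ b ∈ block e i, w b := by
      by_contra hcon
      push Not at hcon
      have h2 := sum_blocks e w
      rw [hw0] at h2
      have h3 : ∑ i : Fin m, ∑ b ∈ block e i, w b < 0 :=
        Finset.sum_neg (fun i _ => hcon i) ⟨⟨0, by omega⟩, Finset.mem_univ _⟩
      linarith
    obtain ⟨i, hi⟩ := hex
    unfold cnt
    exact Finset.card_pos.2 ⟨i, Finset.mem_filter.2 ⟨Finset.mem_univ _,
      (hGmem _).2 ⟨block_card e i, hi⟩⟩⟩
  have heq : ∀ e : (Fin m × Fin k) ≃ V, cnt G e = 1 := by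
    intro e
    by_contra hne
    have hlt : 1 < cnt G e := lt_of_le_of_ne (hge e) (Ne.symm hne)
    have := Finset.sum_lt_sum (s := (Finset.univ : Finset ((Fin m × Fin k) ≃ V)))
      (f := fun _ => 1) (g := fun e => cnt G e) (fun e _ => hge e) ⟨e, Finset.mem_univ _, hlt⟩
    simp only [Finset.sum_const, Finset.card_univ, smul_eq_mul, mul_one] at this
    omega
  have hex := exact_of_cnt hcard G heq
  have hne : (Finset.univ : Finset V).Nonempty := by
    rw [← Finset.card_pos, Finset.card_univ, hcard]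
    exact Nat.mul_pos (by omega) hk
  obtain ⟨x, _, hx⟩ := Finset.exists_max_image (Finset.univ : Finset V) w hne
  refine ⟨x, fun B hBk => ?_⟩
  have := star_of_exact (F := fun B => B ∈ G) hcard hm hk hex w
    (fun C C' _ hC' hFC hle => (hGmem C').2 ⟨hC', ((hGmem C).1 hFC).2.trans hle⟩)
    x (fun v => hx v (Finset.mem_univ v)) B hBk
  rw [hGmem] at this
  rw [← this]
  constructor
  · intro h; exact ⟨hBk, h⟩
  · intro h; exact h.2

/-- maximum case, abstract form -/
theorem abs_max (w : V → ℝ) (hw : Function.Injective w) (hw0 : ∑ v, w v = 0)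
    (hcard : Fintype.card V = m * k) (hm : 3 ≤ m) (hk : 2 ≤ k)
    (hmu : (((Finset.univ : Finset V).powersetCard k).filter
      (fun B => ∑ b ∈ B, w b < 0)).card ≤ (m * k - 1).choose (k - 1)) :
    ∃ x : V, ∀ B : Finset V, B.card = k → (0 ≤ ∑ b ∈ B, w b ↔ x ∉ B) := by
  classical
  have hNmem : ∀ B, B ∈ negSets k w ↔ (B.card = k ∧ ∑ b ∈ B, w b < 0) := by
    intro B
    unfold negSets
    rw [Finset.mem_filter, Finset.mem_powersetCard]
    simp
  have heq := cnt_eq_one hw hw0 hcard hm hk hmu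
  have hex := exact_of_cnt hcard (negSets k w) heq
  have hne : (Finset.univ : Finset V).Nonempty := by
    rw [← Finset.card_pos, Finset.card_univ, hcard]
    exact Nat.mul_pos (by omega) (by omega)
  obtain ⟨x, _, hx⟩ := Finset.exists_max_image (Finset.univ : Finset V)
    (fun v => - w v) hne
  refine ⟨x, fun B hBk => ?_⟩
  have := star_of_exact (F := fun B => B ∈ negSets k w) hcard hm (by omega) hex (fun v => - w v)
    (fun C C' _ hC' hFC hle => (hNmem C').2 ⟨hC', by
      have h1 := ((hNmem C).1 hFC).2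
      rw [Finset.sum_neg_distrib, Finset.sum_neg_distrib] at hle
      linarith⟩)
    x (fun v => hx v (Finset.mem_univ v)) B hBk
  rw [hNmem] at this
  rw [← this]
  constructor
  · intro h h'; exact absurd h'.2 (not_lt.2 h)
  · intro h
    by_contra hcon
    exact h ⟨hBk, not_le.1 hcon⟩

end

variable {A : Finset ℝ} {m k : ℕ}

/-- the inclusion of a finite set of reals -/
def incl (A : Finset ℝ) : {x // x ∈ A} ↪ ℝ := Function.Embedding.subtype _

theorem univ_map (A : Finset ℝ) : (Finset.univ : Finset {x // x ∈ A}).map (incl A) = A := by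
  ext a
  simp [incl]

theorem sum_map_incl (A : Finset ℝ) (B : Finset {x // x ∈ A}) :
    ∑ b ∈ B.map (incl A), b = ∑ b ∈ B, (b : ℝ) := by
  rw [Finset.sum_map]; rfl

theorem card_filter_transfer (A : Finset ℝ) (k : ℕ) (P : ℝ → Prop) :
    ((A.powersetCard k).filter (fun B => P (∑ b ∈ B, b))).card
      = (((Finset.univ : Finset {x // x ∈ A}).powersetCard k).filter
          (fun B : Finset {x // x ∈ A} => P (∑ b ∈ B, (b : ℝ)))).card := by
  classical
  have h : A.powersetCard k = ((Finset.univ : Finset {x // x ∈ A}).powersetCard k).map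
      (Finset.mapEmbedding (incl A)).toEmbedding := by
    rw [← Finset.powersetCard_map, univ_map]
  rw [h, Finset.filter_map, Finset.card_map]
  congr 1
  apply Finset.filter_congr
  intro B _
  simp only [Function.comp_apply]
  have : (Finset.mapEmbedding (incl A)).toEmbedding B = B.map (incl A) := rfl
  rw [this, sum_map_incl]

theorem sum_univ_val (A : Finset ℝ) : ∑ v : {x // x ∈ A}, (v : ℝ) = ∑ a ∈ A, a := by
  rw [← sum_map_incl, univ_map]

/-- a `k`-subset of `A` as a set in the subtype -/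
theorem exists_lift {B : Finset ℝ} (hB : B ⊆ A) :
    ∃ B' : Finset {x // x ∈ A}, B'.map (incl A) = B ∧ B'.card = B.card ∧
      (∀ x : {x // x ∈ A}, x ∈ B' ↔ (x : ℝ) ∈ B) ∧ ∑ b ∈ B', (b : ℝ) = ∑ b ∈ B, b := by
  classical
  refine ⟨B.subtype (· ∈ A), ?_, ?_, ?_, ?_⟩
  · unfold incl
    exact Finset.subtype_map_of_mem (fun x hx => hB hx)
  · rw [Finset.card_subtype, Finset.filter_true_of_mem (fun x hx => hB hx)]
  · intro x; simp
  · rw [← sum_map_incl]
    congr 1
    unfold incl
    exact Finset.subtype_map_of_mem (fun x hx => hB hx)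

/-- minimum case -/
theorem star_min (hm : 3 ≤ m) (hk : 1 ≤ k) (hA : Admissible (m * k) A)
    (hmu : mu k A ≤ (m * k - 1).choose (k - 1)) :
    ∃ x ∈ A, ∀ B ⊆ A, B.card = k → (0 ≤ ∑ b ∈ B, b ↔ x ∈ B) := by
  classical
  have hcard : Fintype.card {x // x ∈ A} = m * k := by simpa using hA.1
  have hw0 : ∑ v : {x // x ∈ A}, (v : ℝ) = 0 := by rw [sum_univ_val]; exact hA.2
  have hmu' := hmu
  unfold mu nonnegSets at hmu'
  rw [card_filter_transfer A k (fun t => 0 ≤ t)] at hmu'
  obtain ⟨x, hx⟩ := abs_min (fun v : {x // x ∈ A} => (v : ℝ)) hw0 hcard hm hk hmu'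
  refine ⟨x, x.2, fun B hB hBk => ?_⟩
  obtain ⟨B', _, hc', hmem', hs'⟩ := exists_lift hB
  rw [← hs', ← hmem' x]
  exact hx B' (by rw [hc', hBk])

/-- maximum case -/
theorem star_max (hm : 3 ≤ m) (hk : 2 ≤ k) (hA : Admissible (m * k) A)
    (hmu : (m * k - 1).choose k ≤ mu k A) :
    ∃ x ∈ A, ∀ B ⊆ A, B.card = k → (0 ≤ ∑ b ∈ B, b ↔ x ∉ B) := by
  classical
  have hcard : Fintype.card {x // x ∈ A} = m * k := by simpa using hA.1
  have hw0 : ∑ v : {x // x ∈ A}, (v : ℝ) = 0 := by rw [sum_univ_val]; exact hA.2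
  have hNc : ((A.powersetCard k).filter (fun B => ∑ b ∈ B, b < 0)).card
      ≤ (m * k - 1).choose (k - 1) := by
    have h2 : mu k A + ((A.powersetCard k).filter (fun B => ∑ b ∈ B, b < 0)).card
        = (m * k).choose k := by
      unfold mu nonnegSets
      have := Finset.card_filter_add_card_filter_not (s := A.powersetCard k)
        (fun B : Finset ℝ => 0 ≤ ∑ b ∈ B, b)
      simp only [not_le] at this
      rw [this, Finset.card_powersetCard, hA.1]
    have hmk : 1 ≤ m * k := Nat.mul_pos (by omega) (by omega)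
    obtain ⟨a, ha⟩ : ∃ a, m * k = a + 1 := ⟨m * k - 1, by omega⟩
    obtain ⟨b, hb⟩ : ∃ b, k = b + 1 := ⟨k - 1, by omega⟩
    have h3 : (m * k).choose k = (m * k - 1).choose (k - 1) + (m * k - 1).choose k := by
      have e1 : m * k - 1 = a := by omega
      have e2 : k - 1 = b := by omega
      rw [e1, e2, ha, hb, Nat.choose_succ_succ]
    omega
  rw [card_filter_transfer A k (fun t => t < 0)] at hNc
  obtain ⟨x, hx⟩ := abs_max (fun v : {x // x ∈ A} => (v : ℝ)) Subtype.val_injective hw0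
    hcard hm hk hNc
  refine ⟨x, x.2, fun B hB hBk => ?_⟩
  obtain ⟨B', _, hc', hmem', hs'⟩ := exists_lift hB
  rw [← hs', ← hmem' x]
  exact hx B' (by rw [hc', hBk])

end Pool.Agent.Lib.MP1e901d
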