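import Pool.Agent.Lib.MP_1e901d_co.Negative
import Pool.Agent.Lib.MP_1e901d_co.Transfer

/-! MP_1e901d_co : both classifications for all `n` with `(k-1)(2k²-1) < n-1`. -/

namespace Pool.Agent.Lib.MP1e901d

open Finset
open scoped Classical

/-- the `k`-subsets with positive sum -/
noncomputable def posSets (k : ℕ) (A : Finset ℝ) : Finset (Finset ℝ) :=
  (A.powersetCard k).filter (fun B => 0 < ∑ b ∈ B, b)

theorem mem_posSets {k : ℕ} {A B : Finset ℝ} :
    B ∈ posSets k A ↔ (B ⊆ A ∧ B.card = k) ∧ 0 < ∑ b ∈ B, b := by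
  unfold posSets
  rw [Finset.mem_filter, Finset.mem_powersetCard]

theorem choose_drop (j N : ℕ) : ∀ t : ℕ, t ≤ N →
    N.choose (j + 1) ≤ (N - t).choose (j + 1) + t * (N - 1).choose j := by
  intro t
  induction t with
  | zero => intro _; simp
  | succ t ih =>
    intro h
    have ih := ih (by omega)
    obtain ⟨a, ha⟩ : ∃ a, N - t = a + 1 := ⟨N - t - 1, by omega⟩
    have h1 : (N - t).choose (j + 1) = a.choose j + a.choose (j + 1) := by
      rw [ha, Nat.choose_succ_succ]
    have h2 : a.choose j ≤ (N - 1).choose j := Nat.choose_le_choose j (by omega)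
    have h3 : N - (t + 1) = a := by omega
    rw [h3]
    rw [h1] at ih
    have h4 : (t + 1) * (N - 1).choose j = t * (N - 1).choose j + (N - 1).choose j := by ring
    omega

theorem choose_ineq {k n : ℕ} (hk : 2 ≤ k) (hn : (k - 1) * (2 * k ^ 2 - 1) < n - 1) :
    k * (n - 1).choose (k - 1) < k * (n - 2 * k).choose (k - 1) + (n - k).choose (k - 1) := by
  obtain ⟨j, rfl⟩ : ∃ j, k = j + 2 := ⟨k - 2, by omega⟩
  obtain ⟨N, rfl⟩ : ∃ N, n = N + 1 := ⟨n - 1, by omega⟩
  have e0 : 2 * (j + 2) ^ 2 - 1 = 2 * j ^ 2 + 8 * j + 7 := by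
    have : 2 * (j + 2) ^ 2 = 2 * j ^ 2 + 8 * j + 8 := by ring
    omega
  have e1 : j + 2 - 1 = j + 1 := by omega
  have e2 : N + 1 - 1 = N := by omega
  rw [e0, e1, e2] at hn
  rw [e1, e2]
  have hN : 2 * j + 3 ≤ N := by nlinarith
  have h1 := choose_drop j N (2 * j + 3) hN
  have h2 := choose_drop j N (j + 1) (by omega)
  have e3 : N - (2 * j + 3) = N + 1 - 2 * (j + 2) := by omega
  have e4 : N - (j + 1) = N + 1 - (j + 2) := by omega
  rw [e3] at h1
  rw [e4] at h2
  have h3 : N * (N - 1).choose j = N.choose (j + 1) * (j + 1) := by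
    obtain ⟨M, rfl⟩ : ∃ M, N = M + 1 := ⟨N - 1, by omega⟩
    exact Nat.add_one_mul_choose_eq M j
  have hc : 0 < (N - 1).choose j := Nat.choose_pos (by omega)
  set c := (N - 1).choose j with hcdef
  set T := N.choose (j + 1) with hT
  set X := (N + 1 - 2 * (j + 2)).choose (j + 1) with hX
  set Y := (N + 1 - (j + 2)).choose (j + 1) with hY
  clear_value c T X Y
  have h4 : (2 * j ^ 2 + 8 * j + 7) * c < T := by
    have h5 : (j + 1) * ((2 * j ^ 2 + 8 * j + 7) * c) < (j + 1) * T := by
      calc (j + 1) * ((2 * j ^ 2 + 8 * j + 7) * c) = ((j + 1) * (2 * j ^ 2 + 8 * j + 7)) * c := by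
            ring
        _ < N * c := (Nat.mul_lt_mul_right hc).2 hn
        _ = (j + 1) * T := by rw [h3]; ring
    exact Nat.lt_of_mul_lt_mul_left h5
  zify at *
  nlinarith

/-- strictly positive `k`-subsets of a set of `m k` distinct reals with non-negative sum -/
theorem pos_div {m k : ℕ} (hm : 3 ≤ m) (hk : 2 ≤ k) {R : Finset ℝ} (hc : R.card = m * k)
    (hs : 0 ≤ ∑ a ∈ R, a) : (m * k - 1).choose (k - 1) ≤ (posSets k R).card := by
  have hmk : 0 < m * k := Nat.mul_pos (by omega) (by omega)
  have hmkR : (0 : ℝ) < (m * k : ℕ) := by exact_mod_cast hmk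
  set c : ℝ := (∑ a ∈ R, a) / (m * k : ℕ) with hcdef
  have hc0 : 0 ≤ c := div_nonneg hs hmkR.le
  let φ : ℝ → ℝ := fun x => c - x
  have hφ : Function.Injective φ := by
    intro a b hab
    have : c - a = c - b := hab
    linarith
  have hφφ : ∀ x, φ (φ x) = x := fun x => by show c - (c - x) = x; ring
  set R' : Finset ℝ := R.image φ with hR'
  have hadm : Admissible (m * k) R' := by
    refine ⟨by rw [hR', Finset.card_image_of_injective _ hφ, hc], ?_⟩
    rw [hR', Finset.sum_image (fun _ _ _ _ h => hφ h)]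
    show ∑ x ∈ R, (c - x) = 0
    rw [Finset.sum_sub_distrib, Finset.sum_const, hc, nsmul_eq_mul, hcdef]
    field_simp
    ring
  have hneg : (m * k - 1).choose (k - 1) ≤
      ((R'.powersetCard k).filter (fun B => ∑ b ∈ B, b < 0)).card := by
    have htot : mu k R' + ((R'.powersetCard k).filter (fun B => ∑ b ∈ B, b < 0)).card
        = (m * k).choose k := by
      have := Finset.card_filter_add_card_filter_not (s := R'.powersetCard k)
        (fun B : Finset ℝ => 0 ≤ ∑ b ∈ B, b)
      simp only [not_le] at this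
      rw [Finset.card_powersetCard, hadm.1] at this
      exact this
    have hp := pascal (n := m * k) (k := k) hmk (by omega)
    rcases Nat.lt_or_ge (mu k R') ((m * k - 1).choose k) with h | h
    · omega
    · obtain ⟨x, hx, hB⟩ := star_max hm hk hadm h
      have hcs := card_star hx (k := k) (by omega)
      rw [hadm.1] at hcs
      rw [← hcs]
      apply Finset.card_le_card
      intro B hBm
      rw [Finset.mem_filter, Finset.mem_powersetCard] at hBm ⊢
      refine ⟨hBm.1, ?_⟩
      by_contra hcon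
      exact (hB B hBm.1.1 hBm.1.2).1 (not_lt.1 hcon) hBm.2
  refine hneg.trans ?_
  apply Finset.card_le_card_of_injOn (fun B => B.image φ)
  · intro B hB
    rw [Finset.mem_coe, Finset.mem_filter, Finset.mem_powersetCard] at hB
    rw [Finset.mem_coe, mem_posSets]
    refine ⟨⟨?_, ?_⟩, ?_⟩
    · intro y hy
      obtain ⟨b, hb, rfl⟩ := Finset.mem_image.1 hy
      obtain ⟨a, ha, hab⟩ := Finset.mem_image.1 (hB.1.1 hb)
      rw [← hab, hφφ]
      exact ha
    · rw [Finset.card_image_of_injective _ hφ, hB.1.2]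
    · rw [Finset.sum_image (fun _ _ _ _ h => hφ h)]
      show 0 < ∑ x ∈ B, (c - x)
      rw [Finset.sum_sub_distrib, Finset.sum_const, nsmul_eq_mul]
      have h1 := hB.2
      have h2 : 0 ≤ (B.card : ℝ) * c := mul_nonneg (Nat.cast_nonneg _) hc0
      linarith
  · intro B _ B' _ h
    exact Finset.image_injective hφ h

/-- Markov: sets through the maximum -/
theorem pos_through {k : ℕ} (hk : 2 ≤ k) {R : Finset ℝ} {x : ℝ} (hx : 0 < x)
    (hmax : ∀ y ∈ R, y ≤ x) (hs : 0 ≤ ∑ a ∈ R, a) (hRc : 1 ≤ R.card) :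
    R.card.choose (k - 1) ≤
      k * ((R.powersetCard (k - 1)).filter (fun C => 0 < x + ∑ c ∈ C, c)).card := by
  set S := R.powersetCard (k - 1) with hS
  set P := S.filter (fun C => 0 < x + ∑ c ∈ C, c) with hP
  set Q := S.filter (fun C => ¬ 0 < x + ∑ c ∈ C, c) with hQ
  have htot : P.card + Q.card = R.card.choose (k - 1) := by
    rw [← Finset.card_powersetCard]
    exact Finset.card_filter_add_card_filter_not _
  have hsum : ∑ C ∈ S, ∑ y ∈ C, (x - y) =
      ((R.card - 1).choose (k - 2) : ℝ) * ∑ y ∈ R, (x - y) := by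
    have h1 : ∑ C ∈ S, ∑ y ∈ C, (x - y) = ∑ C ∈ S, ∑ y ∈ R, if y ∈ C then (x - y) else 0 := by
      refine Finset.sum_congr rfl fun C hC => ?_
      rw [Finset.sum_ite_mem]
      rw [Finset.inter_eq_right.2 (Finset.mem_powersetCard.1 hC).1]
    rw [h1, Finset.sum_comm, Finset.mul_sum]
    refine Finset.sum_congr rfl fun y hy => ?_
    rw [← Finset.sum_filter, Finset.sum_const, nsmul_eq_mul]
    have := card_star hy (k := k - 1) (by omega)
    rw [show k - 1 - 1 = k - 2 by omega] at this
    rw [hS, this]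
  have hR : ∑ y ∈ R, (x - y) ≤ (R.card : ℝ) * x := by
    rw [Finset.sum_sub_distrib, Finset.sum_const, nsmul_eq_mul]
    linarith
  have hch : (R.card : ℝ) * ((R.card - 1).choose (k - 2) : ℝ) =
      (R.card.choose (k - 1) : ℝ) * ((k - 1 : ℕ) : ℝ) := by
    obtain ⟨M, hM⟩ : ∃ M, R.card = M + 1 := ⟨R.card - 1, by omega⟩
    obtain ⟨j, rfl⟩ : ∃ j, k = j + 2 := ⟨k - 2, by omega⟩
    have := Nat.add_one_mul_choose_eq M j
    rw [hM]
    simp only [Nat.add_sub_cancel, show j + 2 - 1 = j + 1 by omega]
    exact_mod_cast this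
  have hup : ∑ C ∈ S, ∑ y ∈ C, (x - y) ≤ (R.card.choose (k - 1) : ℝ) * ((k - 1 : ℕ) : ℝ) * x := by
    rw [hsum, ← hch]
    have h0 : (0 : ℝ) ≤ ((R.card - 1).choose (k - 2) : ℝ) := Nat.cast_nonneg _
    nlinarith [mul_le_mul_of_nonneg_left hR h0]
  have hlow : (Q.card : ℝ) * (k * x) ≤ ∑ C ∈ S, ∑ y ∈ C, (x - y) := by
    have hsub : Q ⊆ S := Finset.filter_subset _ _
    have h2 : ∑ C ∈ Q, ∑ y ∈ C, (x - y) ≤ ∑ C ∈ S, ∑ y ∈ C, (x - y) := by
      apply Finset.sum_le_sum_of_subset_of_nonneg hsub
      intro C hC _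
      apply Finset.sum_nonneg
      intro y hy
      have := hmax y ((Finset.mem_powersetCard.1 hC).1 hy)
      linarith
    refine le_trans ?_ h2
    rw [← nsmul_eq_mul, ← Finset.sum_const]
    refine Finset.sum_le_sum fun C hC => ?_
    rw [hQ, Finset.mem_filter] at hC
    rw [Finset.sum_sub_distrib, Finset.sum_const, nsmul_eq_mul,
      (Finset.mem_powersetCard.1 hC.1).2]
    have h3 := not_lt.1 hC.2
    have h4 : ((k - 1 : ℕ) : ℝ) = (k : ℝ) - 1 := by
      rw [Nat.cast_sub (by omega)]; simp
    rw [h4]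
    linarith
  have hfin : (Q.card : ℝ) * k ≤ (R.card.choose (k - 1) : ℝ) * ((k - 1 : ℕ) : ℝ) := by
    have h5 : (Q.card : ℝ) * k * x ≤ (R.card.choose (k - 1) : ℝ) * ((k - 1 : ℕ) : ℝ) * x := by
      calc (Q.card : ℝ) * k * x = (Q.card : ℝ) * (k * x) := by ring
        _ ≤ _ := hlow.trans hup
    exact le_of_mul_le_mul_right h5 hx
  have hfin' : Q.card * k ≤ R.card.choose (k - 1) * (k - 1) := by exact_mod_cast hfin
  obtain ⟨j, rfl⟩ : ∃ j, k = j + 2 := ⟨k - 2, by omega⟩
  rw [show j + 2 - 1 = j + 1 by omega] at *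
  rw [← htot] at hfin' ⊢
  nlinarith

/-- removing smallest elements keeps the sum non-negative -/
theorem exists_sub_nonneg (R : Finset ℝ) (hs : 0 ≤ ∑ a ∈ R, a) : ∀ t : ℕ, t ≤ R.card →
    ∃ R' : Finset ℝ, R' ⊆ R ∧ R'.card = R.card - t ∧ 0 ≤ ∑ a ∈ R', a := by
  intro t
  induction t with
  | zero => intro _; exact ⟨R, Finset.Subset.refl _, by simp, hs⟩
  | succ t ih =>
    intro ht
    obtain ⟨R₁, h1, h2, h3⟩ := ih (by omega)
    have hne : R₁.Nonempty := by rw [← Finset.card_pos, h2]; omega
    set y := R₁.min' hne with hy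
    have hyR : y ∈ R₁ := Finset.min'_mem _ _
    refine ⟨R₁.erase y, (Finset.erase_subset _ _).trans h1, ?_, ?_⟩
    · rw [Finset.card_erase_of_mem hyR, h2]; omega
    · rcases le_or_gt 0 y with h | h
      · apply Finset.sum_nonneg
        intro a ha
        have := Finset.min'_le R₁ a (Finset.mem_of_mem_erase ha)
        linarith
      · have := Finset.add_sum_erase R₁ (fun a => a) hyR
        linarith

theorem pos_main {k n : ℕ} (hk : 2 ≤ k) (hn : (k - 1) * (2 * k ^ 2 - 1) < n - 1) {A : Finset ℝ}
    (hA : Admissible n A) (h : (posSets k A).card ≤ (n - 1).choose (k - 1)) :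
    ∃ x ∈ A, ∀ B ⊆ A, B.card = k → (0 < ∑ b ∈ B, b ↔ x ∈ B) := by
  have hn4 : 4 * k < n := by
    obtain ⟨j, rfl⟩ : ∃ j, k = j + 2 := ⟨k - 2, by omega⟩
    have e0 : 2 * (j + 2) ^ 2 - 1 = 2 * j ^ 2 + 8 * j + 7 := by
      have : 2 * (j + 2) ^ 2 = 2 * j ^ 2 + 8 * j + 8 := by ring
      omega
    rw [e0, show j + 2 - 1 = j + 1 by omega] at hn
    have : (j + 1) * (2 * j ^ 2 + 8 * j + 7) = 2 * j ^ 3 + 10 * j ^ 2 + 15 * j + 7 := by ring
    rw [this] at hn
    have h3 : 0 ≤ 2 * j ^ 3 + 10 * j ^ 2 := Nat.zero_le _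
    omega
  have hne : A.Nonempty := by rw [← Finset.card_pos, hA.1]; omega
  set x := A.max' hne with hxdef
  have hxA : x ∈ A := Finset.max'_mem _ _
  have hmax : ∀ y ∈ A, y ≤ x := fun y hy => Finset.le_max' A y hy
  have hx0 : 0 < x := by
    by_contra hcon
    have hle : ∀ a ∈ A, a ≤ 0 := fun a ha => (hmax a ha).trans (not_lt.1 hcon)
    have h0 : ∀ a ∈ A, -a = 0 := by
      apply (Finset.sum_eq_zero_iff_of_nonneg (fun a ha => by have := hle a ha; linarith)).1
      rw [Finset.sum_neg_distrib, hA.2, neg_zero]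
    have : A ⊆ {0} := fun a ha => Finset.mem_singleton.2 (by have := h0 a ha; linarith)
    have := Finset.card_le_card this
    rw [hA.1, Finset.card_singleton] at this
    omega
  set E := A.erase x with hE
  have hEc : E.card = n - 1 := by rw [hE, Finset.card_erase_of_mem hxA, hA.1]
  have hxE : x ∉ E := Finset.notMem_erase _ _
  have hEA : E ⊆ A := Finset.erase_subset _ _
  have hEs : ∑ a ∈ E, a = -x := by
    have := Finset.add_sum_erase A (fun a => a) hxA
    rw [hA.2] at this
    linarith
  have hSne : (E.powersetCard (k - 1)).Nonempty := by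
    rw [Finset.powersetCard_nonempty, hEc]
    omega
  obtain ⟨L, hL, hLmin⟩ := Finset.exists_min_image (E.powersetCard (k - 1))
    (fun C => ∑ c ∈ C, c) hSne
  rw [Finset.mem_powersetCard] at hL
  rcases lt_or_ge 0 (x + ∑ c ∈ L, c) with hcase | hcase
  · -- all the sets through `x` are positive
    have hstar : (A.powersetCard k).filter (fun B => x ∈ B) ⊆ posSets k A := by
      intro B hB
      rw [Finset.mem_filter, Finset.mem_powersetCard] at hB
      rw [mem_posSets]
      refine ⟨hB.1, ?_⟩
      have h1 := Finset.add_sum_erase B (fun a => a) hB.2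
      have h2 : B.erase x ∈ E.powersetCard (k - 1) := by
        rw [Finset.mem_powersetCard]
        refine ⟨Finset.erase_subset_erase _ hB.1.1, ?_⟩
        rw [Finset.card_erase_of_mem hB.2, hB.1.2]
      have h3 := hLmin _ h2
      linarith
    have hcs := card_star hxA (k := k) (by omega)
    rw [hA.1] at hcs
    have heq := Finset.eq_of_subset_of_card_le hstar (by rw [hcs]; exact h)
    refine ⟨x, hxA, fun B hBA hBk => ⟨fun hpos => ?_, fun hxB => ?_⟩⟩
    · have : B ∈ posSets k A := mem_posSets.2 ⟨⟨hBA, hBk⟩, hpos⟩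
      rw [← heq, Finset.mem_filter] at this
      exact this.2
    · have : B ∈ posSets k A := by
        rw [← heq, Finset.mem_filter, Finset.mem_powersetCard]
        exact ⟨⟨hBA, hBk⟩, hxB⟩
      exact (mem_posSets.1 this).2
  · exfalso
    set R := E \ L with hR
    have hRE : R ⊆ E := Finset.sdiff_subset
    have hRc : R.card = n - k := by
      rw [hR, Finset.card_sdiff_of_subset hL.1, hEc, hL.2]
      omega
    have hRs : 0 ≤ ∑ a ∈ R, a := by
      have := Finset.sum_sdiff (f := fun a : ℝ => a) hL.1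
      rw [← hR, hEs] at this
      linarith
    have hxR : x ∉ R := fun hh => hxE (hRE hh)
    have hb := pos_through hk hx0 (fun y hy => hmax y (hEA (hRE hy))) hRs (by rw [hRc]; omega)
    rw [hRc] at hb
    set P := (R.powersetCard (k - 1)).filter (fun C => 0 < x + ∑ c ∈ C, c) with hP
    set m := (n - k) / k with hm
    have hm1 : k * m ≤ n - k := Nat.mul_div_le _ _
    have hm2 : n - k < k * m + k := by
      have := Nat.lt_mul_div_succ (n - k) (by omega : 0 < k)
      rw [← hm] at this
      calc n - k < k * (m + 1) := this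
        _ = k * m + k := by ring
    have hm3 : 3 ≤ m := by
      rw [hm, Nat.le_div_iff_mul_le (by omega)]
      omega
    obtain ⟨R', hR'R, hR'c, hR's⟩ := exists_sub_nonneg R hRs (n - k - k * m) (by rw [hRc]; omega)
    have hR'c' : R'.card = m * k := by
      rw [hR'c, hRc, mul_comm m k]
      omega
    have ha := pos_div hm3 hk hR'c' hR's
    have ha' : (n - 2 * k).choose (k - 1) ≤ (posSets k R').card := by
      refine le_trans (Nat.choose_le_choose _ ?_) ha
      rw [mul_comm m k]
      omega
    have hcount : (posSets k R').card + P.card ≤ (posSets k A).card := by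
      have hinj : Set.InjOn (fun C : Finset ℝ => insert x C) (P : Set (Finset ℝ)) := by
        intro C hC C' hC' hCC
        rw [Finset.mem_coe, hP, Finset.mem_filter, Finset.mem_powersetCard] at hC hC'
        have h1 : x ∉ C := fun hh => hxR (hC.1.1 hh)
        have h2 : x ∉ C' := fun hh => hxR (hC'.1.1 hh)
        have h3 : (insert x C).erase x = (insert x C').erase x := by
          have : insert x C = insert x C' := hCC
          rw [this]
        rwa [Finset.erase_insert h1, Finset.erase_insert h2] at h3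
      rw [← Finset.card_image_of_injOn hinj]
      have hdisj : Disjoint (posSets k R') (P.image (fun C => insert x C)) := by
        rw [Finset.disjoint_left]
        intro B hB hB'
        obtain ⟨C, hC, rfl⟩ := Finset.mem_image.1 hB'
        have := (mem_posSets.1 hB).1.1 (Finset.mem_insert_self x C)
        exact hxR (hR'R this)
      rw [← Finset.card_union_of_disjoint hdisj]
      apply Finset.card_le_card
      intro B hB
      rw [mem_posSets]
      rcases Finset.mem_union.1 hB with hB | hB
      · have := mem_posSets.1 hB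
        exact ⟨⟨this.1.1.trans (hR'R.trans (hRE.trans hEA)), this.1.2⟩, this.2⟩
      · obtain ⟨C, hC, rfl⟩ := Finset.mem_image.1 hB
        rw [hP, Finset.mem_filter, Finset.mem_powersetCard] at hC
        have h1 : x ∉ C := fun hh => hxR (hC.1.1 hh)
        refine ⟨⟨?_, ?_⟩, ?_⟩
        · intro b hb
          rcases Finset.mem_insert.1 hb with rfl | hb
          · exact hxA
          · exact hEA (hRE (hC.1.1 hb))
        · rw [Finset.card_insert_of_notMem h1, hC.1.2]
          omega
        · rw [Finset.sum_insert h1]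
          exact hC.2
    have hineq := choose_ineq hk hn
    have h5 : k * ((posSets k R').card + P.card) ≤ k * (n - 1).choose (k - 1) :=
      Nat.mul_le_mul_left _ (hcount.trans h)
    have h6 : k * (n - 2 * k).choose (k - 1) ≤ k * (posSets k R').card :=
      Nat.mul_le_mul_left _ ha'
    rw [mul_add] at h5
    omega

/-- minimum: pencil families for all large `n` -/
theorem large_min {k n : ℕ} (hk : 2 ≤ k) (hn : (k - 1) * (2 * k ^ 2 - 1) < n - 1) {A : Finset ℝ}
    (hA : Admissible n A) (h : mu k A ≤ (n - 1).choose (k - 1)) : IsPencilFamily k A := by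
  have hsub : posSets k A ⊆ nonnegSets k A := by
    intro B hB
    have := mem_posSets.1 hB
    unfold nonnegSets
    rw [Finset.mem_filter, Finset.mem_powersetCard]
    exact ⟨this.1, this.2.le⟩
  obtain ⟨x, hx, hB⟩ := pos_main hk hn hA ((Finset.card_le_card hsub).trans h)
  have hstar : (A.powersetCard k).filter (fun B => x ∈ B) ⊆ nonnegSets k A := by
    intro B hBm
    rw [Finset.mem_filter, Finset.mem_powersetCard] at hBm
    unfold nonnegSets
    rw [Finset.mem_filter, Finset.mem_powersetCard]
    exact ⟨hBm.1, ((hB B hBm.1.1 hBm.1.2).2 hBm.2).le⟩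
  have hcs := card_star hx (k := k) (by omega)
  rw [hA.1] at hcs
  have heq := Finset.eq_of_subset_of_card_le hstar (by rw [hcs]; exact h)
  refine ⟨x, hx, fun B hBA hBk => ⟨fun h0 => ?_, fun hxB => ((hB B hBA hBk).2 hxB).le⟩⟩
  have : B ∈ nonnegSets k A := by
    unfold nonnegSets
    rw [Finset.mem_filter, Finset.mem_powersetCard]
    exact ⟨⟨hBA, hBk⟩, h0⟩
  rw [← heq, Finset.mem_filter] at this
  exact this.2

/-- maximum: anti-pencil families for all large `n` -/
theorem large_max {k n : ℕ} (hk : 2 ≤ k) (hn : (k - 1) * (2 * k ^ 2 - 1) < n - 1) {A : Finset ℝ}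
    (hA : Admissible n A) (h : (n - 1).choose k ≤ mu k A) : IsAntiPencilFamily k A := by
  set A' : Finset ℝ := A.image (fun x => -x) with hA'
  have hadm : Admissible n A' := neg_admissible hA
  have htot : mu k A + ((A.powersetCard k).filter (fun B => ∑ b ∈ B, b < 0)).card
      = n.choose k := by
    have := Finset.card_filter_add_card_filter_not (s := A.powersetCard k)
      (fun B : Finset ℝ => 0 ≤ ∑ b ∈ B, b)
    simp only [not_le] at this
    rw [Finset.card_powersetCard, hA.1] at this
    exact this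
  have hp := pascal (n := n) (k := k) (by omega) (by omega)
  have hle : (posSets k A').card ≤ ((A.powersetCard k).filter (fun B => ∑ b ∈ B, b < 0)).card := by
    apply Finset.card_le_card_of_injOn (fun B => B.image (fun x => -x))
    · intro B hB
      rw [Finset.mem_coe, mem_posSets] at hB
      rw [Finset.mem_coe, Finset.mem_filter, Finset.mem_powersetCard]
      refine ⟨⟨?_, ?_⟩, ?_⟩
      · intro y hy
        obtain ⟨b, hb, rfl⟩ := Finset.mem_image.1 hy
        obtain ⟨a, ha, hab⟩ := Finset.mem_image.1 (hB.1.1 hb)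
        rw [← hab, neg_neg]
        exact ha
      · rw [Finset.card_image_of_injective _ neg_injective, hB.1.2]
      · rw [Finset.sum_image (fun _ _ _ _ h => neg_injective h), Finset.sum_neg_distrib]
        linarith [hB.2]
    · intro B _ B' _ h
      exact Finset.image_injective neg_injective h
  obtain ⟨x, hx, hB⟩ := pos_main hk hn hadm (by omega)
  obtain ⟨y, hy, hyx⟩ := Finset.mem_image.1 hx
  refine ⟨y, hy, fun B hBA hBk => ?_⟩
  have h1 := hB (B.image (fun x => -x)) (Finset.image_subset_image hBA)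
    (by rw [Finset.card_image_of_injective _ neg_injective, hBk])
  rw [Finset.sum_image (fun _ _ _ _ h => neg_injective h), Finset.sum_neg_distrib, ← hyx] at h1
  have h2 : -y ∈ B.image (fun x => -x) ↔ y ∈ B := by
    constructor
    · intro hh
      obtain ⟨b, hb, hby⟩ := Finset.mem_image.1 hh
      have : b = y := neg_injective hby
      rwa [← this]
    · intro hh
      exact Finset.mem_image_of_mem _ hh
  rw [h2] at h1
  rw [← h1]
  constructor
  · intro h0 hcon
    linarith
  · intro h0
    by_contra hcon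
    exact h0 (by linarith)

end Pool.Agent.Lib.MP1e901d
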