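import Pool.Agent.Lib.MP_1e901d_co.Elem

/-! Pairs `(k, n)` with extremal examples whose families are not stars. -/

namespace Pool.Agent.Lib.MP1e901d

open Finset
open scoped Classical

/-- the non-negative `k`-subsets are those containing a fixed element -/
def IsPencilFamily (k : ℕ) (A : Finset ℝ) : Prop :=
  ∃ x ∈ A, ∀ B : Finset ℝ, B ⊆ A → B.card = k → (0 ≤ ∑ b ∈ B, b ↔ x ∈ B)

/-- the non-negative `k`-subsets are those avoiding a fixed element -/
def IsAntiPencilFamily (k : ℕ) (A : Finset ℝ) : Prop :=
  ∃ x ∈ A, ∀ B : Finset ℝ, B ⊆ A → B.card = k → (0 ≤ ∑ b ∈ B, b ↔ x ∉ B)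

theorem pascal {n k : ℕ} (hn : 1 ≤ n) (hk : 1 ≤ k) :
    n.choose k = (n - 1).choose (k - 1) + (n - 1).choose k := by
  obtain ⟨a, rfl⟩ : ∃ a, n = a + 1 := ⟨n - 1, by omega⟩
  obtain ⟨b, rfl⟩ : ∃ b, k = b + 1 := ⟨k - 1, by omega⟩
  exact Nat.choose_succ_succ a b

theorem pencilFamily_mu {n k : ℕ} (hk : 1 ≤ k) {A : Finset ℝ} (hA : Admissible n A)
    (h : IsPencilFamily k A) : (n - 1).choose (k - 1) ≤ mu k A := by
  obtain ⟨x, hx, hB⟩ := h
  exact star_le_mu hk hA hx (fun B hBA hBk hxB => (hB B hBA hBk).2 hxB)

theorem antiPencilFamily_mu {n k : ℕ} {A : Finset ℝ} (hA : Admissible n A)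
    (h : IsAntiPencilFamily k A) : mu k A ≤ (n - 1).choose k := by
  obtain ⟨x, hx, hB⟩ := h
  apply mu_le_costar hA hx
  intro B hBA hBk hxB
  by_contra hcon
  exact (hB B hBA hBk).1 (not_lt.1 hcon) hxB

theorem neg_both {k n : ℕ} (hk : 1 ≤ k) (hn : 1 ≤ n) {A : Finset ℝ} (hA : Admissible n A)
    (hz : ∀ B : Finset ℝ, B ⊆ A → B.card = k → ∑ b ∈ B, b ≠ 0)
    (hmu : mu k A ≤ (n - 1).choose (k - 1)) (hnp : ¬ IsPencilFamily k A) :
    (¬ ∀ A, IsMinExtremal k n A → IsPencilFamily k A) ∧
      (¬ ∀ A, IsMaxExtremal k n A → IsAntiPencilFamily k A) := by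
  classical
  constructor
  · intro hall
    obtain ⟨E, hE⟩ := exists_min k hA
    have h1 := pencilFamily_mu hk hE.1 (hall E hE)
    exact hnp (hall A ⟨hA, fun A' hA' => (hmu.trans h1).trans (hE.2 A' hA')⟩)
  · intro hall
    set A' : Finset ℝ := A.image (fun x => -x) with hA'def
    have hA' : Admissible n A' := neg_admissible hA
    have hnegmem : ∀ {C : Finset ℝ}, C ⊆ A → C.image (fun x => -x) ⊆ A' := by
      intro C hC
      exact Finset.image_subset_image hC
    have hnegsum : ∀ C : Finset ℝ, ∑ b ∈ C.image (fun x => -x), b = - ∑ b ∈ C, b := by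
      intro C
      rw [Finset.sum_image (fun _ _ _ _ h => neg_injective h), Finset.sum_neg_distrib]
    have hnegcard : ∀ C : Finset ℝ, (C.image (fun x => -x)).card = C.card := by
      intro C
      rw [Finset.card_image_of_injective _ neg_injective]
    have hlow : (n - 1).choose k ≤ mu k A' := by
      have h2 : mu k A + ((A.powersetCard k).filter (fun B => ∑ b ∈ B, b < 0)).card
          = n.choose k := by
        unfold mu nonnegSets
        have := Finset.card_filter_add_card_filter_not (s := A.powersetCard k)
          (fun B : Finset ℝ => 0 ≤ ∑ b ∈ B, b)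
        simp only [not_le] at this
        rw [this, Finset.card_powersetCard, hA.1]
      have h3 : ((A.powersetCard k).filter (fun B => ∑ b ∈ B, b < 0)).card ≤ mu k A' := by
        unfold mu
        apply Finset.card_le_card_of_injOn (fun C => C.image (fun x => -x))
        · intro C hC
          have hC := Finset.mem_coe.1 hC
          rw [Finset.mem_filter, Finset.mem_powersetCard] at hC
          apply Finset.mem_coe.2
          unfold nonnegSets
          rw [Finset.mem_filter, Finset.mem_powersetCard]
          refine ⟨⟨hnegmem hC.1.1, by rw [hnegcard, hC.1.2]⟩, ?_⟩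
          rw [hnegsum]; linarith [hC.2]
        · intro C _ D _ hCD
          exact Finset.image_injective neg_injective hCD
      have h4 := pascal hn hk
      omega
    obtain ⟨E, hE⟩ := exists_max k hA
    have h1 := antiPencilFamily_mu hE.1 (hall E hE)
    obtain ⟨y, hy, hyB⟩ := hall A' ⟨hA', fun A'' hA'' => (hE.2 A'' hA'').trans (h1.trans hlow)⟩
    apply hnp
    obtain ⟨x, hx, rfl⟩ := Finset.mem_image.1 hy
    refine ⟨x, hx, fun B hB hBk => ?_⟩
    have h5 := hyB (B.image (fun x => -x)) (hnegmem hB) (by rw [hnegcard, hBk])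
    rw [hnegsum] at h5
    have h6 : -x ∈ B.image (fun x => -x) ↔ x ∈ B := by
      constructor
      · intro h
        obtain ⟨c, hc, hce⟩ := Finset.mem_image.1 h
        have : c = x := neg_injective hce
        rw [← this]; exact hc
      · intro h; exact Finset.mem_image_of_mem _ h
    rw [h6] at h5
    have h7 := hz B hB hBk
    constructor
    · intro h
      by_contra hxB
      have := h5.2 hxB
      exact h7 (by linarith)
    · intro h
      by_contra hcon
      exact (h5.1 (by linarith [not_le.1 hcon])) h

theorem choose_le_up {N j : ℕ} (h : 2 * j + 1 ≤ N) : N.choose j ≤ N.choose (j + 1) := by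
  have h1 := Nat.choose_succ_right_eq N j
  have h2 : N.choose j * (j + 1) ≤ N.choose (j + 1) * (j + 1) := by
    rw [h1]
    exact Nat.mul_le_mul_left _ (by omega)
  exact Nat.le_of_mul_le_mul_right h2 (by omega)

theorem choose_le_down {N j : ℕ} (h : N ≤ 2 * j + 1) : N.choose (j + 1) ≤ N.choose j := by
  have h1 := Nat.choose_succ_right_eq N j
  have h2 : N.choose (j + 1) * (j + 1) ≤ N.choose j * (j + 1) := by
    rw [h1]
    exact Nat.mul_le_mul_left _ (by omega)
  exact Nat.le_of_mul_le_mul_right h2 (by omega)

/-- constructions with `q` negative elements -/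
theorem constr_few_neg {k n q : ℕ} (hk : 2 ≤ k) (hq : 1 ≤ q) (hkq : k * q < n)
    (hc : (n - q).choose k ≤ (n - 1).choose (k - 1)) :
    (¬ ∀ A, IsMinExtremal k n A → IsPencilFamily k A) ∧
      (¬ ∀ A, IsMaxExtremal k n A → IsAntiPencilFamily k A) := by
  classical
  have hq2 : 2 * q ≤ k * q := Nat.mul_le_mul_right q hk
  have hkq' : k + q ≤ k * q + 1 := by nlinarith
  obtain ⟨A, P, hA, hPA, hPc, hPpos, hneg, hsum⟩ := twoLevel (n - q) q (by omega) hq
  have hn : n - q + q = n := by omega
  rw [hn] at hA
  rw [hn] at hsum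
  have hfam : ∀ B : Finset ℝ, B ⊆ A → B.card = k →
      (B ⊆ P → 0 < ∑ b ∈ B, b) ∧ (¬ B ⊆ P → ∑ b ∈ B, b < 0) := by
    intro B hB hBk
    have hs := hsum B hB
    rw [hBk] at hs
    constructor
    · intro hBP
      apply hs.1
      rw [Finset.inter_eq_left.2 hBP, hBk]
      exact Nat.mul_lt_mul_of_pos_left (by omega) (by omega)
    · intro hBP
      apply hs.2
      have h1 : (B ∩ P).card < k := by
        rw [← hBk]
        apply Finset.card_lt_card
        refine ⟨Finset.inter_subset_left, fun h => hBP (fun b hb => ?_)⟩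
        exact (Finset.mem_inter.1 (h hb)).2
      have h2 : (B ∩ P).card * n ≤ (k - 1) * n := Nat.mul_le_mul_right n (by omega)
      have h3 : (k - 1) * n + n = k * n := by
        obtain ⟨a, rfl⟩ : ∃ a, k = a + 1 := ⟨k - 1, by omega⟩
        simp; ring
      have h4 : k * (n - q) + k * q = k * n := by rw [← mul_add, hn]
      omega
  refine neg_both (by omega) (by omega) hA ?_ ?_ ?_
  · intro B hB hBk
    by_cases h : B ⊆ P
    · exact ((hfam B hB hBk).1 h).ne'
    · exact ((hfam B hB hBk).2 h).ne
  · refine le_trans ?_ hc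
    rw [← hPc, ← Finset.card_powersetCard]
    unfold mu
    apply Finset.card_le_card
    intro B hB
    unfold nonnegSets at hB
    rw [Finset.mem_filter, Finset.mem_powersetCard] at hB
    rw [Finset.mem_powersetCard]
    refine ⟨?_, hB.1.2⟩
    by_contra h
    exact absurd hB.2 (not_le.2 ((hfam B hB.1.1 hB.1.2).2 h))
  · rintro ⟨x, hx, hxB⟩
    by_cases hxP : x ∈ P
    · -- a set through `x` and a negative element
      have hcd : (A \ P).card = q := by
        rw [Finset.card_sdiff_of_subset hPA, hA.1, hPc]; omega
      obtain ⟨z, hz⟩ := Finset.card_pos.1 (by rw [hcd]; exact hq : 0 < (A \ P).card)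
      rw [Finset.mem_sdiff] at hz
      have hxz : x ≠ z := fun h => hz.2 (h ▸ hxP)
      have hpair : ({x, z} : Finset ℝ) ⊆ A := by
        intro a ha
        rw [Finset.mem_insert, Finset.mem_singleton] at ha
        rcases ha with rfl | rfl
        · exact hx
        · exact hz.1
      obtain ⟨B, hB1, hB2, hB3⟩ := Finset.exists_subsuperset_card_eq hpair
        (by rw [Finset.card_pair hxz]; exact hk) (by rw [hA.1]; omega : k ≤ A.card)
      have h1 := (hxB B hB2 hB3).2 (hB1 (by simp))
      have h2 : ¬ B ⊆ P := fun h => hz.2 (h (hB1 (by simp)))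
      exact absurd h1 (not_le.2 ((hfam B hB2 hB3).2 h2))
    · obtain ⟨B, hB1, hB2⟩ := Finset.exists_subset_card_eq (by rw [hPc]; omega : k ≤ P.card)
      have h1 := (hxB B (hB1.trans hPA) hB2).1 ((hfam B (hB1.trans hPA) hB2).1 hB1).le
      exact hxP (hB1 h1)

/-- the construction with three positive elements -/
theorem constr_three {k n : ℕ} (hk : 2 ≤ k) (h2 : 2 * k ≤ n) (h3 : n < 3 * k) :
    (¬ ∀ A, IsMinExtremal k n A → IsPencilFamily k A) ∧
      (¬ ∀ A, IsMaxExtremal k n A → IsAntiPencilFamily k A) := by
  classical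
  obtain ⟨A, P, hA, hPA, hPc, hPpos, hneg, hsum⟩ := twoLevel 3 (n - 3) (by omega) (by omega)
  have hn : 3 + (n - 3) = n := by omega
  rw [hn] at hA
  rw [hn] at hsum
  have hfam : ∀ B : Finset ℝ, B ⊆ A → B.card = k →
      (2 ≤ (B ∩ P).card → 0 < ∑ b ∈ B, b) ∧ (¬ 2 ≤ (B ∩ P).card → ∑ b ∈ B, b < 0) := by
    intro B hB hBk
    have hs := hsum B hB
    rw [hBk] at hs
    constructor
    · intro h
      apply hs.1
      have : 2 * n ≤ (B ∩ P).card * n := Nat.mul_le_mul_right n h
      omega
    · intro h
      apply hs.2
      have : (B ∩ P).card * n ≤ 1 * n := Nat.mul_le_mul_right n (by omega)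
      omega
  refine neg_both (by omega) (by omega) hA ?_ ?_ ?_
  · intro B hB hBk
    by_cases h : 2 ≤ (B ∩ P).card
    · exact ((hfam B hB hBk).1 h).ne'
    · exact ((hfam B hB hBk).2 h).ne
  · obtain ⟨x, y, z, hxy, hxz, hyz, hPe⟩ := Finset.card_eq_three.1 hPc
    have hxP : x ∈ P := by rw [hPe]; simp
    have hyP : y ∈ P := by rw [hPe]; simp
    have hzP : z ∈ P := by rw [hPe]; simp
    have hPmem : ∀ a, a ∈ P ↔ a = x ∨ a = y ∨ a = z := by intro a; rw [hPe]; simp
    set S := (A.powersetCard k).filter (fun B => x ∈ B) with hS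
    have hSc : S.card = (n - 1).choose (k - 1) := by
      rw [hS, card_star (hPA hxP) (by omega), hA.1]
    set X := S.filter (fun B => y ∉ B ∧ z ∉ B) with hX
    set Y := (A.powersetCard k).filter (fun B => x ∉ B ∧ y ∈ B ∧ z ∈ B) with hY
    have hAPc : (A \ P).card = n - 3 := by
      rw [Finset.card_sdiff_of_subset hPA, hA.1, hPc]
    have hYc : Y.card ≤ (n - 3).choose (k - 2) := by
      rw [← hAPc, ← Finset.card_powersetCard]
      apply Finset.card_le_card_of_injOn (fun B => (B.erase y).erase z)
      · intro B hB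
        have hB := Finset.mem_coe.1 hB
        rw [hY, Finset.mem_filter, Finset.mem_powersetCard] at hB
        obtain ⟨⟨hBA, hBk⟩, hx', hy', hz'⟩ := hB
        apply Finset.mem_coe.2
        rw [Finset.mem_powersetCard]
        constructor
        · intro a ha
          rw [Finset.mem_erase, Finset.mem_erase] at ha
          rw [Finset.mem_sdiff, hPmem]
          refine ⟨hBA ha.2.2, ?_⟩
          rintro (h | h | h)
          · exact hx' (h ▸ ha.2.2)
          · exact ha.2.1 h
          · exact ha.1 h
        · rw [Finset.card_erase_of_mem, Finset.card_erase_of_mem hy', hBk]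
          · omega
          · exact Finset.mem_erase.2 ⟨Ne.symm hyz, hz'⟩
      · intro B hB C hC hBC
        have hB := Finset.mem_coe.1 hB
        have hC := Finset.mem_coe.1 hC
        rw [hY, Finset.mem_filter] at hB hC
        have e1 : insert y (insert z ((B.erase y).erase z)) = B := by
          rw [Finset.insert_erase (Finset.mem_erase.2 ⟨Ne.symm hyz, hB.2.2.2⟩),
            Finset.insert_erase hB.2.2.1]
        have e2 : insert y (insert z ((C.erase y).erase z)) = C := by
          rw [Finset.insert_erase (Finset.mem_erase.2 ⟨Ne.symm hyz, hC.2.2.2⟩),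
            Finset.insert_erase hC.2.2.1]
        rw [← e1, ← e2]
        have hBC' : (B.erase y).erase z = (C.erase y).erase z := hBC
        rw [hBC']
    have hXc : (n - 3).choose (k - 1) ≤ X.card := by
      rw [← hAPc, ← Finset.card_powersetCard]
      apply Finset.card_le_card_of_injOn (fun C => insert x C)
      · intro C hC
        have hC := Finset.mem_coe.1 hC
        rw [Finset.mem_powersetCard] at hC
        have hxC : x ∉ C := fun h => (Finset.mem_sdiff.1 (hC.1 h)).2 hxP
        have hyC : y ∉ C := fun h => (Finset.mem_sdiff.1 (hC.1 h)).2 hyP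
        have hzC : z ∉ C := fun h => (Finset.mem_sdiff.1 (hC.1 h)).2 hzP
        apply Finset.mem_coe.2
        rw [hX, hS, Finset.mem_filter, Finset.mem_filter, Finset.mem_powersetCard]
        refine ⟨⟨⟨?_, ?_⟩, Finset.mem_insert_self _ _⟩, ?_, ?_⟩
        · exact Finset.insert_subset (hPA hxP) (hC.1.trans Finset.sdiff_subset)
        · rw [Finset.card_insert_of_notMem hxC, hC.2]; omega
        · rw [Finset.mem_insert]; rintro (h | h)
          · exact hxy h.symm
          · exact hyC h
        · rw [Finset.mem_insert]; rintro (h | h)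
          · exact hxz h.symm
          · exact hzC h
      · intro C hC D hD hCD
        have hC := Finset.mem_coe.1 hC
        have hD := Finset.mem_coe.1 hD
        rw [Finset.mem_powersetCard] at hC hD
        have hxC : x ∉ C := fun h => (Finset.mem_sdiff.1 (hC.1 h)).2 hxP
        have hxD : x ∉ D := fun h => (Finset.mem_sdiff.1 (hD.1 h)).2 hxP
        have hCD' : insert x C = insert x D := hCD
        rw [← Finset.erase_insert hxC, ← Finset.erase_insert hxD, hCD']
    have hXS : X ⊆ S := Finset.filter_subset _ _
    have hsub : nonnegSets k A ⊆ (S \ X) ∪ Y := by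
      intro B hB
      unfold nonnegSets at hB
      rw [Finset.mem_filter] at hB
      have hB' := Finset.mem_powersetCard.1 hB.1
      have hB2 : 2 ≤ (B ∩ P).card := by
        by_contra h
        exact absurd hB.2 (not_le.2 ((hfam B hB'.1 hB'.2).2 h))
      rw [Finset.mem_union]
      by_cases hxB : x ∈ B
      · left
        rw [Finset.mem_sdiff, hX, hS, Finset.mem_filter, Finset.mem_filter]
        refine ⟨⟨hB.1, hxB⟩, ?_⟩
        rintro ⟨_, hyB, hzB⟩
        have : B ∩ P ⊆ {x} := by
          intro a ha
          rw [Finset.mem_inter, hPmem] at ha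
          rw [Finset.mem_singleton]
          rcases ha.2 with h | h | h
          · exact h
          · exact absurd (h ▸ ha.1) hyB
          · exact absurd (h ▸ ha.1) hzB
        have := Finset.card_le_card this
        rw [Finset.card_singleton] at this
        omega
      · right
        rw [hY, Finset.mem_filter]
        refine ⟨hB.1, hxB, ?_, ?_⟩
        · by_contra hyB
          have : B ∩ P ⊆ {z} := by
            intro a ha
            rw [Finset.mem_inter, hPmem] at ha
            rw [Finset.mem_singleton]
            rcases ha.2 with h | h | h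
            · exact absurd (h ▸ ha.1) hxB
            · exact absurd (h ▸ ha.1) hyB
            · exact h
          have := Finset.card_le_card this
          rw [Finset.card_singleton] at this
          omega
        · by_contra hzB
          have : B ∩ P ⊆ {y} := by
            intro a ha
            rw [Finset.mem_inter, hPmem] at ha
            rw [Finset.mem_singleton]
            rcases ha.2 with h | h | h
            · exact absurd (h ▸ ha.1) hxB
            · exact h
            · exact absurd (h ▸ ha.1) hzB
          have := Finset.card_le_card this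
          rw [Finset.card_singleton] at this
          omega
    have hle := (Finset.card_le_card hsub).trans (Finset.card_union_le _ _)
    rw [Finset.card_sdiff_of_subset hXS, hSc] at hle
    have hXle : X.card ≤ (n - 1).choose (k - 1) := by rw [← hSc]; exact Finset.card_le_card hXS
    have hch : (n - 3).choose (k - 2) ≤ (n - 3).choose (k - 1) := by
      have := choose_le_up (N := n - 3) (j := k - 2) (by omega)
      have hkk : k - 2 + 1 = k - 1 := by omega
      rwa [hkk] at this
    unfold mu
    omega
  · rintro ⟨x, hx, hxB⟩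
    have hc : 2 ≤ (P.erase x).card := by
      have := Finset.pred_card_le_card_erase (s := P) (a := x)
      omega
    obtain ⟨T, hT1, hT2⟩ := Finset.exists_subset_card_eq hc
    have hTA : T ⊆ A.erase x := hT1.trans (Finset.erase_subset_erase _ hPA)
    obtain ⟨B, hB1, hB2, hB3⟩ := Finset.exists_subsuperset_card_eq hTA (by omega)
      (by rw [Finset.card_erase_of_mem hx, hA.1]; omega : k ≤ (A.erase x).card)
    have hBA : B ⊆ A := hB2.trans (Finset.erase_subset _ _)
    have h4 : 2 ≤ (B ∩ P).card := by
      rw [← hT2]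
      apply Finset.card_le_card
      intro t ht
      exact Finset.mem_inter.2 ⟨hB1 ht, Finset.mem_of_mem_erase (hT1 ht)⟩
    have h5 := (hxB B hBA hB3).1 ((hfam B hBA hB3).1 h4).le
    exact (Finset.mem_erase.1 (hB2 h5)).1 rfl

end Pool.Agent.Lib.MP1e901d
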