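import Mathlib

/-! Families of `k`-subsets of an `m * k`-element set which contain exactly one block of every
partition into `k`-subsets. -/

namespace Pool.Agent.Lib.MP1e901d

open Finset
open scoped Classical

variable {V : Type*} {m : ℕ}

/-- filling disjoint sets up to given capacities -/
theorem greedy (c : Fin m → ℕ) (U : Finset V) : ∀ D : Fin m → Finset V,
    (∀ i j, i ≠ j → Disjoint (D i) (D j)) → (∀ i, (D i).card ≤ c i) →
    (∀ i, Disjoint (D i) U) → U.card + ∑ i, (D i).card ≤ ∑ i, c i →
    ∃ D' : Fin m → Finset V, (∀ i j, i ≠ j → Disjoint (D' i) (D' j)) ∧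
      (∀ i, (D' i).card ≤ c i) ∧ (∀ i, D i ⊆ D' i) ∧ (∀ u ∈ U, ∃ i, u ∈ D' i) := by
  classical
  induction U using Finset.induction with
  | empty =>
    intro D hD hc _ _
    exact ⟨D, hD, hc, fun i => Finset.Subset.refl _, fun u hu => absurd hu (Finset.notMem_empty u)⟩
  | insert v U hv ih =>
    intro D hD hc hU hsum
    rw [Finset.card_insert_of_notMem hv] at hsum
    -- some index has room
    obtain ⟨i, hi⟩ : ∃ i, (D i).card < c i := by
      by_contra hcon
      push Not at hcon
      have : ∑ i, c i ≤ ∑ i, (D i).card := Finset.sum_le_sum (fun i _ => hcon i)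
      omega
    have hvD : ∀ j, v ∉ D j := fun j hj =>
      Finset.disjoint_left.1 (hU j) hj (Finset.mem_insert_self _ _)
    let E : Fin m → Finset V := Function.update D i (insert v (D i))
    have hEi : E i = insert v (D i) := Function.update_self _ _ _
    have hEj : ∀ j, j ≠ i → E j = D j := fun j hj => Function.update_of_ne hj _ _
    have hEsub : ∀ j, D j ⊆ E j := by
      intro j
      by_cases hj : j = i
      · subst hj; rw [hEi]; exact Finset.subset_insert _ _
      · rw [hEj j hj]
    have hsumE : ∑ j, (E j).card = ∑ j, (D j).card + 1 := by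
      rw [← Finset.add_sum_erase _ _ (Finset.mem_univ i), ← Finset.add_sum_erase _ _
        (Finset.mem_univ i), hEi, Finset.card_insert_of_notMem (hvD i)]
      have : ∑ j ∈ Finset.univ.erase i, (E j).card = ∑ j ∈ Finset.univ.erase i, (D j).card :=
        Finset.sum_congr rfl (fun j hj => by rw [hEj j (Finset.ne_of_mem_erase hj)])
      rw [this]; ring
    have hdE : ∀ a b, a ≠ b → Disjoint (E a) (E b) := by
      intro a b hab
      by_cases ha : a = i
      · subst ha
        rw [hEi, hEj b (Ne.symm hab), Finset.disjoint_insert_left]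
        exact ⟨hvD b, hD _ _ hab⟩
      · by_cases hb : b = i
        · subst hb
          rw [hEi, hEj a ha, Finset.disjoint_insert_right]
          exact ⟨hvD a, hD _ _ hab⟩
        · rw [hEj a ha, hEj b hb]; exact hD _ _ hab
    have hcE : ∀ j, (E j).card ≤ c j := by
      intro j
      by_cases hj : j = i
      · subst hj; rw [hEi, Finset.card_insert_of_notMem (hvD j)]; omega
      · rw [hEj j hj]; exact hc j
    have hUE : ∀ j, Disjoint (E j) U := by
      intro j
      by_cases hj : j = i
      · subst hj
        rw [hEi, Finset.disjoint_insert_left]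
        exact ⟨hv, (hU j).mono_right (Finset.subset_insert _ _)⟩
      · rw [hEj j hj]; exact (hU j).mono_right (Finset.subset_insert _ _)
    obtain ⟨D', h1, h2, h3, h4⟩ := ih E hdE hcE hUE (by rw [hsumE]; omega)
    refine ⟨D', h1, h2, fun j => (hEsub j).trans (h3 j), ?_⟩
    intro u hu
    rcases Finset.mem_insert.1 hu with rfl | hu
    · exact ⟨i, h3 i (by rw [hEi]; exact Finset.mem_insert_self _ _)⟩
    · exact h4 u hu

/-- pairwise disjoint blocks of size `k` -/
def IsPart (k : ℕ) (D : Fin m → Finset V) : Prop :=
  (∀ i j, i ≠ j → Disjoint (D i) (D j)) ∧ ∀ i, (D i).card = k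

variable [Fintype V]

/-- disjoint sets of size at most `k` extend to a partition -/
theorem extend_part {k : ℕ} (hcard : Fintype.card V = m * k) (D : Fin m → Finset V)
    (hD : ∀ i j, i ≠ j → Disjoint (D i) (D j)) (hc : ∀ i, (D i).card ≤ k) :
    ∃ D' : Fin m → Finset V, IsPart k D' ∧ (∀ i, D i ⊆ D' i) ∧ ∀ v, ∃ i, v ∈ D' i := by
  classical
  set W : Finset V := Finset.univ.biUnion D with hW
  have hWc : W.card = ∑ i, (D i).card := by
    rw [hW, Finset.card_biUnion]
    intro i _ j _ hij
    exact hD i j hij
  obtain ⟨D', h1, h2, h3, h4⟩ := greedy (fun _ => k) (Finset.univ \ W) D hD hc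
    (fun i => by
      rw [Finset.disjoint_left]
      intro a ha ha'
      exact (Finset.mem_sdiff.1 ha').2 (Finset.mem_biUnion.2 ⟨i, Finset.mem_univ i, ha⟩))
    (by
      rw [Finset.card_sdiff_of_subset (Finset.subset_univ _), Finset.card_univ, hcard, hWc]
      have : ∑ i, (D i).card ≤ m * k := by
        rw [← hcard, ← hWc]; exact Finset.card_le_univ _
      simp only [Finset.sum_const, Finset.card_univ, Fintype.card_fin, smul_eq_mul]
      omega)
  have hcov : ∀ v, ∃ i, v ∈ D' i := by
    intro v
    by_cases hv : v ∈ W
    · obtain ⟨i, _, hi⟩ := Finset.mem_biUnion.1 hv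
      exact ⟨i, h3 i hi⟩
    · exact h4 v (Finset.mem_sdiff.2 ⟨Finset.mem_univ _, hv⟩)
  refine ⟨D', ⟨h1, ?_⟩, h3, hcov⟩
  have htot : ∑ i, (D' i).card = m * k := by
    rw [← Finset.card_biUnion (fun i _ j _ hij => h1 i j hij), ← hcard, ← Finset.card_univ]
    congr 1
    ext v
    simp only [Finset.mem_biUnion, Finset.mem_univ, true_and, iff_true]
    exact hcov v
  intro i
  by_contra hne
  have hlt : (D' i).card < k := lt_of_le_of_ne (h2 i) hne
  have : ∑ i, (D' i).card < ∑ _i : Fin m, k :=
    Finset.sum_lt_sum (fun j _ => h2 j) ⟨i, Finset.mem_univ _, hlt⟩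
  simp only [Finset.sum_const, Finset.card_univ, Fintype.card_fin, smul_eq_mul] at this
  omega

section
variable {k : ℕ} {F : Finset V → Prop}

/-- two disjoint members cannot exist -/
theorem not_two (hcard : Fintype.card V = m * k) (hm : 2 ≤ m)
    (hex : ∀ D : Fin m → Finset V, IsPart k D → ∃! i, F (D i)) {B C : Finset V}
    (hB : B.card = k) (hC : C.card = k) (hBC : Disjoint B C) (hFB : F B) : ¬ F C := by
  classical
  intro hFC
  let i0 : Fin m := ⟨0, by omega⟩
  let i1 : Fin m := ⟨1, by omega⟩
  have h01 : i0 ≠ i1 := by simp [i0, i1]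
  let D : Fin m → Finset V := fun i => if i = i0 then B else if i = i1 then C else ∅
  have hD0 : D i0 = B := by simp [D]
  have hD1 : D i1 = C := by simp [D, Ne.symm h01]
  have hDo : ∀ i, i ≠ i0 → i ≠ i1 → D i = ∅ := fun i h h' => by simp [D, h, h']
  have hD : ∀ i j, i ≠ j → Disjoint (D i) (D j) := by
    intro i j hij
    by_cases hi0 : i = i0
    · subst hi0
      by_cases hj1 : j = i1
      · subst hj1; rw [hD0, hD1]; exact hBC
      · rw [hDo j (Ne.symm hij) hj1]; exact Finset.disjoint_empty_right _
    · by_cases hi1 : i = i1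
      · subst hi1
        by_cases hj0 : j = i0
        · subst hj0; rw [hD0, hD1]; exact hBC.symm
        · rw [hDo j hj0 (Ne.symm hij)]; exact Finset.disjoint_empty_right _
      · rw [hDo i hi0 hi1]; exact Finset.disjoint_empty_left _
  have hc : ∀ i, (D i).card ≤ k := by
    intro i
    by_cases hi0 : i = i0
    · subst hi0; rw [hD0, hB]
    · by_cases hi1 : i = i1
      · subst hi1; rw [hD1, hC]
      · rw [hDo i hi0 hi1]; simp
  obtain ⟨D', hp, hsub, _⟩ := extend_part hcard D hD hc
  have e0 : D' i0 = B := by
    refine (Finset.eq_of_subset_of_card_le ?_ ?_).symm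
    · have := hsub i0; rwa [hD0] at this
    · rw [hp.2, hB]
  have e1 : D' i1 = C := by
    refine (Finset.eq_of_subset_of_card_le ?_ ?_).symm
    · have := hsub i1; rwa [hD1] at this
    · rw [hp.2, hC]
  obtain ⟨i, _, hu⟩ := hex D' hp
  have a0 := hu i0 (by simpa only [e0] using hFB)
  have a1 := hu i1 (by simpa only [e1] using hFC)
  exact h01 (a0.trans a1.symm)

/-- the core induction -/
theorem core (hcard : Fintype.card V = m * k) (hm : 3 ≤ m)
    (hex : ∀ D : Fin m → Finset V, IsPart k D → ∃! i, F (D i)) {L : Finset V}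
    (hL : L.card = k + 1) (hLF : ∀ C ⊆ L, C.card = k → F C) :
    ∀ s : ℕ, 1 ≤ s → s ≤ k → ∀ D : Finset V, D.card = k → (D ∩ L).card ≤ s → ¬ F D := by
  classical
  intro s
  induction s with
  | zero => intro h; omega
  | succ s ih =>
    intro _ hsk D hDk hDL
    rcases Nat.eq_zero_or_pos s with hs0 | hspos
    · subst hs0
      have h1 : k ≤ (L \ D).card := by
        have := Finset.card_inter_add_card_sdiff L D
        rw [Finset.inter_comm] at this
        omega
      obtain ⟨C, hCs, hCk⟩ := Finset.exists_subset_card_eq h1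
      have hCD : Disjoint C D := by
        rw [Finset.disjoint_left]
        intro a ha ha'
        exact (Finset.mem_sdiff.1 (hCs ha)).2 ha'
      exact not_two hcard (by omega) hex hCk hDk hCD
        (hLF C (hCs.trans Finset.sdiff_subset) hCk)
    · have hP := ih hspos (by omega)
      have h1 : k - s ≤ (L \ D).card := by
        have := Finset.card_inter_add_card_sdiff L D
        rw [Finset.inter_comm] at this
        omega
      obtain ⟨C₀, hC₀s, hC₀k⟩ := Finset.exists_subset_card_eq h1
      have hC₀D : C₀ ⊆ Finset.univ \ D := fun a ha =>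
        Finset.mem_sdiff.2 ⟨Finset.mem_univ _, (Finset.mem_sdiff.1 (hC₀s ha)).2⟩
      have hDc : k ≤ (Finset.univ \ D).card := by
        rw [Finset.card_sdiff_of_subset (Finset.subset_univ _), Finset.card_univ, hcard, hDk]
        have : 3 * k ≤ m * k := Nat.mul_le_mul_right k hm
        omega
      obtain ⟨C, hC₀C, hCD, hCk⟩ := Finset.exists_subsuperset_card_eq hC₀D (by omega) hDc
      have hCDdis : Disjoint C D := by
        rw [Finset.disjoint_left]
        intro a ha ha'
        exact (Finset.mem_sdiff.1 (hCD ha)).2 ha'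
      have hLC : (L \ C).card ≤ s + 1 := by
        have h2 := Finset.card_inter_add_card_sdiff L C
        have h3 : C₀ ⊆ L ∩ C := fun a ha =>
          Finset.mem_inter.2 ⟨(Finset.mem_sdiff.1 (hC₀s ha)).1, hC₀C ha⟩
        have h4 := Finset.card_le_card h3
        omega
      -- distribute `L \ C`
      let i0 : Fin m := ⟨0, by omega⟩
      let D1 : Fin m → Finset V := fun i => if i = i0 then C else ∅
      let c : Fin m → ℕ := fun i => if i = i0 then k else s
      have hD10 : D1 i0 = C := by simp [D1]
      have hD1o : ∀ i, i ≠ i0 → D1 i = ∅ := fun i h => by simp [D1, h]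
      have hsumc : ∑ i, c i = k + (m - 1) * s := by
        rw [← Finset.add_sum_erase _ _ (Finset.mem_univ i0)]
        have : ∑ x ∈ Finset.univ.erase i0, c x = ∑ x ∈ Finset.univ.erase i0, s :=
          Finset.sum_congr rfl (fun j hj => by simp [c, Finset.ne_of_mem_erase hj])
        rw [this]
        simp [c, Finset.card_erase_of_mem]
      have hsumD : ∑ i, (D1 i).card = k := by
        rw [← Finset.add_sum_erase _ _ (Finset.mem_univ i0)]
        have : ∑ x ∈ Finset.univ.erase i0, (D1 x).card = ∑ x ∈ Finset.univ.erase i0, 0 :=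
          Finset.sum_congr rfl (fun j hj => by rw [hD1o j (Finset.ne_of_mem_erase hj)]; simp)
        rw [this, hD10, hCk]
        simp
      obtain ⟨D2, g1, g2, g3, g4⟩ := greedy c (L \ C) D1
        (by
          intro i j hij
          by_cases hi : i = i0
          · subst hi; rw [hD1o j (Ne.symm hij)]; exact Finset.disjoint_empty_right _
          · rw [hD1o i hi]; exact Finset.disjoint_empty_left _)
        (by
          intro i
          by_cases hi : i = i0
          · subst hi; rw [hD10, hCk]; simp [c]
          · rw [hD1o i hi]; simp)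
        (by
          intro i
          by_cases hi : i = i0
          · subst hi; rw [hD10]; exact Finset.disjoint_sdiff
          · rw [hD1o i hi]; exact Finset.disjoint_empty_left _)
        (by
          rw [hsumc, hsumD]
          have : 2 * s ≤ (m - 1) * s := Nat.mul_le_mul_right s (by omega)
          omega)
      obtain ⟨D3, hp, hsub, _⟩ := extend_part hcard D2 g1 (by
        intro i
        refine (g2 i).trans ?_
        by_cases hi : i = i0
        · simp [c, hi]
        · simp only [c, hi, if_false]; omega)
      have e0 : D3 i0 = C := by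
        refine (Finset.eq_of_subset_of_card_le ?_ ?_).symm
        · have := (g3 i0).trans (hsub i0); rwa [hD10] at this
        · rw [hp.2, hCk]
      have hneg : ∀ i, i ≠ i0 → ¬ F (D3 i) := by
        intro i hi
        apply hP (D3 i) (hp.2 i)
        have hsubi : D3 i ∩ L ⊆ D2 i := by
          intro l hl
          rw [Finset.mem_inter] at hl
          have hlC : l ∉ C := by
            intro h
            rw [← e0] at h
            exact Finset.disjoint_left.1 (hp.1 i i0 hi) hl.1 h
          obtain ⟨j, hj⟩ := g4 l (Finset.mem_sdiff.2 ⟨hl.2, hlC⟩)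
          have : j = i := by
            by_contra hji
            exact Finset.disjoint_left.1 (hp.1 j i hji) (hsub j hj) hl.1
          rw [← this]; exact hj
        refine (Finset.card_le_card hsubi).trans ((g2 i).trans ?_)
        simp [c, hi]
      obtain ⟨i, hi, _⟩ := hex D3 hp
      have hii : i = i0 := by
        by_contra h
        exact hneg i h hi
      subst hii
      have hFC : F C := by
        have : F (D3 i0) := hi
        rwa [e0] at this
      exact not_two hcard (by omega) hex hCk hDk hCDdis hFC

/-- **Star lemma.**  A family containing exactly one block of every partition and monotone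
with respect to weights is the star of an element of maximal weight. -/
theorem star_of_exact (hcard : Fintype.card V = m * k) (hm : 3 ≤ m) (hk : 1 ≤ k)
    (hex : ∀ D : Fin m → Finset V, IsPart k D → ∃! i, F (D i)) (w : V → ℝ)
    (hmono : ∀ B B' : Finset V, B.card = k → B'.card = k → F B →
      ∑ b ∈ B, w b ≤ ∑ b ∈ B', w b → F B')
    (x : V) (hx : ∀ v, w v ≤ w x) (B : Finset V) (hB : B.card = k) : F B ↔ x ∈ B := by
  classical
  have hone : ∀ B : Finset V, B.card = k → F B → x ∈ B := by
    intro B hB hFB
    by_contra hxB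
    set L : Finset V := insert x B with hL
    have hLc : L.card = k + 1 := by rw [hL, Finset.card_insert_of_notMem hxB, hB]
    have hLF : ∀ C ⊆ L, C.card = k → F C := by
      intro C hC hCk
      apply hmono B C hB hCk hFB
      have hc : (L \ C).card = 1 := by rw [Finset.card_sdiff_of_subset hC, hLc, hCk]; omega
      obtain ⟨c, hcc⟩ := Finset.card_eq_one.1 hc
      have h1 : ∑ b ∈ L \ C, w b + ∑ b ∈ C, w b = ∑ b ∈ L, w b := Finset.sum_sdiff hC
      rw [hcc, Finset.sum_singleton, hL, Finset.sum_insert hxB] at h1
      have := hx c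
      linarith
    have := core hcard hm hex hLc hLF k hk le_rfl B hB (by
      rw [← hB]; exact Finset.card_le_card Finset.inter_subset_left)
    exact this hFB
  refine ⟨hone B hB, fun hxB => ?_⟩
  let i0 : Fin m := ⟨0, by omega⟩
  let D1 : Fin m → Finset V := fun i => if i = i0 then B else ∅
  have hD10 : D1 i0 = B := by simp [D1]
  have hD1o : ∀ i, i ≠ i0 → D1 i = ∅ := fun i h => by simp [D1, h]
  obtain ⟨D2, hp, hsub, _⟩ := extend_part hcard D1 (by
      intro i j hij
      by_cases hi : i = i0
      · subst hi; rw [hD1o j (Ne.symm hij)]; exact Finset.disjoint_empty_right _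
      · rw [hD1o i hi]; exact Finset.disjoint_empty_left _)
    (by
      intro i
      by_cases hi : i = i0
      · subst hi; rw [hD10, hB]
      · rw [hD1o i hi]; simp)
  have e0 : D2 i0 = B := by
    refine (Finset.eq_of_subset_of_card_le ?_ ?_).symm
    · have := hsub i0; rwa [hD10] at this
    · rw [hp.2, hB]
  obtain ⟨i, hi, _⟩ := hex D2 hp
  have hxi : x ∈ D2 i := hone _ (hp.2 i) hi
  have hii : i = i0 := by
    by_contra h
    exact Finset.disjoint_left.1 (hp.1 i i0 h) hxi (by rw [e0]; exact hxB)
  subst hii
  have : F (D2 i0) := hi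
  rwa [e0] at this

end

end Pool.Agent.Lib.MP1e901d
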