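import Pool.Agent.Lib.MP_1e901d_co.Step
import Pool.Agent.Results.MP_1e901d_co.PencilFamilies

/-! MP_1e901d_co : the two properties in terms of `StarMin`. -/

namespace Pool.Agent.Lib.MP1e901d

open Finset
open scoped Classical

theorem cntR_nonneg (k : ℕ) (A : Finset ℝ) : cntR (fun s => 0 ≤ s) k A = mu k A := rfl

theorem cntR_neg {n : ℕ} (k : ℕ) {A : Finset ℝ} (hA : Admissible n A) :
    cntR (fun s => s < 0) k A + mu k A = n.choose k := by
  classical
  have h := Finset.card_filter_add_card_filter_not (s := A.powersetCard k)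
    (fun B : Finset ℝ => (∑ b ∈ B, b) < 0)
  rw [Finset.card_powersetCard, hA.1] at h
  rw [← h]
  unfold cntR mu nonnegSets
  congr 2
  ext B
  simp [Finset.mem_filter, not_lt]

theorem min_iff {k n : ℕ} (hk : 1 ≤ k) (hkn : k < n) :
    (∀ A, IsMinExtremal k n A → IsPencilFamily k A) ↔ StarMin (fun s => 0 ≤ s) k n := by
  constructor
  · intro h A hA
    obtain ⟨E, hE⟩ := exists_min k hA
    have h1 : (n - 1).choose (k - 1) ≤ mu k E := pencilFamily_mu hk hE.1 (h E hE)
    have h1' := Pool.Agent.Results.MP_1e901d_co.PencilFamilies.min_mu_le hk hkn hE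
    have h2 : mu k E ≤ mu k A := hE.2 A hA
    refine ⟨by rw [cntR_nonneg]; omega, fun heq => ?_⟩
    rw [cntR_nonneg] at heq
    exact h A ⟨hA, fun A' hA' => by rw [heq]; exact h1.trans (hE.2 A' hA')⟩
  · intro h A hA
    have h1 := Pool.Agent.Results.MP_1e901d_co.PencilFamilies.min_mu_le hk hkn hA
    have h2 := h A hA.1
    rw [cntR_nonneg] at h2
    exact h2.2 (by omega)

theorem max_iff {k n : ℕ} (hk : 1 ≤ k) (hkn : k < n) :
    (∀ A, IsMaxExtremal k n A → IsAntiPencilFamily k A) ↔ StarMin (fun s => s < 0) k n := by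
  have hp := pascal (n := n) (k := k) (by omega) hk
  constructor
  · intro h A hA
    obtain ⟨E, hE⟩ := exists_max k hA
    have h1 : mu k E ≤ (n - 1).choose k := antiPencilFamily_mu hE.1 (h E hE)
    have h2 : mu k A ≤ mu k E := hE.2 A hA
    have h3 := cntR_neg k hA
    refine ⟨by omega, fun heq => ?_⟩
    have h4 : mu k A = (n - 1).choose k := by omega
    obtain ⟨x, hx, hB⟩ := h A ⟨hA, fun A' hA' => by
      rw [h4]; exact (hE.2 A' hA').trans h1⟩
    refine ⟨x, hx, fun B hBA hBk => ?_⟩
    have h5 := hB B hBA hBk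
    show (∑ b ∈ B, b) < 0 ↔ x ∈ B
    rw [← not_le, h5, not_not]
  · intro h A hA
    have h1 := Pool.Agent.Results.MP_1e901d_co.PencilFamilies.le_max_mu hk hkn hA
    have h2 := h A hA.1
    have h3 := cntR_neg k hA.1
    obtain ⟨x, hx, hB⟩ := h2.2 (by omega)
    refine ⟨x, hx, fun B hBA hBk => ?_⟩
    have h5 : (∑ b ∈ B, b) < 0 ↔ x ∈ B := hB B hBA hBk
    rw [← not_lt, h5]

/-- negation as an embedding -/
def negEmb : ℝ ↪ ℝ := ⟨fun x => -x, neg_injective⟩

/-- negation of a set of reals -/
noncomputable def negSet (A : Finset ℝ) : Finset ℝ := A.map negEmb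

theorem sum_negSet (A : Finset ℝ) : ∑ a ∈ negSet A, a = - ∑ a ∈ A, a := by
  unfold negSet
  rw [Finset.sum_map, ← Finset.sum_neg_distrib]
  rfl

theorem starMin_of_neg {k n : ℕ} (h : StarMin (fun s => s < 0) k n) :
    StarMin (fun s => 0 ≤ s) k n := by
  classical
  intro A hA
  have hnA : Admissible n (negSet A) := by
    refine ⟨by rw [negSet, Finset.card_map, hA.1], ?_⟩
    rw [sum_negSet, hA.2, neg_zero]
  -- positive sums of `A`
  have hcnt : cntR (fun s => s < 0) k (negSet A)
      = ((A.powersetCard k).filter (fun B => 0 < ∑ b ∈ B, b)).card := by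
    unfold cntR
    symm
    apply Finset.card_bij (fun B _ => negSet B)
    · intro B hB
      rw [Finset.mem_filter, Finset.mem_powersetCard] at hB ⊢
      refine ⟨⟨by unfold negSet; exact Finset.map_subset_map.2 hB.1.1,
        by rw [negSet, Finset.card_map, hB.1.2]⟩, ?_⟩
      show (∑ b ∈ negSet B, b) < 0
      rw [sum_negSet]; linarith [hB.2]
    · intro B _ B' _ hBB
      exact Finset.map_injective _ hBB
    · intro C hC
      rw [Finset.mem_filter, Finset.mem_powersetCard] at hC
      obtain ⟨B, hB, rfl⟩ := Finset.subset_map_iff.1 hC.1.1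
      have hs : (∑ b ∈ negSet B, b) < 0 := hC.2
      rw [sum_negSet] at hs
      refine ⟨B, ?_, rfl⟩
      rw [Finset.mem_filter, Finset.mem_powersetCard]
      exact ⟨⟨hB, by rw [← hC.1.2, Finset.card_map]⟩, by linarith⟩
  have hsub : ((A.powersetCard k).filter (fun B => 0 < ∑ b ∈ B, b)) ⊆
      ((A.powersetCard k).filter (fun B => 0 ≤ ∑ b ∈ B, b)) := by
    intro B hB
    rw [Finset.mem_filter] at hB ⊢
    exact ⟨hB.1, hB.2.le⟩
  obtain ⟨h1, h2⟩ := h _ hnA
  refine ⟨?_, fun heq => ?_⟩
  · rw [hcnt] at h1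
    exact h1.trans (Finset.card_le_card hsub)
  · have h3 : cntR (fun s => s < 0) k (negSet A) = (n - 1).choose (k - 1) := by
      apply le_antisymm _ h1
      rw [hcnt, ← heq]
      exact Finset.card_le_card hsub
    have h4 := Finset.eq_of_subset_of_card_le hsub (by
      rw [← hcnt, h3, ← heq]; exact le_rfl)
    obtain ⟨x', hx', hB'⟩ := h2 h3
    obtain ⟨x, hx, rfl⟩ := Finset.mem_map.1 hx'
    refine ⟨x, hx, fun B hBA hBk => ?_⟩
    have h5 := hB' (negSet B) (by unfold negSet; exact Finset.map_subset_map.2 hBA)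
      (by rw [negSet, Finset.card_map, hBk])
    have h7 : negEmb x ∈ negSet B ↔ x ∈ B := by
      unfold negSet
      exact Finset.mem_map' _
    rw [sum_negSet, h7] at h5
    have h8 : B ∈ (A.powersetCard k).filter (fun B => 0 < ∑ b ∈ B, b) ↔
      B ∈ (A.powersetCard k).filter (fun B => 0 ≤ ∑ b ∈ B, b) := by rw [h4]
    rw [Finset.mem_filter, Finset.mem_filter, Finset.mem_powersetCard] at h8
    rw [← h5]
    constructor
    · intro h9
      have := (h8.2 ⟨⟨hBA, hBk⟩, h9⟩).2
      show - ∑ b ∈ B, b < 0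
      linarith
    · intro h9
      have h9' : - ∑ b ∈ B, b < 0 := h9
      show 0 ≤ ∑ b ∈ B, b
      linarith

/-- all later pairs in the residue class of a settled pair -/
theorem climb {k b : ℕ} (hk : 1 ≤ k) (hb : 2 * k ≤ b) (h : StarMin (fun s => s < 0) k b) (m : ℕ) :
    StarMin (fun s => s < 0) k (b + m * k) := by
  induction m with
  | zero => simpa using h
  | succ m ih =>
    have := step (R := fun s => s < 0)
      (fun b t q h1 h2 h3 => by
        have h4 : 0 ≤ b := not_lt.1 h1
        have h5 : t < 0 := h2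
        have h6 := mul_nonneg h3 h4
        show t - q * b < 0
        linarith) hk (by omega : 2 * k ≤ b + m * k) ih
    rwa [show b + m * k + k = b + (m + 1) * k by ring] at this

end Pool.Agent.Lib.MP1e901d
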