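import Pool.Agent.Lib.MP_1e901d_co.Cert

/-! MP_1e901d_co : certificates. -/

namespace Pool.Agent.Lib.MP1e901d

/-- certificate for `k = 3`, `n = 11` -/
def cert3_11 : Cert :=
  .split [2, 4, 8] (.cnt) (.split [1, 5, 9] (.cnt) (.split [3, 5, 7] (.cnt) (.split [1, 6, 8]
  (.cnt) (.split [1, 4, 10] (.cnt) (.split [2, 3, 10] (.cnt) (.split [2, 6, 7] (.cnt) (.split
  [0, 6, 9] (.split [2, 4, 6] (.cnt) (.split [1, 3, 9] (.cnt) (.split [1, 5, 7] (.cnt) (.split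
  [2, 3, 7] (.cnt) (.far 3 [([0, 9, 10], 3), ([1, 5, 7], 3), ([2, 3, 7], 1), ([2, 4, 6],
  4)]))))) (.far 3 [([0, 6, 9], 3), ([1, 4, 10], 2), ([1, 6, 8], 1), ([2, 3, 10], 1), ([2, 4,
  8], 2), ([3, 5, 7], 2)]))))))))

theorem starMin3_11 : StarMin (fun s => s < 0) 3 11 :=
  starMin_of_check (t := 46) (by norm_num) (by norm_num) cert3_11
    (by decide +kernel) (by decide +kernel)

/-- certificate for `k = 3`, `n = 13` -/
def cert3_13 : Cert :=
  .split [2, 5, 9] (.cnt) (.split [1, 6, 10] (.cnt) (.split [3, 6, 8] (.cnt) (.split [2, 4, 11]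
  (.cnt) (.split [1, 5, 11] (.cnt) (.split [3, 4, 10] (.cnt) (.split [0, 7, 12] (.split [1, 4,
  7] (.cnt) (.far 3 [([0, 11, 12], 3), ([1, 4, 7], 10)])) (.far 3 [([0, 7, 12], 3), ([1, 5, 11],
  1), ([1, 6, 10], 2), ([2, 4, 11], 2), ([2, 5, 9], 4), ([3, 6, 8], 1)])))))))

theorem starMin3_13 : StarMin (fun s => s < 0) 3 13 :=
  starMin_of_check (t := 67) (by norm_num) (by norm_num) cert3_13
    (by decide +kernel) (by decide +kernel)

end Pool.Agent.Lib.MP1e901d
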